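import Pool.Agent.Lib.MP_6ccddd_lc.Count

/-!
# MP_6ccddd_lc: minor-closed families with countably many classes are Borel
-/

set_option autoImplicit false

open Relation Ordinal MeasureTheory

namespace Pool.Agent.Lib.MP_6ccddd_lc

/-- the graph coded by a function -/
def gr (y : ℕ × ℕ → Bool) : SimpleGraph ℕ where
  Adj a b := a ≠ b ∧ y (a, b) = true ∧ y (b, a) = true
  symm := ⟨fun _ _ h => ⟨h.1.symm, h.2.2, h.2.1⟩⟩
  loopless := ⟨fun _ h => h.1 rfl⟩

theorem gr_ind (G : SimpleGraph ℕ) : gr (ind G) = G := by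
  ext a b
  simp only [gr, ind, decide_eq_true_eq]
  constructor
  · exact fun h => h.2.1
  · exact fun h => ⟨h.ne, h, h.symm⟩

section Meas

variable {Ω : Type} [MeasurableSpace Ω]

theorem meas_rtg {S : Type} [Countable S] (r : Ω → S → S → Prop)
    (hr : ∀ a b, MeasurableSet {q | r q a b}) (a b : S) :
    MeasurableSet {q | ReflTransGen (r q) a b} := by
  let it : ℕ → Ω → S → S → Prop := fun n => Nat.rec (fun _ x y => x = y)
    (fun _ p q x y => ∃ c, p q x c ∧ r q c y) n
  have h0 : ∀ q x y, it 0 q x y ↔ x = y := fun _ _ _ => Iff.rfl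
  have hs : ∀ n q x y, it (n + 1) q x y ↔ ∃ c, it n q x c ∧ r q c y := fun _ _ _ _ => Iff.rfl
  have hm : ∀ n x y, MeasurableSet {q | it n q x y} := by
    intro n
    induction n with
    | zero =>
      intro x y
      simp only [h0]
      exact MeasurableSet.const _
    | succ n ih =>
      intro x y
      simp only [hs]
      have : {q | ∃ c, it n q x c ∧ r q c y} = ⋃ c, ({q | it n q x c} ∩ {q | r q c y}) := by
        ext q
        simp
      rw [this]
      exact MeasurableSet.iUnion fun c => (ih x c).inter (hr c y)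
  have : {q | ReflTransGen (r q) a b} = ⋃ n, {q | it n q a b} := by
    ext q
    simp only [Set.mem_ofPred_eq, Set.mem_iUnion]
    constructor
    · intro h
      induction h with
      | refl => exact ⟨0, rfl⟩
      | tail _ h2 ih =>
        obtain ⟨n, hn⟩ := ih
        exact ⟨n + 1, _, hn, h2⟩
    · rintro ⟨n, hn⟩
      induction n generalizing b with
      | zero =>
        rw [h0] at hn
        rw [hn]
      | succ n ih =>
        obtain ⟨c, hc, h⟩ := hn
        exact (ih _ hc).tail h
  rw [this]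
  exact MeasurableSet.iUnion fun n => hm n a b

variable {S T : Type} [Countable S] [Countable T]

/-- measurability of the model relation -/
theorem meas_model (H : Ω → SimpleGraph T) (G : Ω → SimpleGraph S) (B : Ω → T → Set S)
    (hH : ∀ a b, MeasurableSet {q | (H q).Adj a b}) (hG : ∀ a b, MeasurableSet {q | (G q).Adj a b})
    (hB : ∀ w v, MeasurableSet {q | v ∈ B q w}) :
    MeasurableSet {q | Model (H q) Set.univ (G q) Set.univ (B q)} := by
  have hR : ∀ w a b, MeasurableSet {q | R (G q) (B q w) a b} := fun w a b =>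
    (hB w a).inter ((hB w b).inter (hG a b))
  have : {q | Model (H q) Set.univ (G q) Set.univ (B q)} =
      (⋂ w, ⋃ v, {q | v ∈ B q w}) ∩
      (⋂ w, ⋂ a, ⋂ b, ({q | a ∈ B q w}ᶜ ∪ ({q | b ∈ B q w}ᶜ ∪
        {q | ReflTransGen (R (G q) (B q w)) a b}))) ∩
      (⋂ w, ⋂ w', ⋂ v, ({q | v ∈ B q w}ᶜ ∪ ({q | v ∈ B q w'}ᶜ ∪ {_q : Ω | w = w'}))) ∩
      (⋂ w, ⋂ w', ({q | (H q).Adj w w'}ᶜ ∪ ⋃ v, ⋃ v', ({q | v ∈ B q w} ∩ ({q | v' ∈ B q w'} ∩
        {q | (G q).Adj v v'})))) := by
    ext q
    simp only [Set.mem_ofPred_eq, Set.mem_inter_iff, Set.mem_iInter, Set.mem_iUnion, Set.mem_union,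
      Set.mem_compl_iff]
    constructor
    · intro h
      refine ⟨⟨⟨fun w => h.ne w trivial, fun w a b => ?_⟩, fun w w' v => ?_⟩, fun w w' => ?_⟩
      · by_cases ha : a ∈ B q w
        · by_cases hb : b ∈ B q w
          · exact Or.inr (Or.inr (h.conn w trivial a ha b hb))
          · exact Or.inr (Or.inl hb)
        · exact Or.inl ha
      · by_cases ha : v ∈ B q w
        · by_cases hb : v ∈ B q w'
          · exact Or.inr (Or.inr (h.disj w trivial w' trivial v ha hb))
          · exact Or.inr (Or.inl hb)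
        · exact Or.inl ha
      · by_cases ha : (H q).Adj w w'
        · obtain ⟨v, hv, v', hv', h'⟩ := h.adj w trivial w' trivial ha
          exact Or.inr ⟨v, v', hv, hv', h'⟩
        · exact Or.inl ha
    · rintro ⟨⟨⟨h1, h2⟩, h3⟩, h4⟩
      refine ⟨fun w _ => h1 w, fun w _ => Set.subset_univ _, fun w _ a ha b hb => ?_,
        fun w _ w' _ v hv hv' => ?_, fun w _ w' _ hadj => ?_⟩
      · rcases h2 w a b with h | h | h
        · exact absurd ha h
        · exact absurd hb h
        · exact h
      · rcases h3 w w' v with h | h | h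
        · exact absurd hv h
        · exact absurd hv' h
        · exact h
      · rcases h4 w w' with h | ⟨v, v', hv, hv', h⟩
        · exact absurd hadj h
        · exact ⟨v, hv, v', hv', h⟩
  rw [this]
  refine MeasurableSet.inter (MeasurableSet.inter (MeasurableSet.inter ?_ ?_) ?_) ?_
  · exact MeasurableSet.iInter fun w => MeasurableSet.iUnion fun v => hB w v
  · exact MeasurableSet.iInter fun w => MeasurableSet.iInter fun a => MeasurableSet.iInter fun b =>
      (hB w a).compl.union ((hB w b).compl.union (meas_rtg _ (hR w) a b))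
  · exact MeasurableSet.iInter fun w => MeasurableSet.iInter fun w' => MeasurableSet.iInter fun v =>
      (hB w v).compl.union ((hB w' v).compl.union (MeasurableSet.const _))
  · exact MeasurableSet.iInter fun w => MeasurableSet.iInter fun w' => (hH w w').compl.union
      (MeasurableSet.iUnion fun v => MeasurableSet.iUnion fun v' =>
        (hB w v).inter ((hB w' v').inter (hG v v')))

end Meas

theorem meas_gr (a b : ℕ) : MeasurableSet {y : ℕ × ℕ → Bool | (gr y).Adj a b} := by
  have : {y : ℕ × ℕ → Bool | (gr y).Adj a b} = {_y | a ≠ b} ∩ ({y | y (a, b) = true} ∩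
      {y | y (b, a) = true}) := rfl
  rw [this]
  refine (MeasurableSet.const _).inter (MeasurableSet.inter ?_ ?_)
  · exact (measurable_pi_apply (X := fun _ : ℕ × ℕ => Bool) _) (measurableSet_singleton true)
  · exact (measurable_pi_apply (X := fun _ : ℕ × ℕ => Bool) _) (measurableSet_singleton true)

theorem analytic_up {V : Type} [Countable V] (G : SimpleGraph V) :
    AnalyticSet {y : ℕ × ℕ → Bool | Mi G (gr y)} := by
  have h1 : MeasurableSet {q : (ℕ × ℕ → Bool) × (V × ℕ → Bool) |
      Model G Set.univ (gr q.1) Set.univ (fun w => {v | q.2 (w, v) = true})} := by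
    refine meas_model (Ω := (ℕ × ℕ → Bool) × (V × ℕ → Bool)) (fun _ => G) (fun q => gr q.1)
      (fun q w => {v | q.2 (w, v) = true}) ?_ ?_ ?_
    · exact fun _ _ => MeasurableSet.const _
    · exact fun a b => measurable_fst (meas_gr a b)
    · intro w v
      exact ((measurable_pi_apply (X := fun _ => Bool) (w, v)).comp measurable_snd)
        (measurableSet_singleton true)
  have h2 := h1.analyticSet_image measurable_fst
  have h3 : {y : ℕ × ℕ → Bool | Mi G (gr y)} = Prod.fst '' {q : (ℕ × ℕ → Bool) × (V × ℕ → Bool) |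
      Model G Set.univ (gr q.1) Set.univ (fun w => {v | q.2 (w, v) = true})} := by
    ext y
    constructor
    · rintro ⟨B, hB⟩
      classical
      refine ⟨(y, fun p => decide (p.2 ∈ B p.1)), ?_, rfl⟩
      simp only [Set.mem_ofPred_eq, decide_eq_true_eq]
      exact hB
    · rintro ⟨q, hq, rfl⟩
      exact ⟨_, hq⟩
  rw [h3]
  exact h2

theorem analytic_dn {V : Type} [Countable V] (G : SimpleGraph V) :
    AnalyticSet {y : ℕ × ℕ → Bool | Mi (gr y) G} := by
  have h1 : MeasurableSet {q : (ℕ × ℕ → Bool) × (ℕ × V → Bool) |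
      Model (gr q.1) Set.univ G Set.univ (fun w => {v | q.2 (w, v) = true})} := by
    refine meas_model (Ω := (ℕ × ℕ → Bool) × (ℕ × V → Bool)) (fun q => gr q.1) (fun _ => G)
      (fun q w => {v | q.2 (w, v) = true}) ?_ ?_ ?_
    · exact fun a b => measurable_fst (meas_gr a b)
    · exact fun _ _ => MeasurableSet.const _
    · intro w v
      exact ((measurable_pi_apply (X := fun _ => Bool) (w, v)).comp measurable_snd)
        (measurableSet_singleton true)
  have h2 := h1.analyticSet_image measurable_fst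
  have h3 : {y : ℕ × ℕ → Bool | Mi (gr y) G} = Prod.fst '' {q : (ℕ × ℕ → Bool) × (ℕ × V → Bool) |
      Model (gr q.1) Set.univ G Set.univ (fun w => {v | q.2 (w, v) = true})} := by
    ext y
    constructor
    · rintro ⟨B, hB⟩
      classical
      refine ⟨(y, fun p => decide (p.2 ∈ B p.1)), ?_, rfl⟩
      simp only [Set.mem_ofPred_eq, decide_eq_true_eq]
      exact hB
    · rintro ⟨q, hq, rfl⟩
      exact ⟨_, hq⟩
  rw [h3]
  exact h2

theorem countable_Iio' {α : Ordinal.{0}} (hα : α < ω₁) : (Set.Iio α).Countable := by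
  have hc : Countable α.ToType := by
    rw [← Cardinal.mk_le_aleph0_iff, Cardinal.mk_toType]
    rw [← Cardinal.ord_aleph, Cardinal.lt_ord] at hα
    rw [← Order.lt_succ_iff, Cardinal.succ_aleph0]
    exact hα
  exact Set.countable_coe_iff.1 (Function.Injective.countable
    (f := fun x : Set.Iio α => ToType.mk x) ToType.mk.injective)

/-- the set of codes of pairs of rank at most `α` is Borel -/
theorem meas_rank (α : Ordinal.{0}) : α < ω₁ →
    MeasurableSet {q : (ℕ × ℕ → Bool) × (ℕ → Bool) | RankLE (gr q.1) α {v | q.2 v = true}} := by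
  classical
  induction α using WellFoundedLT.induction with
  | ind α ih =>
  intro hα
  have hmem : ∀ v, MeasurableSet {q : (ℕ × ℕ → Bool) × (ℕ → Bool) | q.2 v = true} := fun v =>
    ((measurable_pi_apply (X := fun _ : ℕ => Bool) v).comp measurable_snd) (measurableSet_singleton true)
  let Θ : Finset ℕ → ℕ → (ℕ × ℕ → Bool) × (ℕ → Bool) → (ℕ × ℕ → Bool) × (ℕ → Bool) := fun S v q =>
    (q.1, fun u => decide (u ∈ comp (gr q.1) ({v | q.2 v = true} \ (S : Set ℕ)) v))
  have hΘ : ∀ S v, Measurable (Θ S v) := by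
    intro S v
    refine measurable_fst.prodMk (measurable_pi_iff.2 fun u => ?_)
    refine measurable_to_bool ?_
    have : (fun q : (ℕ × ℕ → Bool) × (ℕ → Bool) =>
        decide (u ∈ comp (gr q.1) ({v | q.2 v = true} \ (S : Set ℕ)) v)) ⁻¹' {true} =
        ({q | q.2 v = true} ∩ {_q | v ∉ S}) ∩
        {q | ReflTransGen (R (gr q.1) ({v | q.2 v = true} \ (S : Set ℕ))) v u} := by
      ext q
      simp only [Set.mem_preimage, Set.mem_singleton_iff, decide_eq_true_eq, mem_comp,
        Set.mem_inter_iff, Set.mem_ofPred_eq, Set.mem_sdiff, Finset.mem_coe]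
    rw [this]
    refine ((hmem v).inter (MeasurableSet.const _)).inter (meas_rtg _ (fun a b => ?_) v u)
    exact ((hmem a).inter (MeasurableSet.const _)).inter
      (((hmem b).inter (MeasurableSet.const _)).inter (measurable_fst (meas_gr a b)))
  have key : {q : (ℕ × ℕ → Bool) × (ℕ → Bool) | RankLE (gr q.1) α {v | q.2 v = true}} =
      (⋃ F : Finset ℕ, ⋂ v, ({q | q.2 v = true}ᶜ ∪ {_q | v ∈ F})) ∪
      ⋃ S : Finset ℕ, ⋂ v, (({q | q.2 v = true}ᶜ ∪ {_q | v ∈ S}) ∪
        ⋃ β ∈ Set.Iio α, Θ S v ⁻¹' {q | RankLE (gr q.1) β {v | q.2 v = true}}) := by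
    ext q
    simp only [Set.mem_ofPred_eq, Set.mem_union, Set.mem_iUnion, Set.mem_iInter, Set.mem_compl_iff,
      Set.mem_preimage, Θ, decide_eq_true_eq, Set.mem_Iio]
    rw [rankLE_iff]
    refine or_congr ?_ ?_
    · constructor
      · intro h
        refine ⟨h.toFinset, fun v => ?_⟩
        by_cases hv : q.2 v = true
        · exact Or.inr (h.mem_toFinset.2 hv)
        · exact Or.inl hv
      · rintro ⟨F, hF⟩
        refine F.finite_toSet.subset fun v hv => ?_
        rcases hF v with h | h
        · exact absurd hv h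
        · exact h
    · constructor
      · rintro ⟨S, hS, h⟩
        refine ⟨hS.toFinset, fun v => ?_⟩
        by_cases hv : q.2 v = true
        · by_cases hvS : v ∈ S
          · exact Or.inl (Or.inr (hS.mem_toFinset.2 hvS))
          · obtain ⟨β, hβ, hr⟩ := h v ⟨hv, hvS⟩
            refine Or.inr ⟨β, hβ, ?_⟩
            rw [Set.Finite.coe_toFinset]
            exact hr
        · exact Or.inl (Or.inl hv)
      · rintro ⟨S, h⟩
        refine ⟨S, S.finite_toSet, fun v hv => ?_⟩
        rcases h v with (h | h) | ⟨β, hβ, hr⟩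
        · exact absurd hv.1 h
        · exact absurd h hv.2
        · exact ⟨β, hβ, hr⟩
  rw [key]
  refine MeasurableSet.union ?_ ?_
  · exact MeasurableSet.iUnion fun F => MeasurableSet.iInter fun v =>
      (hmem v).compl.union (MeasurableSet.const _)
  · exact MeasurableSet.iUnion fun S => MeasurableSet.iInter fun v =>
      ((hmem v).compl.union (MeasurableSet.const _)).union
        (MeasurableSet.biUnion (countable_Iio' hα) fun β hβ => hΘ S v (ih β hβ (lt_trans hβ hα)))

theorem meas_rank_univ {α : Ordinal.{0}} (hα : α < ω₁) :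
    MeasurableSet {y : ℕ × ℕ → Bool | RankLE (gr y) α Set.univ} := by
  have h1 : Measurable (fun y : ℕ × ℕ → Bool => (y, fun _ : ℕ => true)) :=
    measurable_id.prodMk measurable_const
  have h2 := h1 (meas_rank α hα)
  have h3 : {y : ℕ × ℕ → Bool | RankLE (gr y) α Set.univ} =
      (fun y : ℕ × ℕ → Bool => (y, fun _ : ℕ => true)) ⁻¹'
        {q : (ℕ × ℕ → Bool) × (ℕ → Bool) | RankLE (gr q.1) α {v | q.2 v = true}} := by
    ext y
    simp
  rw [h3]
  exact h2

/-- If the pieces of rank less than `α` are well-quasi-ordered, then every minor-closed family of rank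
at most `α` is Borel. -/
theorem borel_of_hw {α : Ordinal.{0}} (hα : α < ω₁) (hw : HW α) (C : Set (SimpleGraph ℕ))
    (hC : Family α C) : IsBorel C := by
  obtain ⟨ι, hι, V, hV, N, hN⟩ := cov_rank hα hw
  let I : Set ι := {i | ∃ H ∈ C, Mi H (N i) ∧ Mi (N i) H}
  have hdown : ∀ G ∈ C, ∀ H : SimpleGraph ℕ, Mi H G → H ∈ C := fun G hG H h =>
    hC.2.1 G hG H ((isMinor_iff _ _).2 h)
  have h1 : {y : ℕ × ℕ → Bool | gr y ∈ C} = ⋃ i : I, {y | Mi (gr y) (N i.1)} := by
    ext y
    simp only [Set.mem_ofPred_eq, Set.mem_iUnion]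
    constructor
    · intro hy
      obtain ⟨i, hi⟩ := hN ℕ inferInstance (gr y) (hC.2.2 _ hy)
      exact ⟨⟨i, gr y, hy, hi⟩, hi.1⟩
    · rintro ⟨⟨i, H, hH, _, h⟩, hi⟩
      exact hdown H hH _ (hi.trans h)
  have h2 : {y : ℕ × ℕ → Bool | gr y ∈ C}ᶜ = {y | RankLE (gr y) α Set.univ}ᶜ ∪
      ⋃ i : (Iᶜ : Set ι), ({y | Mi (gr y) (N i.1)} ∩ {y | Mi (N i.1) (gr y)}) := by
    ext y
    simp only [Set.mem_compl_iff, Set.mem_ofPred_eq, Set.mem_union, Set.mem_iUnion,
      Set.mem_inter_iff]
    constructor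
    · intro hy
      by_cases hr : RankLE (gr y) α Set.univ
      · obtain ⟨i, hi⟩ := hN ℕ inferInstance (gr y) hr
        refine Or.inr ⟨⟨i, ?_⟩, hi⟩
        rintro ⟨H, hH, _, h⟩
        exact hy (hdown H hH _ (hi.1.trans h))
      · exact Or.inl hr
    · rintro (hr | ⟨⟨i, hi⟩, h1, h2⟩) hy
      · exact hr (hC.2.2 _ hy)
      · exact hi ⟨gr y, hy, h1, h2⟩
  have h3 : AnalyticSet {y : ℕ × ℕ → Bool | gr y ∈ C} := by
    rw [h1]
    exact AnalyticSet.iUnion fun i => analytic_dn _
  have h4 : AnalyticSet {y : ℕ × ℕ → Bool | gr y ∈ C}ᶜ := by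
    rw [h2]
    rw [Set.union_eq_iUnion]
    refine AnalyticSet.iUnion fun b => ?_
    cases b with
    | true =>
      have h := (meas_rank_univ hα).compl.analyticSet_image measurable_id
      rw [Set.image_id] at h
      exact h
    | false =>
      refine AnalyticSet.iUnion fun i => ?_
      rw [Set.inter_eq_iInter]
      refine AnalyticSet.iInter fun b => ?_
      cases b with
      | true => exact analytic_dn _
      | false => exact analytic_up _
  have h5 := h3.measurableSet_of_compl h4
  have h6 : C = ind ⁻¹' {y : ℕ × ℕ → Bool | gr y ∈ C} := by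
    ext G
    simp only [Set.mem_preimage, Set.mem_ofPred_eq, gr_ind]
  rw [IsBorel, graphTop, borel_comap]
  refine ⟨_, ?_, h6.symm⟩
  have h7 : borel (ℕ × ℕ → Bool) = MeasurableSpace.pi := (BorelSpace.measurable_eq).symm
  rw [h7]
  exact h5

end Pool.Agent.Lib.MP_6ccddd_lc
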