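import Pool.Agent.Lib.MP_6ccddd_lc.Defs

/-!
# MP_6ccddd_lc: minors, rays and ranks of countable graphs
-/

set_option autoImplicit false

open Relation Ordinal

namespace Pool.Agent.Lib.MP_6ccddd_lc

variable {V W : Type}

/-- adjacency inside `Y` -/
def R (G : SimpleGraph V) (Y : Set V) (a b : V) : Prop := a ∈ Y ∧ b ∈ Y ∧ G.Adj a b

theorem R.symm {G : SimpleGraph V} {Y : Set V} {a b : V} (h : R G Y a b) : R G Y b a :=
  ⟨h.2.1, h.1, h.2.2.symm⟩

/-- `Y` is connected or empty -/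
def Conn (G : SimpleGraph V) (Y : Set V) : Prop := ∀ a ∈ Y, ∀ b ∈ Y, ReflTransGen (R G Y) a b

theorem RTG_symm {G : SimpleGraph V} {Y : Set V} {a b : V} (h : ReflTransGen (R G Y) a b) :
    ReflTransGen (R G Y) b a := by
  induction h with
  | refl => exact ReflTransGen.refl
  | tail _ h2 ih => exact ReflTransGen.head h2.symm ih

theorem RTG_mono {G : SimpleGraph V} {Y Y' : Set V} (hY : Y ⊆ Y') {a b : V}
    (h : ReflTransGen (R G Y) a b) : ReflTransGen (R G Y') a b :=
by
  induction h with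
  | refl => exact ReflTransGen.refl
  | tail _ h2 ih => exact ih.tail ⟨hY h2.1, hY h2.2.1, h2.2.2⟩

theorem RTG_mem {G : SimpleGraph V} {Y : Set V} {a b : V} (h : ReflTransGen (R G Y) a b)
    (ha : a ∈ Y) : b ∈ Y := by
  induction h with
  | refl => exact ha
  | tail _ h2 _ => exact h2.2.1

theorem reach_iff (G : SimpleGraph V) (Y : Set V) (a b : Y) :
    (G.induce Y).Reachable a b ↔ ReflTransGen (R G Y) a.1 b.1 := by
  rw [SimpleGraph.reachable_iff_reflTransGen]
  constructor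
  · intro h
    induction h with
    | refl => exact ReflTransGen.refl
    | @tail x y _ h2 ih => exact ih.tail ⟨x.2, y.2, h2⟩
  · intro h
    have : ∀ c : V, ReflTransGen (R G Y) a.1 c → ∀ hc : c ∈ Y,
        ReflTransGen (G.induce Y).Adj a ⟨c, hc⟩ := by
      intro c h
      induction h with
      | refl => intro _; exact ReflTransGen.refl
      | tail _ h2 ih =>
        intro hc
        exact (ih h2.1).tail h2.2.2
    exact this b.1 h b.2

theorem connected_iff (G : SimpleGraph V) (Y : Set V) :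
    (G.induce Y).Connected ↔ Y.Nonempty ∧ Conn G Y := by
  rw [SimpleGraph.connected_iff]
  constructor
  · rintro ⟨h1, h2⟩
    obtain ⟨y⟩ := h2
    exact ⟨⟨y.1, y.2⟩, fun a ha b hb => (reach_iff G Y ⟨a, ha⟩ ⟨b, hb⟩).1 (h1 _ _)⟩
  · rintro ⟨⟨y, hy⟩, h2⟩
    exact ⟨fun a b => (reach_iff G Y a b).2 (h2 a.1 a.2 b.1 b.2), ⟨⟨y, hy⟩⟩⟩

theorem mem_comp {G : SimpleGraph V} {Y : Set V} {v u : V} :
    u ∈ comp G Y v ↔ v ∈ Y ∧ ReflTransGen (R G Y) v u := by
  constructor
  · rintro ⟨hv, hu, h⟩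
    exact ⟨hv, (reach_iff G Y ⟨v, hv⟩ ⟨u, hu⟩).1 h⟩
  · rintro ⟨hv, h⟩
    exact ⟨hv, RTG_mem h hv, (reach_iff G Y ⟨v, hv⟩ ⟨u, RTG_mem h hv⟩).2 h⟩

theorem comp_subset (G : SimpleGraph V) (Y : Set V) (v : V) : comp G Y v ⊆ Y :=
  fun _ h => RTG_mem (mem_comp.1 h).2 (mem_comp.1 h).1

theorem self_mem_comp {G : SimpleGraph V} {Y : Set V} {v : V} (hv : v ∈ Y) : v ∈ comp G Y v :=
  mem_comp.2 ⟨hv, ReflTransGen.refl⟩

/-- a connected subset of `Y` which meets the component lies in it -/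
theorem subset_comp {G : SimpleGraph V} {Y U : Set V} {v u : V} (hU : Conn G U) (hUY : U ⊆ Y)
    (hu : u ∈ U) (huv : u ∈ comp G Y v) : U ⊆ comp G Y v := by
  intro w hw
  obtain ⟨hv, h⟩ := mem_comp.1 huv
  exact mem_comp.2 ⟨hv, h.trans (RTG_mono hUY (hU u hu w hw))⟩

theorem conn_comp (G : SimpleGraph V) (Y : Set V) (v : V) : Conn G (comp G Y v) := by
  have key : ∀ b, ReflTransGen (R G Y) v b → v ∈ Y → ReflTransGen (R G (comp G Y v)) v b := by
    intro b h hv
    induction h with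
    | refl => exact ReflTransGen.refl
    | tail h1 h2 ih =>
      exact ih.tail ⟨mem_comp.2 ⟨hv, h1⟩, mem_comp.2 ⟨hv, h1.tail h2⟩, h2.2.2⟩
  intro a ha b hb
  obtain ⟨hv, ha'⟩ := mem_comp.1 ha
  exact (RTG_symm (key a ha' hv)).trans (key b (mem_comp.1 hb).2 hv)

/-- a model of `H[Z]` in `G[X]` -/
structure Model (H : SimpleGraph W) (Z : Set W) (G : SimpleGraph V) (X : Set V) (B : W → Set V) :
    Prop where
  ne : ∀ w ∈ Z, (B w).Nonempty
  sub : ∀ w ∈ Z, B w ⊆ X
  conn : ∀ w ∈ Z, Conn G (B w)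
  disj : ∀ w ∈ Z, ∀ w' ∈ Z, ∀ v, v ∈ B w → v ∈ B w' → w = w'
  adj : ∀ w ∈ Z, ∀ w' ∈ Z, H.Adj w w' → ∃ v ∈ B w, ∃ v' ∈ B w', G.Adj v v'

theorem isMinor_iff (H : SimpleGraph W) (G : SimpleGraph V) :
    IsMinor H G ↔ ∃ B, Model H Set.univ G Set.univ B := by
  constructor
  · rintro ⟨B, h1, h2, h3⟩
    refine ⟨B, fun w _ => ((connected_iff G _).1 (h1 w)).1, fun w _ => Set.subset_univ _,
      fun w _ => ((connected_iff G _).1 (h1 w)).2, ?_, fun w _ w' _ h => h3 w w' h⟩
    intro w _ w' _ v hv hv'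
    by_contra hne
    exact Set.disjoint_left.1 (h2 w w' hne) hv hv'
  · rintro ⟨B, hB⟩
    refine ⟨B, fun w => (connected_iff G _).2 ⟨hB.ne w trivial, hB.conn w trivial⟩, ?_,
      fun w w' h => hB.adj w trivial w' trivial h⟩
    intro w w' hne
    rw [Set.disjoint_left]
    intro v hv hv'
    exact hne (hB.disj w trivial w' trivial v hv hv')

theorem Model.mono {H : SimpleGraph W} {Z Z' : Set W} {G : SimpleGraph V} {X X' : Set V}
    {B : W → Set V} (h : Model H Z G X B) (hZ : Z' ⊆ Z) (hX : ∀ w ∈ Z', B w ⊆ X') :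
    Model H Z' G X' B :=
  ⟨fun w hw => h.ne w (hZ hw), hX, fun w hw => h.conn w (hZ hw),
    fun w hw w' hw' => h.disj w (hZ hw) w' (hZ hw'), fun w hw w' hw' => h.adj w (hZ hw) w' (hZ hw')⟩

/-- the union of the branch sets of a connected set is connected -/
theorem Model.conn_union {H : SimpleGraph W} {Z : Set W} {G : SimpleGraph V} {X : Set V}
    {B : W → Set V} (h : Model H Z G X B) {D : Set W} (hD : D ⊆ Z) (hc : Conn H D) :
    Conn G (⋃ w ∈ D, B w) := by
  have hsub : ∀ w ∈ D, B w ⊆ ⋃ w ∈ D, B w := fun w hw => Set.subset_biUnion_of_mem (u := B) hw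
  have key : ∀ w w', ReflTransGen (R H D) w w' → w ∈ D → ∀ a ∈ B w, ∀ b ∈ B w',
      ReflTransGen (R G (⋃ w ∈ D, B w)) a b := by
    intro w w' hww
    induction hww with
    | refl =>
      intro hw a ha b hb
      exact RTG_mono (hsub w hw) (h.conn w (hD hw) a ha b hb)
    | @tail x y _ h2 ih =>
      intro hw a ha b hb
      obtain ⟨v, hv, v', hv', hadj⟩ := h.adj x (hD h2.1) y (hD h2.2.1) h2.2.2
      refine ((ih hw a ha v hv).tail ⟨hsub x h2.1 hv, hsub y h2.2.1 hv', hadj⟩).trans ?_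
      exact RTG_mono (hsub y h2.2.1) (h.conn y (hD h2.2.1) v' hv' b hb)
  intro a ha b hb
  simp only [Set.mem_iUnion] at ha hb
  obtain ⟨w, hw, ha⟩ := ha
  obtain ⟨w', hw', hb⟩ := hb
  exact key w w' (hc w hw w' hw') hw a ha b hb

theorem rankLE_iff (G : SimpleGraph V) (α : Ordinal.{0}) (X : Set V) :
    RankLE G α X ↔ X.Finite ∨ ∃ S : Set V, S.Finite ∧ ∀ v ∈ X \ S, ∃ β < α,
      RankLE G β (comp G (X \ S) v) := by
  rw [RankLE]
  simp only [exists_prop]

theorem RankLE.mono {G : SimpleGraph V} {α β : Ordinal.{0}} {X : Set V} (h : RankLE G α X)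
    (hαβ : α ≤ β) : RankLE G β X := by
  rw [rankLE_iff] at h ⊢
  rcases h with h | ⟨S, hS, h⟩
  · exact Or.inl h
  · refine Or.inr ⟨S, hS, fun v hv => ?_⟩
    obtain ⟨γ, hγ, h'⟩ := h v hv
    exact ⟨γ, hγ.trans_le hαβ, h'⟩

/-- The rank is monotone under minors. -/
theorem RankLE.minor {H : SimpleGraph W} {G : SimpleGraph V} (α : Ordinal.{0}) :
    ∀ (Z : Set W) (X : Set V) (B : W → Set V), Model H Z G X B → RankLE G α X → RankLE H α Z := by
  induction α using WellFoundedLT.induction with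
  | ind α ih =>
  intro Z X B hB hX
  have fin_of : ∀ (S : Set V), S.Finite → {w ∈ Z | (B w ∩ S).Nonempty}.Finite := by
    intro S hS
    have : ∀ w : {w ∈ Z | (B w ∩ S).Nonempty}, ∃ s : S, s.1 ∈ B w.1 := fun w => by
      obtain ⟨s, hs⟩ := w.2.2
      exact ⟨⟨s, hs.2⟩, hs.1⟩
    choose g hg using this
    have := hS.to_subtype
    have : Finite {w ∈ Z | (B w ∩ S).Nonempty} := by
      refine Finite.of_injective g fun w w' he => Subtype.ext ?_
      refine hB.disj w.1 w.2.1 w'.1 w'.2.1 (g w).1 (hg w) ?_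
      rw [he]
      exact hg w'
    exact Set.toFinite _
  rw [rankLE_iff] at hX ⊢
  rcases hX with hX | ⟨S, hS, hX⟩
  · left
    refine (fin_of X hX).subset fun w hw => ⟨hw, ?_⟩
    obtain ⟨v, hv⟩ := hB.ne w hw
    exact ⟨v, hv, hB.sub w hw hv⟩
  · right
    refine ⟨{w ∈ Z | (B w ∩ S).Nonempty}, fin_of S hS, ?_⟩
    intro w hw
    set Z' := Z \ {w ∈ Z | (B w ∩ S).Nonempty} with hZ'
    have hZ'sub : ∀ u ∈ Z', B u ⊆ X \ S := by
      intro u hu v hv
      refine ⟨hB.sub u hu.1 hv, fun hvS => hu.2 ⟨hu.1, v, hv, hvS⟩⟩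
    obtain ⟨v, hv⟩ := hB.ne w hw.1
    obtain ⟨β, hβ, hr⟩ := hX v (hZ'sub w hw hv)
    refine ⟨β, hβ, ih β hβ (comp H Z' w) (comp G (X \ S) v) B ?_ hr⟩
    have hB' : Model H Z' G (X \ S) B := hB.mono Set.sdiff_subset hZ'sub
    refine hB'.mono (comp_subset H Z' w) ?_
    have hconn := hB'.conn_union (comp_subset H Z' w) (conn_comp H Z' w)
    have hsub : (⋃ u ∈ comp H Z' w, B u) ⊆ X \ S :=
      Set.iUnion₂_subset fun u hu => hZ'sub u (comp_subset H Z' w hu)
    have hvU : v ∈ ⋃ u ∈ comp H Z' w, B u := by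
      simp only [Set.mem_iUnion]
      exact ⟨w, self_mem_comp hw, hv⟩
    have := subset_comp hconn hsub hvU (self_mem_comp (hZ'sub w hw hv))
    intro u hu
    exact (Set.subset_biUnion_of_mem (u := B) hu).trans this

theorem model_self (G : SimpleGraph V) {X X' : Set V} (h : X ⊆ X') :
    Model G X G X' (fun v => {v}) := by
  refine ⟨fun w _ => Set.singleton_nonempty w, fun w hw => Set.singleton_subset_iff.2 (h hw),
    fun w _ => ?_, ?_, ?_⟩
  · intro a ha b hb
    rw [Set.mem_singleton_iff] at ha hb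
    rw [ha, hb]
  · intro w _ w' _ v hv hv'
    rw [Set.mem_singleton_iff] at hv hv'
    rw [← hv, ← hv']
  · intro w _ w' _ hadj
    exact ⟨w, rfl, w', rfl, hadj⟩

theorem RankLE.subset {G : SimpleGraph V} {α : Ordinal.{0}} {X X' : Set V} (h : RankLE G α X')
    (hX : X ⊆ X') : RankLE G α X :=
  RankLE.minor α X X' _ (model_self G hX) h

theorem rankLE_of_isMinor {H : SimpleGraph W} {G : SimpleGraph V} {α : Ordinal.{0}}
    (h : IsMinor H G) (hG : RankLE G α Set.univ) : RankLE H α Set.univ := by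
  obtain ⟨B, hB⟩ := (isMinor_iff H G).1 h
  exact RankLE.minor α _ _ B hB hG

/-- a set of bounded rank contains no ray -/
theorem rayless_of_rankLE (G : SimpleGraph V) (α : Ordinal.{0}) : ∀ X : Set V, RankLE G α X →
    ∀ f : ℕ → V, Function.Injective f → (∀ n, f n ∈ X) → (∀ n, G.Adj (f n) (f (n + 1))) → False := by
  induction α using WellFoundedLT.induction with
  | ind α ih =>
  intro X hX f hf hfX hadj
  rw [rankLE_iff] at hX
  rcases hX with hX | ⟨S, hS, hX⟩
  · exact Set.infinite_range_of_injective hf (hX.subset (Set.range_subset_iff.2 hfX))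
  · have hfin : {n | f n ∈ S}.Finite := Set.Finite.preimage hf.injOn hS
    obtain ⟨N, hN⟩ := hfin.bddAbove
    have hN' : ∀ n, f (n + (N + 1)) ∈ X \ S := by
      intro n
      refine ⟨hfX _, fun h => ?_⟩
      have := hN h
      omega
    obtain ⟨β, hβ, hr⟩ := hX _ (hN' 0)
    refine ih β hβ _ hr (fun n => f (n + (N + 1))) (fun a b h => by simpa using hf h) ?_
      (fun n => by
        have := hadj (n + (N + 1))
        have e : n + (N + 1) + 1 = n + 1 + (N + 1) := by ring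
        rwa [e] at this)
    intro n
    refine mem_comp.2 ⟨hN' 0, ?_⟩
    induction n with
    | zero => exact ReflTransGen.refl
    | succ n ihn =>
      refine ihn.tail ⟨hN' n, hN' (n + 1), ?_⟩
      have := hadj (n + (N + 1))
      have e : n + (N + 1) + 1 = n + 1 + (N + 1) := by ring
      rwa [e] at this

theorem Rayless.of_rankLE {G : SimpleGraph V} {α : Ordinal.{0}} (h : RankLE G α Set.univ) :
    Rayless G := by
  rintro ⟨f, hf, hadj⟩
  exact rayless_of_rankLE G α Set.univ h f hf (fun _ => trivial) hadj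

/-- `G[X]` has countable rank -/
def Small (G : SimpleGraph V) (X : Set V) : Prop := ∃ α < ω₁, RankLE G α X

theorem Small.subset {G : SimpleGraph V} {X X' : Set V} (h : Small G X') (hX : X ⊆ X') : Small G X := by
  obtain ⟨α, hα, h⟩ := h
  exact ⟨α, hα, h.subset hX⟩

theorem Small.minor {H : SimpleGraph W} {G : SimpleGraph V} {Z : Set W} {X : Set V} {B : W → Set V}
    (hB : Model H Z G X B) (h : Small G X) : Small H Z := by
  obtain ⟨α, hα, h⟩ := h
  exact ⟨α, hα, RankLE.minor α Z X B hB h⟩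

theorem small_of_finite {G : SimpleGraph V} {X : Set V} (h : X.Finite) : Small G X :=
  ⟨0, omega_pos 1, (rankLE_iff G 0 X).2 (Or.inl h)⟩

/-- a common bound for countably many countable ordinals -/
theorem exists_bound {ι : Type} [Countable ι] (f : ι → Ordinal.{0}) (hf : ∀ i, f i < ω₁) :
    ∃ α < ω₁, ∀ i, f i < α := by
  have h1 : ∀ i, Order.succ (f i) < ω₁ := fun i => (Cardinal.isSuccLimit_omega 1).succ_lt (hf i)
  refine ⟨⨆ i, Order.succ (f i), iSup_lt_omega_one h1, fun i => ?_⟩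
  exact (Order.lt_succ (f i)).trans_le (Ordinal.le_iSup (fun i => Order.succ (f i)) i)

theorem small_of_comps [Countable V] {G : SimpleGraph V} {X : Set V} (S : Set V) (hS : S.Finite)
    (h : ∀ v ∈ X \ S, Small G (comp G (X \ S) v)) : Small G X := by
  choose! f hf1 hf2 using h
  obtain ⟨α, hα, hb⟩ := exists_bound (fun v : (X \ S : Set V) => f v.1) (fun v => hf1 v.1 v.2)
  refine ⟨α, hα, (rankLE_iff G α X).2 (Or.inr ⟨S, hS, fun v hv => ?_⟩)⟩
  exact ⟨f v, hb ⟨v, hv⟩, hf2 v hv⟩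

theorem exists_adj_of_conn {G : SimpleGraph V} {X : Set V} (hX : Conn G X) {v u : V} (hv : v ∈ X)
    (hu : u ∈ X \ {v}) : ∃ w ∈ comp G (X \ {v}) u, G.Adj v w := by
  have key : ∀ b, ReflTransGen (R G X) u b → b ∈ comp G (X \ {v}) u ∨
      ∃ w ∈ comp G (X \ {v}) u, G.Adj v w := by
    intro b hb
    induction hb with
    | refl => exact Or.inl (self_mem_comp hu)
    | @tail x y _ h2 ih =>
      rcases ih with ih | ih
      · by_cases hy : y = v
        · right
          refine ⟨x, ih, ?_⟩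
          rw [← hy]
          exact h2.2.2.symm
        · left
          have hx := comp_subset G _ _ ih
          exact mem_comp.2 ⟨hu, (mem_comp.1 ih).2.tail ⟨hx, ⟨h2.2.1, hy⟩, h2.2.2⟩⟩
      · exact Or.inr ih
  rcases key v (hX u hu.1 v hv) with h | h
  · exact absurd rfl (comp_subset G _ _ h).2
  · exact h

/-- a countable graph without ray has countable rank -/
theorem small_of_rayless [Countable V] {G : SimpleGraph V} (hG : Rayless G) : Small G Set.univ := by
  by_contra hbig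
  have h0 : ∃ v, ¬ Small G (comp G Set.univ v) := by
    by_contra h
    push Not at h
    refine hbig (small_of_comps ∅ Set.finite_empty fun v _ => ?_)
    rw [Set.sdiff_empty]
    exact h v
  obtain ⟨v₀, hv₀⟩ := h0
  have step : ∀ s : {s : Set V × V // ¬ Small G s.1 ∧ Conn G s.1 ∧ s.2 ∈ s.1},
      ∃ s' : {s : Set V × V // ¬ Small G s.1 ∧ Conn G s.1 ∧ s.2 ∈ s.1},
        s'.1.1 ⊆ s.1.1 \ {s.1.2} ∧ G.Adj s.1.2 s'.1.2 := by
    rintro ⟨⟨X, v⟩, hX, hc, hv⟩
    simp only at hX hc hv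
    have : ∃ u ∈ X \ {v}, ¬ Small G (comp G (X \ {v}) u) := by
      by_contra h
      push Not at h
      exact hX (small_of_comps {v} (Set.finite_singleton v) h)
    obtain ⟨u, hu, hbig'⟩ := this
    obtain ⟨w, hw, hadj⟩ := exists_adj_of_conn hc hv hu
    exact ⟨⟨(comp G (X \ {v}) u, w), hbig', conn_comp _ _ _, hw⟩, comp_subset _ _ _, hadj⟩
  choose nxt hn1 hn2 using step
  let s : ℕ → {s : Set V × V // ¬ Small G s.1 ∧ Conn G s.1 ∧ s.2 ∈ s.1} := fun n =>
    Nat.rec ⟨(comp G Set.univ v₀, v₀), hv₀, conn_comp _ _ _, self_mem_comp trivial⟩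
      (fun _ s => nxt s) n
  have hs : ∀ n, s (n + 1) = nxt (s n) := fun n => rfl
  have hsub : ∀ n m, n < m → (s m).1.1 ⊆ (s n).1.1 \ {(s n).1.2} := by
    intro n m hnm
    induction m, hnm using Nat.le_induction with
    | base => rw [hs]; exact hn1 (s n)
    | succ m _ ih =>
      rw [hs]
      exact ((hn1 (s m)).trans Set.sdiff_subset).trans ih
  refine hG ⟨fun n => (s n).1.2, ?_, fun n => hn2 (s n)⟩
  intro n m hnm
  simp only at hnm
  rcases lt_trichotomy n m with h | h | h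
  · exact absurd hnm.symm (hsub n m h (s m).2.2.2).2
  · exact h
  · exact absurd hnm (hsub m n h (s n).2.2.2).2

end Pool.Agent.Lib.MP_6ccddd_lc
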