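import Pool.Agent.Lib.MP_6ccddd_lc.Seq

/-!
# MP_6ccddd_lc: coding subsets of the Cantor space by minor-closed families
-/

set_option autoImplicit false

open Relation Ordinal

namespace Pool.Agent.Lib.MP_6ccddd_lc

/-! ### A set of 0-1 sequences which is not Borel -/

open Cardinal in
theorem exists_not_borel : ∃ X : Set (ℕ → Bool), ¬ @MeasurableSet (ℕ → Bool) (borel (ℕ → Bool)) X := by
  by_contra h
  push Not at h
  have h1 : borel (ℕ → Bool) = MeasurableSpace.generateFrom
      (TopologicalSpace.countableBasis (ℕ → Bool)) :=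
    (TopologicalSpace.isBasis_countableBasis (ℕ → Bool)).borel_eq_generateFrom
  have h2 : #(TopologicalSpace.countableBasis (ℕ → Bool)) ≤ 𝔠 :=
    (Cardinal.le_aleph0_iff_set_countable.2
      (TopologicalSpace.countable_countableBasis (ℕ → Bool))).trans Cardinal.aleph0_le_continuum
  have h3 := MeasurableSpace.cardinal_measurableSet_le_continuum h2
  rw [← h1] at h3
  have h4 : {t : Set (ℕ → Bool) | @MeasurableSet (ℕ → Bool) (borel (ℕ → Bool)) t} = Set.univ :=
    Set.eq_univ_of_forall h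
  rw [h4, Cardinal.mk_univ, Cardinal.mk_set] at h3
  have h5 : #(ℕ → Bool) = 𝔠 := by
    simp
  rw [h5] at h3
  exact absurd h3 (not_le.2 (Cardinal.cantor 𝔠))

/-! ### The coding -/

/-- the set `{2 i + x i}` -/
def code (x : ℕ → Bool) : Set ℕ := {n | x (n / 2) = decide (n % 2 = 1)}

/-- the element of the code in `{2 i, 2 i + 1}` -/
def el (x : ℕ → Bool) (i : ℕ) : ℕ := 2 * i + (x i).toNat

theorem el_div (x : ℕ → Bool) (i : ℕ) : el x i / 2 = i := by
  rw [el]
  have := Bool.toNat_le (x i)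
  omega

theorem el_mem (x : ℕ → Bool) (i : ℕ) : el x i ∈ code x := by
  rw [code, Set.mem_ofPred_eq, el_div, el]
  cases hx : x i with
  | false => simp
  | true => simp

theorem eq_el {x : ℕ → Bool} {n : ℕ} (hn : n ∈ code x) : n = el x (n / 2) := by
  rw [code, Set.mem_ofPred_eq] at hn
  rw [el, hn]
  by_cases h : n % 2 = 1
  · simp only [h, decide_true, Bool.toNat_true]
    omega
  · simp only [h, decide_false, Bool.toNat_false]
    omega

theorem el_le {x y : ℕ → Bool} {m : ℕ → ℕ} (h1 : ∀ i ∈ code x, m i ∈ code y ∧ m i ≤ i)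
    (h2 : Set.InjOn m (code x)) (i : ℕ) : el y i ≤ el x i := by
  have hs : ∀ p, m (el x p) / 2 ≤ p := by
    intro p
    have := (h1 _ (el_mem x p)).2
    have h3 := el_div x p
    omega
  have hinj : ∀ p q, m (el x p) / 2 = m (el x q) / 2 → p = q := by
    intro p q h
    have h3 := eq_el (h1 _ (el_mem x p)).1
    have h4 := eq_el (h1 _ (el_mem x q)).1
    rw [h, ← h4] at h3
    have h5 := h2 (el_mem x p) (el_mem x q) h3
    rw [← el_div x p, h5, el_div]
  have hid : ∀ p, m (el x p) / 2 = p := by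
    intro p
    induction p using Nat.strong_induction_on with
    | _ p ih =>
      by_contra hne
      have hlt : m (el x p) / 2 < p := lt_of_le_of_ne (hs p) hne
      exact hne (hinj _ _ (ih _ hlt))
  have h3 := eq_el (h1 _ (el_mem x i)).1
  rw [hid] at h3
  rw [← h3]
  exact (h1 _ (el_mem x i)).2

/-- the sequence `x 0, ! x 0, x 1, ! x 1, …` -/
def dbl (x : ℕ → Bool) (i : ℕ) : Bool := if i % 2 = 0 then x (i / 2) else !(x (i / 2))

theorem eq_of_el_le {x y : ℕ → Bool} (h : ∀ i, el (dbl y) i ≤ el (dbl x) i) : x = y := by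
  funext i
  have h1 := h (2 * i)
  have h2 := h (2 * i + 1)
  have e1 : 2 * i % 2 = 0 := by omega
  have e2 : (2 * i + 1) % 2 ≠ 0 := by omega
  have e3 : 2 * i / 2 = i := by omega
  have e4 : (2 * i + 1) / 2 = i := by omega
  simp only [el, dbl, e1, if_true, e3] at h1
  simp only [el, dbl, e2, if_false, e4] at h2
  cases hx : x i <;> cases hy : y i <;> simp [hx, hy] at h1 h2 ⊢

theorem continuous_dbl : Continuous dbl := by
  rw [continuous_pi_iff]
  intro i
  by_cases h : i % 2 = 0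
  · have : (fun x : ℕ → Bool => dbl x i) = fun x => x (i / 2) := by
      funext x
      simp only [dbl, h, if_true]
    rw [this]
    exact continuous_apply _
  · have : (fun x : ℕ → Bool => dbl x i) = (fun c => !c) ∘ fun x => x (i / 2) := by
      funext x
      simp only [dbl, h, if_false, Function.comp_apply]
    rw [this]
    exact continuous_of_discreteTopology.comp (continuous_apply _)

section Union

variable {T : ℕ → Type} (K : ∀ n, SimpleGraph (T n)) (e : (Σ n, T n) ↪ ℕ)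

/-- the disjoint union of the graphs `K n`, `n ∈ A`, and of isolated vertices, on the vertex set `ℕ` -/
def un (A : Set ℕ) : SimpleGraph ℕ where
  Adj x y := ∃ n ∈ A, ∃ s t, (K n).Adj s t ∧ x = e ⟨n, s⟩ ∧ y = e ⟨n, t⟩
  symm := ⟨by
    rintro x y ⟨n, hn, s, t, h, hx, hy⟩
    exact ⟨n, hn, t, s, h.symm, hy, hx⟩⟩
  loopless := ⟨by
    rintro x ⟨n, hn, s, t, h, hx, hy⟩
    have := e.injective (hx.symm.trans hy)
    rw [Sigma.mk.injEq] at this
    rw [eq_of_heq this.2] at h
    exact (K n).loopless.irrefl _ h⟩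

variable {K e}

theorem un_out {A : Set ℕ} {n : ℕ} {s : T n} {y : ℕ} (h : (un K e A).Adj (e ⟨n, s⟩) y) :
    n ∈ A ∧ ∃ t, (K n).Adj s t ∧ y = e ⟨n, t⟩ := by
  obtain ⟨m, hm, s', t, h, hx, hy⟩ := h
  have := e.injective hx
  rw [Sigma.mk.injEq] at this
  obtain ⟨rfl, h1⟩ := this
  obtain rfl := eq_of_heq h1
  exact ⟨hm, t, h, hy⟩

variable (e) in
/-- the block of index `n` -/
def blk (n : ℕ) (s : T n) : ℕ := e ⟨n, s⟩

theorem blk_eq {n m : ℕ} {s : T n} {t : T m} (h : blk e n s = blk e m t) : n = m := by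
  have := e.injective h
  rw [Sigma.mk.injEq] at this
  exact this.1

theorem blk_injective (n : ℕ) : Function.Injective (blk e n) := by
  intro a b h
  have := e.injective h
  rw [Sigma.mk.injEq] at this
  exact eq_of_heq this.2

theorem blk_adj {A : Set ℕ} {n : ℕ} {s t : T n} (h : (un K e A).Adj (blk e n s) (blk e n t)) :
    (K n).Adj s t := by
  obtain ⟨_, t', h1, h2⟩ := un_out h
  rw [blk_injective n h2]
  exact h1

theorem blk_closed {A : Set ℕ} (n : ℕ) (x y : ℕ) (h : (un K e A).Adj x y)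
    (hx : x ∈ Set.range (blk e n)) : y ∈ Set.range (blk e n) := by
  obtain ⟨s, rfl⟩ := hx
  obtain ⟨_, t, _, h2⟩ := un_out h
  exact ⟨t, h2.symm⟩

theorem rank_un (A : Set ℕ) {β : Ordinal.{0}} (h : ∀ n, RankLE (K n) β Set.univ) :
    RankLE (un K e A) (β + 1) Set.univ := by
  rw [rankLE_iff]
  refine Or.inr ⟨∅, Set.finite_empty, fun v hv => ⟨β, lt_add_one β, ?_⟩⟩
  by_cases hr : ∃ n s, v = blk e n s
  · obtain ⟨n, s, rfl⟩ := hr
    have h1 : RankLE (un K e A) β (Set.range (blk e n)) :=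
      RankLE.minor _ _ _ _ (model_comap (blk e n) (blk_injective n) fun a b => blk_adj) (h n)
    exact h1.subset (conn_closed (blk_closed n) (conn_comp _ _ _) (self_mem_comp hv) ⟨s, rfl⟩)
  · refine (rankLE_iff _ _ _).2 (Or.inl ?_)
    have h1 : comp (un K e A) (Set.univ \ ∅) v ⊆ {v} := by
      refine conn_closed ?_ (conn_comp _ _ _) (self_mem_comp hv) rfl
      rintro a b ⟨n, hn, s, t, hst, ha, hb⟩ hav
      rw [Set.mem_singleton_iff] at hav
      exact absurd ⟨n, s, hav.symm.trans ha⟩ hr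
    exact (Set.finite_singleton v).subset h1

theorem un_minor {β : Ordinal.{0}} {a b : ∀ n, T n} (hK : Suit β T K a b) {A A' : Set ℕ}
    (h : IsMinor (un K e A) (un K e A')) :
    ∃ m : ℕ → ℕ, (∀ i ∈ A, m i ∈ A' ∧ m i ≤ i) ∧ Set.InjOn m A := by
  obtain ⟨B, hB⟩ := (isMinor_iff _ _).1 h
  have key : ∀ i, ∃ m, i ∈ A → m ∈ A' ∧ Model (K i) Set.univ (K m) Set.univ
      (fun w => ⋃ v ∈ B (blk e i w), (blk e m) ⁻¹' {v}) := by
    intro i
    by_cases hi : i ∈ A
    · have h1 : Model (K i) Set.univ (un K e A') Set.univ (fun w => B (blk e i w)) :=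
        ⟨fun w _ => hB.ne _ trivial, fun w _ => Set.subset_univ _, fun w _ => hB.conn _ trivial,
          fun w _ w' _ v hv hv' => blk_injective i (hB.disj _ trivial _ trivial v hv hv'),
          fun w _ w' _ hadj => hB.adj _ trivial _ trivial ⟨i, hi, w, w', hadj, rfl, rfl⟩⟩
      obtain ⟨v, hv, v', _, m, hm, s, t, _, rfl, _⟩ := h1.adj (a i) trivial (b i) trivial (hK.adj i)
      have h2 := h1.closed (hK.conn i) (blk_closed (e := e) (K := K) (A := A') m) hv ⟨s, rfl⟩
      exact ⟨m, fun _ => ⟨hm, h2.trans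
        (model_comap (H := K m) (blk e m) (blk_injective m) fun a b => blk_adj)⟩⟩
    · exact ⟨0, fun h => absurd h hi⟩
  choose m hm using key
  refine ⟨m, fun i hi => ⟨(hm i hi).1, hK.le i (m i) ⟨_, (hm i hi).2⟩⟩, fun i hi j hj hij => ?_⟩
  by_contra hne
  have h1 := (hm i hi).2
  have h2 := (hm j hj).2
  rw [← hij] at h2
  refine hK.two i j (m i) hne ⟨_, _, h1, h2, ?_⟩
  intro w w' v hv hv'
  simp only [Set.mem_iUnion, Set.mem_preimage, Set.mem_singleton_iff] at hv hv'
  obtain ⟨u, hu, rfl⟩ := hv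
  obtain ⟨u', hu', rfl⟩ := hv'
  exact hne (blk_eq (hB.disj _ trivial _ trivial _ hu hu'))

theorem continuous_un : @Continuous (ℕ → Bool) (SimpleGraph ℕ) inferInstance graphTop
    (fun x => un K e (code x)) := by
  rw [graphTop, continuous_induced_rng, continuous_pi_iff]
  rintro ⟨u, v⟩
  by_cases h : ∃ n, ∃ s t, (K n).Adj s t ∧ u = e ⟨n, s⟩ ∧ v = e ⟨n, t⟩
  · obtain ⟨n, s, t, hst, rfl, rfl⟩ := h
    have h1 : (fun x : ℕ → Bool => (ind ∘ fun x => un K e (code x)) x (e ⟨n, s⟩, e ⟨n, t⟩)) =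
        (fun c : Bool => decide (c = decide (n % 2 = 1))) ∘ fun x => x (n / 2) := by
      funext x
      simp only [Function.comp_apply, ind]
      rw [decide_eq_decide]
      constructor
      · intro h
        exact (un_out h).1
      · intro h
        exact ⟨n, h, s, t, hst, rfl, rfl⟩
    rw [h1]
    exact continuous_of_discreteTopology.comp (continuous_apply _)
  · have h1 : (fun x : ℕ → Bool => (ind ∘ fun x => un K e (code x)) x (u, v)) =
        fun _ => false := by
      funext x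
      simp only [Function.comp_apply, ind]
      rw [decide_eq_false_iff_not]
      rintro ⟨n, _, s, t, hst⟩
      exact h ⟨n, s, t, hst⟩
    rw [h1]
    exact continuous_const

end Union

theorem IsMinor.trans' {U V W : Type} {F : SimpleGraph U} {H : SimpleGraph W} {G : SimpleGraph V}
    (h1 : IsMinor F H) (h2 : IsMinor H G) : IsMinor F G := by
  obtain ⟨A, hA⟩ := (isMinor_iff _ _).1 h1
  obtain ⟨B, hB⟩ := (isMinor_iff _ _).1 h2
  exact (isMinor_iff _ _).2 ⟨_, hA.trans hB⟩

theorem IsMinor.refl' {V : Type} (G : SimpleGraph V) : IsMinor G G :=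
  (isMinor_iff _ _).2 ⟨_, model_self G (subset_refl _)⟩

/-- The main step. -/
theorem of_bad (V : ℕ → Type) (hV : ∀ n, Countable (V n)) (G : ∀ n, SimpleGraph (V n))
    {β : Ordinal.{0}} (hG : ∀ n, RankLE (G n) β Set.univ)
    (hbad : ∀ i j, i < j → ¬ IsMinor (G i) (G j)) :
    ∃ φ : (ℕ → Bool) → SimpleGraph ℕ,
      @Continuous (ℕ → Bool) (SimpleGraph ℕ) inferInstance graphTop φ ∧
      ∀ X : Set (ℕ → Bool), ∃ C : Set (SimpleGraph ℕ), Family (β + 1) C ∧ φ ⁻¹' C = X := by
  obtain ⟨T, hT, K, a, b, hK⟩ := exists_suit V hV G hG hbad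
  obtain ⟨e, he⟩ := exists_injective_nat (Σ n, T n)
  refine ⟨(fun x => un K ⟨e, he⟩ (code x)) ∘ dbl,
    @Continuous.comp _ _ _ _ _ graphTop _ _ continuous_un continuous_dbl, fun X =>
    ⟨{G | ∃ x ∈ X, IsMinor G (un K ⟨e, he⟩ (code (dbl x)))}, ⟨?_, ?_, ?_⟩, ?_⟩⟩
  · rintro G ⟨x, _, h⟩
    exact Rayless.of_rankLE (rankLE_of_isMinor h (rank_un _ hK.rank))
  · rintro G ⟨x, hx, h⟩ H hH
    exact ⟨x, hx, hH.trans' h⟩
  · rintro G ⟨x, _, h⟩
    exact rankLE_of_isMinor h (rank_un _ hK.rank)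
  · ext x
    constructor
    · rintro ⟨y, hy, h⟩
      obtain ⟨m, hm1, hm2⟩ := un_minor hK h
      rw [eq_of_el_le fun i => el_le hm1 hm2 i]
      exact hy
    · intro hx
      exact ⟨x, hx, IsMinor.refl' _⟩

theorem not_isBorel {φ : (ℕ → Bool) → SimpleGraph ℕ}
    (hφ : @Continuous (ℕ → Bool) (SimpleGraph ℕ) inferInstance graphTop φ) {X : Set (ℕ → Bool)}
    (hX : ¬ @MeasurableSet (ℕ → Bool) (borel (ℕ → Bool)) X) {C : Set (SimpleGraph ℕ)} (hC : φ ⁻¹' C = X) :
    ¬ IsBorel C := by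
  intro h
  apply hX
  rw [← hC]
  exact (@Continuous.borel_measurable _ _ _ graphTop _ hφ) h

end Pool.Agent.Lib.MP_6ccddd_lc
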