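import Pool.Agent.Lib.MP_6ccddd_lc.Cone

/-!
# MP_6ccddd_lc: connected graphs of exact rank
-/

set_option autoImplicit false

open Relation Ordinal

namespace Pool.Agent.Lib.MP_6ccddd_lc

section Glue

variable {ι : Type} {T : ι → Type}

/-- a new vertex joined to the vertices `t i` of the disjoint graphs `G i` -/
def glue (G : ∀ i, SimpleGraph (T i)) (t : ∀ i, T i) : SimpleGraph (Option (Σ i, T i)) where
  Adj x y := (∃ i, x = none ∧ y = some ⟨i, t i⟩) ∨ (∃ i, y = none ∧ x = some ⟨i, t i⟩) ∨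
    ∃ i a b, x = some ⟨i, a⟩ ∧ y = some ⟨i, b⟩ ∧ (G i).Adj a b
  symm := ⟨by
    rintro x y (h | h | ⟨i, a, b, h1, h2, h3⟩)
    · exact Or.inr (Or.inl h)
    · exact Or.inl h
    · exact Or.inr (Or.inr ⟨i, b, a, h2, h1, h3.symm⟩)⟩
  loopless := ⟨by
    rintro x (⟨i, h1, h2⟩ | ⟨i, h1, h2⟩ | ⟨i, a, b, h1, h2, h3⟩)
    · exact Option.some_ne_none _ (h2.symm.trans h1)
    · exact Option.some_ne_none _ (h2.symm.trans h1)
    · have h := h1.symm.trans h2
      rw [Option.some.injEq, Sigma.mk.injEq] at h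
      rw [eq_of_heq h.2] at h3
      exact (G i).loopless.irrefl _ h3⟩

variable {G : ∀ i, SimpleGraph (T i)} {t : ∀ i, T i}

theorem glue_out {i : ι} {a : T i} {y : Option (Σ i, T i)} (h : (glue G t).Adj (some ⟨i, a⟩) y) :
    (∃ b, y = some ⟨i, b⟩ ∧ (G i).Adj a b) ∨ (y = none ∧ a = t i) := by
  rcases h with ⟨j, h1, _⟩ | ⟨j, h1, h2⟩ | ⟨j, a', b, h1, h2, h3⟩
  · exact absurd h1 (Option.some_ne_none _)
  · right
    rw [Option.some.injEq, Sigma.mk.injEq] at h2
    obtain ⟨rfl, h2⟩ := h2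
    exact ⟨h1, eq_of_heq h2⟩
  · left
    rw [Option.some.injEq, Sigma.mk.injEq] at h1
    obtain ⟨rfl, h1⟩ := h1
    obtain rfl := eq_of_heq h1
    exact ⟨b, h2, h3⟩

theorem glue_adj (i : ι) (a b : T i) :
    (glue G t).Adj (some ⟨i, a⟩) (some ⟨i, b⟩) ↔ (G i).Adj a b := by
  constructor
  · intro h
    rcases glue_out h with ⟨c, h1, h2⟩ | ⟨h1, _⟩
    · rw [Option.some.injEq, Sigma.mk.injEq] at h1
      rw [eq_of_heq h1.2]
      exact h2
    · exact absurd h1 (Option.some_ne_none _)
  · intro h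
    exact Or.inr (Or.inr ⟨i, a, b, rfl, rfl, h⟩)

theorem glue_root (i : ι) : (glue G t).Adj none (some ⟨i, t i⟩) := Or.inl ⟨i, rfl, rfl⟩

/-- the inclusion of a block -/
def inj (T : ι → Type) (i : ι) (a : T i) : Option (Σ i, T i) := some ⟨i, a⟩

theorem inj_injective (i : ι) : Function.Injective (inj T i) := by
  intro a b h
  rw [inj, inj, Option.some.injEq, Sigma.mk.injEq] at h
  exact eq_of_heq h.2

theorem model_block (i : ι) :
    Model (G i) Set.univ (glue G t) (Set.range (inj T i)) (fun a => {inj T i a}) :=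
  model_map (inj T i) (inj_injective i) fun a b h => (glue_adj i a b).2 h

theorem conn_block (i : ι) (h : Conn (G i) Set.univ) : Conn (glue G t) (Set.range (inj T i)) := by
  have h1 := (model_block (G := G) (t := t) i).conn_union (subset_refl _) h
  have h2 : (⋃ w ∈ (Set.univ : Set (T i)), {inj T i w}) = Set.range (inj T i) := by
    ext x
    simp only [Set.mem_univ, Set.iUnion_true, Set.mem_iUnion, Set.mem_singleton_iff, Set.mem_range,
      eq_comm]
  rw [h2] at h1
  exact h1

theorem conn_glue (h : ∀ i, Conn (G i) Set.univ) : Conn (glue G t) Set.univ := by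
  have key : ∀ x, ReflTransGen (R (glue G t) Set.univ) none x := by
    intro x
    cases x with
    | none => exact ReflTransGen.refl
    | some s =>
      obtain ⟨i, a⟩ := s
      refine ReflTransGen.head ⟨trivial, trivial, glue_root i⟩ ?_
      exact RTG_mono (Set.subset_univ _) (conn_block i (h i) (inj T i (t i)) ⟨_, rfl⟩
        (inj T i a) ⟨_, rfl⟩)
  intro a _ b _
  exact (RTG_symm (key a)).trans (key b)

end Glue

/-- a connected graph of exact rank `γ` -/
structure Exact {V : Type} (γ : Ordinal.{0}) (G : SimpleGraph V) : Prop where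
  conn : Conn G Set.univ
  rank : RankLE G γ Set.univ
  low : ∀ δ < γ, ¬ RankLE G δ Set.univ

theorem countable_toType {γ : Ordinal.{0}} (h : γ < ω₁) : Countable γ.ToType := by
  rw [← Cardinal.mk_le_aleph0_iff, Cardinal.mk_toType]
  rw [← Cardinal.ord_aleph, Cardinal.lt_ord] at h
  rw [← Order.lt_succ_iff, Cardinal.succ_aleph0]
  exact h

/-- every countable ordinal is the rank of a countable connected graph -/
theorem exists_exact (γ : Ordinal.{0}) : γ < ω₁ →
    ∃ (V : Type) (_ : Countable V) (G : SimpleGraph V) (_ : V), Exact γ G := by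
  induction γ using WellFoundedLT.induction with
  | ind γ ih =>
  intro hγ
  have hc := countable_toType hγ
  have h1 : ∀ i : γ.ToType, (ToType.toOrd i).1 < γ := fun i => (ToType.toOrd i).2
  have h2 := fun i : ℕ × γ.ToType => ih (ToType.toOrd i.2).1 (h1 i.2) ((h1 i.2).trans hγ)
  choose V hV G t hG using h2
  refine ⟨Option (Σ i, V i), inferInstance, glue G t, none, ?_, ?_, ?_⟩
  · exact conn_glue fun i => (hG i).conn
  · rw [rankLE_iff]
    refine Or.inr ⟨{none}, Set.finite_singleton _, fun v hv => ?_⟩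
    cases v with
    | none => exact absurd rfl hv.2
    | some s =>
      obtain ⟨i, a⟩ := s
      refine ⟨(ToType.toOrd i.2).1, h1 i.2, ?_⟩
      have h3 : RankLE (glue G t) (ToType.toOrd i.2).1 (Set.range (inj V i)) :=
        RankLE.minor _ _ _ _ (model_comap (inj V i) (inj_injective i) fun a b =>
          (glue_adj i a b).1) (hG i).rank
      refine h3.subset fun u hu => ?_
      have := (mem_comp.1 hu).2
      clear hu
      induction this with
      | refl => exact ⟨a, rfl⟩
      | @tail x y _ h2 ih =>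
        obtain ⟨b, rfl⟩ := ih
        rcases glue_out h2.2.2 with ⟨c, hc, _⟩ | ⟨hc, _⟩
        · exact ⟨c, hc.symm⟩
        · exact absurd hc h2.2.1.2
  · intro δ hδ
    have hi : (ToType.toOrd (ToType.mk ⟨δ, hδ⟩)).1 = δ := by
      rw [ToType.toOrd, OrderIso.symm_apply_apply]
    rw [rankLE_iff]
    rintro (h | ⟨S, hS, h⟩)
    · have hinf : Function.Injective (fun n : ℕ => (some ⟨(n, ToType.mk ⟨δ, hδ⟩), t _⟩ :
          Option (Σ i, V i))) := by
        intro a b hab
        have := Option.some.inj hab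
        rw [Sigma.mk.injEq] at this
        exact (Prod.mk.inj this.1).1
      exact Set.infinite_range_of_injective hinf (h.subset (Set.subset_univ _))
    · have hn : ∃ n : ℕ, ∀ a, (some ⟨(n, ToType.mk ⟨δ, hδ⟩), a⟩ : Option (Σ i, V i)) ∉ S := by
        obtain ⟨n, hn⟩ := (hS.image (fun x : Option (Σ i, V i) =>
          match x with
          | none => 0
          | some s => s.1.1)).exists_notMem
        exact ⟨n, fun a ha => hn ⟨_, ha, rfl⟩⟩
      obtain ⟨n, hn⟩ := hn
      obtain ⟨β, hβ, hr⟩ := h (some ⟨(n, ToType.mk ⟨δ, hδ⟩), t _⟩) ⟨trivial, hn _⟩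
      have hb := (hG (n, ToType.mk ⟨δ, hδ⟩)).low β (by
        show β < (ToType.toOrd (ToType.mk ⟨δ, hδ⟩)).1
        rw [hi]
        exact hβ)
      refine hb (RankLE.minor β _ _ _ (model_block (n, ToType.mk ⟨δ, hδ⟩)) (hr.subset ?_))
      refine subset_comp (conn_block _ (hG _).conn) ?_ ⟨t _, rfl⟩ (self_mem_comp ⟨trivial, hn _⟩)
      rintro _ ⟨a, rfl⟩
      exact ⟨trivial, hn a⟩

/-- a cofinal sequence of ordinals below a countable ordinal -/
theorem exists_cofinal {α : Ordinal.{0}} (hα : α < ω₁) (h0 : 0 < α) :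
    ∃ γ : ℕ → Ordinal.{0}, (∀ i, γ i < α) ∧ ∀ β < α, ∃ i₀, ∀ i, i₀ ≤ i → β ≤ γ i := by
  have hc := countable_toType hα
  have hne : Nonempty α.ToType := ⟨ToType.mk ⟨0, h0⟩⟩
  obtain ⟨s, hs⟩ := exists_surjective_nat α.ToType
  let γ : ℕ → Ordinal.{0} := fun n => Nat.rec (ToType.toOrd (s 0)).1
    (fun n p => max p (ToType.toOrd (s (n + 1))).1) n
  have hγ0 : γ 0 = (ToType.toOrd (s 0)).1 := rfl
  have hγs : ∀ n, γ (n + 1) = max (γ n) (ToType.toOrd (s (n + 1))).1 := fun n => rfl
  have hmono : Monotone γ := monotone_nat_of_le_succ fun n => by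
    rw [hγs]
    exact le_max_left _ _
  have hle : ∀ n, (ToType.toOrd (s n)).1 ≤ γ n := by
    intro n
    cases n with
    | zero => rw [hγ0]
    | succ n =>
      rw [hγs]
      exact le_max_right _ _
  refine ⟨γ, fun n => ?_, fun β hβ => ?_⟩
  · induction n with
    | zero =>
      rw [hγ0]
      exact (ToType.toOrd (s 0)).2
    | succ n ih =>
      rw [hγs]
      exact max_lt ih (ToType.toOrd _).2
  · obtain ⟨i₀, hi₀⟩ := hs (ToType.mk ⟨β, hβ⟩)
    refine ⟨i₀, fun i hi => ?_⟩
    have h1 := (hle i₀).trans (hmono hi)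
    rw [hi₀] at h1
    have h2 : (ToType.toOrd (ToType.mk ⟨β, hβ⟩)).1 = β := by
      rw [ToType.toOrd, OrderIso.symm_apply_apply]
    rw [h2] at h1
    exact h1

end Pool.Agent.Lib.MP_6ccddd_lc
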