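import Pool.Agent.Lib.MP_6ccddd_lc.RGlue
import Pool.Agent.Lib.MP_6ccddd_lc.Tree
import Pool.Agent.Lib.MP_6ccddd_lc.Code

/-!
# MP_6ccddd_lc: models between glued graphs
-/

set_option autoImplicit false

open Relation Ordinal

namespace Pool.Agent.Lib.MP_6ccddd_lc

variable {K : Type}

section Block

variable {ι : Type} {T : ι → Type} {P : ∀ i, SimpleGraph (K ⊕ T i)} {act act' : ι → Prop}

theorem state_root {Y : Set (K ⊕ (Σ i, T i))} {s : K} (hs : ∀ l, Sum.inl l ∈ Y → l = s) {m : ι}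
    {b : K ⊕ T m} {y : K ⊕ (Σ i, T i)}
    (h : ReflTransGen (R (rga P act') Y) (em m b) y) :
    (∃ b', y = em m b' ∧ ReflTransGen (R (P m) {b | em m b ∈ Y}) b b') ∨
      ReflTransGen (R (P m) {b | em m b ∈ Y}) b (Sum.inl s) := by
  induction h with
  | refl => exact Or.inl ⟨b, rfl, ReflTransGen.refl⟩
  | @tail x y _ h2 ih =>
    rcases ih with ⟨b', rfl, ih⟩ | ih
    · cases b' with
      | inl l =>
        have := hs l h2.1
        subst this
        exact Or.inr ih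
      | inr t =>
        obtain ⟨_, q, hq, rfl⟩ := rga_out h2.2.2
        exact Or.inl ⟨q, rfl, ih.tail ⟨h2.1, h2.2.1, hq⟩⟩
    · exact Or.inr ih

theorem conn_root {Y : Set (K ⊕ (Σ i, T i))} (hY : Conn (rga P act') Y) {s : K}
    (hs : ∀ l, Sum.inl l ∈ Y → l = s) (hs' : Sum.inl s ∈ Y) (m : ι) :
    Conn (P m) {b | em m b ∈ Y} := by
  have key : ∀ b, em m b ∈ Y → ReflTransGen (R (P m) {b | em m b ∈ Y}) b (Sum.inl s) := by
    intro b hb
    rcases state_root hs (hY _ hb _ hs') with ⟨b', h1, h2⟩ | h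
    · rw [em_eq_inl h1] at h2
      exact h2
    · exact h
  intro a ha b hb
  exact (key a ha).trans (RTG_symm (key b hb))

theorem conn_nonroot {Y : Set (K ⊕ (Σ i, T i))} (hY : Conn (rga P act') Y)
    (hs : ∀ l, Sum.inl l ∉ Y) (m : ι) : Conn (P m) {b | em m b ∈ Y} := by
  have key : ∀ (b : K ⊕ T m) (y : K ⊕ (Σ i, T i)), em m b ∈ Y →
      ReflTransGen (R (rga P act') Y) (em m b) y →
      ∃ b', y = em m b' ∧ ReflTransGen (R (P m) {b | em m b ∈ Y}) b b' := by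
    intro b y hb h
    induction h with
    | refl => exact ⟨b, rfl, ReflTransGen.refl⟩
    | @tail x y _ h2 ih =>
      obtain ⟨b', rfl, ih⟩ := ih
      cases b' with
      | inl l => exact absurd h2.1 (hs l)
      | inr t =>
        obtain ⟨_, q, hq, rfl⟩ := rga_out h2.2.2
        exact ⟨q, rfl, ih.tail ⟨h2.1, h2.2.1, hq⟩⟩
  intro a ha b hb
  obtain ⟨b', h1, h2⟩ := key a _ ha (hY _ ha _ hb)
  rw [em_inj m h1]
  exact h2

theorem block_model (hind : ∀ i a b, ¬ (P i).Adj (Sum.inl a) (Sum.inl b)) {σ : K → K}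
    {B : K ⊕ (Σ i, T i) → Set (K ⊕ (Σ i, T i))}
    (hB : Model (rga P act) Set.univ (rga P act') Set.univ B)
    (hσ : ∀ r, Sum.inl (σ r) ∈ B (Sum.inl r))
    (hr : ∀ w l, Sum.inl l ∈ B w → ∃ r, w = Sum.inl r ∧ σ r = l) {i : ι} (hi : act i)
    (hne : Nonempty (T i)) (hc : Conn (P i) (Set.range Sum.inr)) :
    ∃ m, (∀ t : T i, B (Sum.inr ⟨i, t⟩) ⊆ bk m) ∧
      Model (P i) Set.univ (P m) Set.univ (fun a => {b | em m b ∈ B (em i a)}) ∧
      ∀ (t : T i) (q : K ⊕ T i), (P i).Adj (Sum.inr t) q → act' m := by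
  -- the union of the branch sets of the block
  have h1 : Conn (rga P act') (⋃ x ∈ bk i, B x) := hB.conn_union (Set.subset_univ _) (conn_bk hi hc)
  have h2 : ∀ l, Sum.inl l ∉ ⋃ x ∈ bk (K := K) (T := T) i, B x := by
    intro l hl
    simp only [Set.mem_iUnion] at hl
    obtain ⟨x, ⟨t, rfl⟩, hx⟩ := hl
    obtain ⟨r, h, _⟩ := hr _ _ hx
    exact Sum.inr_ne_inl h
  obtain ⟨t₀⟩ := hne
  obtain ⟨x, hx⟩ := hB.ne (Sum.inr ⟨i, t₀⟩) trivial
  have hxU : x ∈ ⋃ x ∈ bk (K := K) (T := T) i, B x := Set.mem_biUnion ⟨t₀, rfl⟩ hx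
  have hm : ∃ m, x ∈ bk (K := K) (T := T) m := by
    cases x with
    | inl l => exact absurd hxU (h2 l)
    | inr s => exact ⟨s.1, s.2, rfl⟩
  obtain ⟨m, hm⟩ := hm
  have h3 := sub_bk h1 h2 hxU hm
  have h4 : ∀ t : T i, B (Sum.inr ⟨i, t⟩) ⊆ bk m := fun t y hy =>
    h3 (Set.mem_biUnion (Set.mem_range_self t) hy)
  have hnr : ∀ (t : T i) l, Sum.inl l ∉ B (Sum.inr ⟨i, t⟩) := by
    intro t l hl
    obtain ⟨r, h, _⟩ := hr _ _ hl
    exact Sum.inr_ne_inl h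
  have hedge : ∀ (t : T i) (q : K ⊕ T i), (P i).Adj (Sum.inr t) q →
      act' m ∧ ∃ a ∈ {b | em m b ∈ B (em i (Sum.inr t))}, ∃ b ∈ {b | em m b ∈ B (em i q)},
        (P m).Adj a b := by
    intro t q hadj
    obtain ⟨x, hx, y, hy, h⟩ := hB.adj _ trivial _ trivial (rga_adj hi hadj)
    obtain ⟨u, rfl⟩ := h4 t hx
    obtain ⟨ha, q', hq', rfl⟩ := rga_out h
    exact ⟨ha, Sum.inr u, hx, q', hy, hq'⟩
  refine ⟨m, h4, ⟨?_, fun _ _ => Set.subset_univ _, ?_, ?_, ?_⟩, fun t q h => (hedge t q h).1⟩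
  · intro a _
    cases a with
    | inl r => exact ⟨Sum.inl (σ r), hσ r⟩
    | inr t =>
      obtain ⟨y, hy⟩ := hB.ne (Sum.inr ⟨i, t⟩) trivial
      obtain ⟨u, rfl⟩ := h4 t hy
      exact ⟨Sum.inr u, hy⟩
  · intro a _
    cases a with
    | inl r =>
      refine conn_root (hB.conn _ trivial) (s := σ r) ?_ (hσ r) m
      intro l hl
      obtain ⟨r', h, h'⟩ := hr _ _ hl
      have h5 : r = r' := Sum.inl.inj h
      rw [h5, h']
    | inr t => exact conn_nonroot (hB.conn _ trivial) (hnr t) m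
  · intro a _ a' _ b hb hb'
    exact em_inj i (hB.disj _ trivial _ trivial _ hb hb')
  · intro a _ a' _ hadj
    cases a with
    | inr t => exact (hedge t a' hadj).2
    | inl r =>
      cases a' with
      | inl r' => exact absurd hadj (hind i r r')
      | inr t =>
        obtain ⟨_, x, hx, y, hy, h⟩ := hedge t (Sum.inl r) hadj.symm
        exact ⟨y, hy, x, hx, h.symm⟩

end Block

/-! ### Gadgets -/

/-- the graph `X` with the root `j` attached to its vertex `x₀` -/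
def gd {S : Type} (j : K) (X : SimpleGraph S) (x₀ : S) : SimpleGraph (K ⊕ S) where
  Adj a b := (∃ u v, a = Sum.inr u ∧ b = Sum.inr v ∧ X.Adj u v) ∨
    (a = Sum.inl j ∧ b = Sum.inr x₀) ∨ (a = Sum.inr x₀ ∧ b = Sum.inl j)
  symm := ⟨by
    rintro a b (⟨u, v, h1, h2, h3⟩ | ⟨h1, h2⟩ | ⟨h1, h2⟩)
    · exact Or.inl ⟨v, u, h2, h1, h3.symm⟩
    · exact Or.inr (Or.inr ⟨h2, h1⟩)
    · exact Or.inr (Or.inl ⟨h2, h1⟩)⟩
  loopless := ⟨by
    rintro a (⟨u, v, h1, h2, h3⟩ | ⟨h1, h2⟩ | ⟨h1, h2⟩)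
    · rw [Sum.inr.inj (h1.symm.trans h2)] at h3
      exact X.loopless.irrefl _ h3
    · exact Sum.inl_ne_inr (h1.symm.trans h2)
    · exact Sum.inr_ne_inl (h1.symm.trans h2)⟩

section Gadget

variable {S : Type} {j : K} {X : SimpleGraph S} {x₀ : S}

theorem gd_ind (a b : K) : ¬ (gd j X x₀).Adj (Sum.inl a) (Sum.inl b) := by
  rintro (⟨u, v, h1, h2, h3⟩ | ⟨h1, h2⟩ | ⟨h1, h2⟩)
  · exact Sum.inl_ne_inr h1
  · exact Sum.inl_ne_inr h2
  · exact Sum.inl_ne_inr h1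

theorem gd_root {a : K} {q : K ⊕ S} (h : (gd j X x₀).Adj (Sum.inl a) q) : a = j := by
  rcases h with ⟨u, v, h1, h2, h3⟩ | ⟨h1, h2⟩ | ⟨h1, h2⟩
  · exact absurd h1 Sum.inl_ne_inr
  · exact Sum.inl.inj h1
  · exact absurd h1 Sum.inl_ne_inr

theorem gd_inr {u v : S} : (gd j X x₀).Adj (Sum.inr u) (Sum.inr v) ↔ X.Adj u v := by
  constructor
  · rintro (⟨u, v, h1, h2, h3⟩ | ⟨h1, h2⟩ | ⟨h1, h2⟩)
    · rw [Sum.inr.inj h1, Sum.inr.inj h2]
      exact h3
    · exact absurd h1.symm Sum.inl_ne_inr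
    · exact absurd h2.symm Sum.inl_ne_inr
  · exact fun h => Or.inl ⟨u, v, rfl, rfl, h⟩

theorem gd_conn (h : Conn X Set.univ) : Conn (gd j X x₀) (Set.range Sum.inr) := by
  rintro _ ⟨a, rfl⟩ _ ⟨b, rfl⟩
  have := h a trivial b trivial
  induction this with
  | refl => exact ReflTransGen.refl
  | tail _ h2 ih => exact ih.tail ⟨⟨_, rfl⟩, ⟨_, rfl⟩, gd_inr.2 h2.2.2⟩

theorem gd_rank {β : Ordinal.{0}} (h : RankLE X β Set.univ) :
    RankLE (gd j X x₀) β (Set.range Sum.inr) :=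
  RankLE.minor β _ _ _ (model_comap (G := gd j X x₀) Sum.inr Sum.inr_injective
    fun _ _ h => gd_inr.1 h) h

theorem gd_low {β : Ordinal.{0}} (h : RankLE (gd j X x₀) β (Set.range Sum.inr)) :
    RankLE X β Set.univ :=
  RankLE.minor β _ _ _ (model_map (G := gd j X x₀) Sum.inr Sum.inr_injective
    fun _ _ h => gd_inr.2 h) h

/-- a root which has an edge to another branch set and whose branch set lives in a gadget is the root
of the gadget -/
theorem gd_touch {Y : Set (K ⊕ S)} (hY : Conn (gd j X x₀) Y) {s : K} (hs : Sum.inl s ∈ Y)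
    {x y : K ⊕ S} (hx : x ∈ Y) (hadj : (gd j X x₀).Adj x y) : s = j := by
  rcases ReflTransGen.cases_head (hY _ hs _ hx) with h | ⟨z, hz, _⟩
  · rw [← h] at hadj
    exact gd_root hadj
  · exact gd_root hz.2.2

end Gadget

/-! ### The coding -/

/-- twisted rooted minor -/
def TR {S S' : Type} (f : K → K) (P : SimpleGraph (K ⊕ S)) (Q : SimpleGraph (K ⊕ S')) : Prop :=
  ∃ B, Model P Set.univ Q Set.univ B ∧ ∀ r, Sum.inl (f r) ∈ B (Sum.inl r)

/-- A sequence of rooted graphs suitable for the coding. -/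
structure Suit2 (α : Ordinal.{0}) (T : ℕ → Type) (P : ∀ n, SimpleGraph (K ⊕ T n)) (c₁ c₂ : K) :
    Prop where
  ne : ∀ n, Nonempty (T n)
  ind : ∀ n a b, ¬ (P n).Adj (Sum.inl a) (Sum.inl b)
  conn : ∀ n, Conn (P n) (Set.range Sum.inr)
  rank : ∀ n, ∃ β < α, RankLE (P n) β (Set.range Sum.inr)
  cne : c₁ ≠ c₂
  cone₁ : ∀ n t, (P n).Adj (Sum.inr t) (Sum.inl c₁)
  cone₂ : ∀ n t, (P n).Adj (Sum.inr t) (Sum.inl c₂)
  le : ∀ n m (f : K → K), TR f (P n) (P m) → m ≤ n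
  two : ∀ i j m, i ≠ j → ∀ (f g : K → K) B B', Model (P i) Set.univ (P m) Set.univ B →
    (∀ r, Sum.inl (f r) ∈ B (Sum.inl r)) → Model (P j) Set.univ (P m) Set.univ B' →
    (∀ r, Sum.inl (g r) ∈ B' (Sum.inl r)) → (∀ t t' x, x ∈ B (Sum.inr t) → x ∉ B' (Sum.inr t')) →
    False

section Coding

variable (T : ℕ → Type) (P : ∀ n, SimpleGraph (K ⊕ T n)) (X : ℕ → Type)
  (Q : ∀ n, SimpleGraph (X n)) (q : ∀ n, X n)

/-- the vertex types of the blocks and of the gadgets -/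
def TT : ℕ ⊕ (K × ℕ) → Type
  | Sum.inl n => T n
  | Sum.inr p => X p.2

/-- the blocks and the gadgets -/
def PP : ∀ i : ℕ ⊕ (K × ℕ), SimpleGraph (K ⊕ TT (K := K) T X i)
  | Sum.inl n => P n
  | Sum.inr p => gd p.1 (Q p.2) (q p.2)

/-- the blocks `n ∈ A` and all gadgets are present -/
def ac (A : Set ℕ) : ℕ ⊕ (K × ℕ) → Prop
  | Sum.inl n => n ∈ A
  | Sum.inr _ => True

instance [hT : ∀ n, Countable (T n)] [hX : ∀ n, Countable (X n)] (i : ℕ ⊕ (K × ℕ)) :
    Countable (TT (K := K) T X i) := by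
  cases i with
  | inl n => exact hT n
  | inr p => exact hX p.2

variable {T P X Q q}

theorem coding [Finite K] {α : Ordinal.{0}} {c₁ c₂ : K} (hS : Suit2 α T P c₁ c₂)
    {γ : ℕ → Ordinal.{0}} (hγ1 : ∀ i, γ i < α) (hγ2 : ∀ β < α, ∃ i₀, ∀ i, i₀ ≤ i → β ≤ γ i)
    (hX : ∀ i, Exact (γ i) (Q i)) {A A' : Set ℕ}
    (h : Mi (rga (PP (K := K) T P X Q q) (ac A)) (rga (PP (K := K) T P X Q q) (ac A'))) :
    ∃ m : ℕ → ℕ, (∀ i ∈ A, m i ∈ A' ∧ m i ≤ i) ∧ Set.InjOn m A := by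
  obtain ⟨B, hB⟩ := h
  have hrank : ∀ i, ∃ β < α, RankLE (PP (K := K) T P X Q q i) β (Set.range Sum.inr) := by
    intro i
    cases i with
    | inl n => exact hS.rank n
    | inr p => exact ⟨γ p.2, hγ1 _, gd_rank (hX p.2).rank⟩
  have hind : ∀ i a b, ¬ (PP (K := K) T P X Q q i).Adj (Sum.inl a) (Sum.inl b) := by
    intro i
    cases i with
    | inl n => exact hS.ind n
    | inr p => exact gd_ind
  -- the images of the roots
  have hroot : ∀ r : K, ∃ l, Sum.inl l ∈ B (Sum.inl r) := by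
    intro r
    refine root_mem (P := PP (K := K) T P X Q q) hrank hγ2 hB
      (U := fun i => bk (Sum.inr (r, i))) ?_ ?_ ?_ ?_
    · intro i
      exact conn_bk (P := PP (K := K) T P X Q q) (i := Sum.inr (r, i)) trivial
        (gd_conn (hX i).conn)
    · rintro i j x ⟨t, rfl⟩ ⟨u, hu⟩
      have h1 := Sum.inr.inj hu
      rw [Sigma.mk.injEq] at h1
      exact (Prod.mk.inj (Sum.inr.inj h1.1)).2.symm
    · intro i δ hδ h
      have h1 := RankLE.minor δ _ _ _ (model_bk (P := PP (K := K) T P X Q q)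
        (act := ac A) (i := Sum.inr (r, i)) trivial) h
      exact (hX i).low δ hδ (gd_low h1)
    · intro i
      refine ⟨Sum.inr ⟨Sum.inr (r, i), q i⟩, ⟨q i, rfl⟩, ?_⟩
      exact rga_adj (P := PP (K := K) T P X Q q) (act := ac A) (i := Sum.inr (r, i)) trivial
        (p := Sum.inl r) (q := Sum.inr (q i)) (Or.inr (Or.inl ⟨rfl, rfl⟩))
  choose σ hσ using hroot
  have hinj : Function.Injective σ := by
    intro r r' h
    refine Sum.inl.inj (hB.disj _ trivial _ trivial _ (hσ r) ?_)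
    rw [h]
    exact hσ r'
  have hsurj := Finite.injective_iff_surjective.1 hinj
  have hr : ∀ w l, Sum.inl l ∈ B w → ∃ r, w = Sum.inl r ∧ σ r = l := by
    intro w l hl
    obtain ⟨r, rfl⟩ := hsurj l
    exact ⟨r, hB.disj _ trivial _ trivial _ hl (hσ r), rfl⟩
  -- the images of the blocks
  have key : ∀ n, ∃ m, n ∈ A → m ∈ A' ∧ (∀ t : T n, B (Sum.inr ⟨Sum.inl n, t⟩) ⊆
      bk (Sum.inl m)) ∧ Model (P n) Set.univ (P m) Set.univ (fun a =>
        {b | em (T := TT (K := K) T X) (Sum.inl m) b ∈ B (em (T := TT (K := K) T X) (Sum.inl n) a)}) := by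
    intro n
    by_cases hn : n ∈ A
    · obtain ⟨m, h1, h2, h3⟩ := block_model hind hB hσ hr (i := Sum.inl n) hn (hS.ne n) (hS.conn n)
      obtain ⟨t⟩ := hS.ne n
      have h3' := h3 t _ (hS.cone₁ n t)
      cases m with
      | inl m => exact ⟨m, fun _ => ⟨h3', h1, h2⟩⟩
      | inr p =>
        exfalso
        have h5 : ∀ c, (P n).Adj (Sum.inr t) (Sum.inl c) → σ c = p.1 := by
          intro c hc
          obtain ⟨x, hx, y, hy, hadj⟩ := h2.adj _ trivial _ trivial hc.symm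
          exact gd_touch (j := p.1) (X := Q p.2) (x₀ := q p.2) (h2.conn (Sum.inl c) trivial)
            (s := σ c) (hσ c) hx hadj
        have h6 := (h5 _ (hS.cone₁ n t)).trans (h5 _ (hS.cone₂ n t)).symm
        exact hS.cne (hinj h6)
    · exact ⟨0, fun h => absurd h hn⟩
  choose m hm using key
  refine ⟨m, fun n hn => ⟨(hm n hn).1, hS.le n (m n) σ ⟨_, (hm n hn).2.2, fun r => hσ r⟩⟩, ?_⟩
  intro n hn n' hn' hnn
  by_contra hne
  have h1 := (hm n hn).2.2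
  have h2 := (hm n' hn').2.2
  rw [← hnn] at h2
  refine hS.two n n' (m n) hne σ σ _ _ h1 (fun r => hσ r) h2 (fun r => hσ r) ?_
  intro t t' x hx hx'
  have h3 := hB.disj _ trivial _ trivial _ hx hx'
  have h4 := congrArg Sigma.fst (Sum.inr.inj h3)
  exact hne (Sum.inl.inj h4)

end Coding

end Pool.Agent.Lib.MP_6ccddd_lc
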