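import Pool.Agent.Lib.MP_6ccddd_lc.Base

/-!
# MP_6ccddd_lc: composition of models, cones, disjoint unions
-/

set_option autoImplicit false

open Relation Ordinal

namespace Pool.Agent.Lib.MP_6ccddd_lc

variable {U V W : Type}

theorem Model.trans {K : SimpleGraph U} {Q : Set U} {H : SimpleGraph W} {Z : Set W}
    {G : SimpleGraph V} {X : Set V} {A : U → Set W} {B : W → Set V} (hA : Model K Q H Z A)
    (hB : Model H Z G X B) : Model K Q G X (fun k => ⋃ w ∈ A k, B w) := by
  refine ⟨?_, ?_, ?_, ?_, ?_⟩
  · intro k hk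
    obtain ⟨w, hw⟩ := hA.ne k hk
    obtain ⟨v, hv⟩ := hB.ne w (hA.sub k hk hw)
    exact ⟨v, Set.mem_biUnion hw hv⟩
  · intro k hk
    exact Set.iUnion₂_subset fun w hw => hB.sub w (hA.sub k hk hw)
  · intro k hk
    exact hB.conn_union (hA.sub k hk) (hA.conn k hk)
  · intro k hk k' hk' v hv hv'
    simp only [Set.mem_iUnion] at hv hv'
    obtain ⟨w, hw, hv⟩ := hv
    obtain ⟨w', hw', hv'⟩ := hv'
    have := hB.disj w (hA.sub k hk hw) w' (hA.sub k' hk' hw') v hv hv'
    subst this
    exact hA.disj k hk k' hk' w hw hw'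
  · intro k hk k' hk' hadj
    obtain ⟨w, hw, w', hw', hadj'⟩ := hA.adj k hk k' hk' hadj
    obtain ⟨v, hv, v', hv', h⟩ := hB.adj w (hA.sub k hk hw) w' (hA.sub k' hk' hw') hadj'
    exact ⟨v, Set.mem_biUnion hw hv, v', Set.mem_biUnion hw' hv', h⟩

theorem conn_singleton (G : SimpleGraph V) (v : V) : Conn G {v} := by
  intro a ha b hb
  rw [Set.mem_singleton_iff] at ha hb
  rw [ha, hb]

theorem conn_of_subsingleton (G : SimpleGraph V) {Y : Set V} (h : Y.Subsingleton) : Conn G Y := by
  intro a ha b hb
  rw [h ha hb]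

theorem model_map {H : SimpleGraph W} {G : SimpleGraph V} (e : W → V) (he : Function.Injective e)
    (h : ∀ a b, H.Adj a b → G.Adj (e a) (e b)) :
    Model H Set.univ G (Set.range e) (fun a => {e a}) := by
  refine ⟨fun w _ => Set.singleton_nonempty _, fun w _ => Set.singleton_subset_iff.2 ⟨w, rfl⟩,
    fun w _ => conn_singleton G _, ?_, fun w _ w' _ hadj => ⟨e w, rfl, e w', rfl, h w w' hadj⟩⟩
  intro w _ w' _ v hv hv'
  rw [Set.mem_singleton_iff] at hv hv'
  exact he (hv.symm.trans hv')

theorem model_comap {H : SimpleGraph W} {G : SimpleGraph V} (e : W → V) (he : Function.Injective e)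
    (h : ∀ a b, G.Adj (e a) (e b) → H.Adj a b) :
    Model G (Set.range e) H Set.univ (fun v => e ⁻¹' {v}) := by
  refine ⟨?_, fun w _ => Set.subset_univ _, fun w _ => conn_of_subsingleton _ ?_, ?_, ?_⟩
  · rintro _ ⟨w, rfl⟩
    exact ⟨w, rfl⟩
  · intro a ha b hb
    exact he (ha.trans hb.symm)
  · intro w _ w' _ v hv hv'
    exact hv.symm.trans hv'
  · rintro _ ⟨w, rfl⟩ _ ⟨w', rfl⟩ hadj
    exact ⟨w, rfl, w', rfl, h w w' hadj⟩

/-- a connected set which meets a closed set lies in it -/
theorem conn_closed {G : SimpleGraph V} {P Y : Set V} (hP : ∀ a b, G.Adj a b → a ∈ P → b ∈ P)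
    (hY : Conn G Y) {a : V} (ha : a ∈ Y) (haP : a ∈ P) : Y ⊆ P := by
  intro b hb
  have := hY a ha b hb
  clear hb
  induction this with
  | refl => exact haP
  | tail _ h2 ih => exact hP _ _ h2.2.2 ih

/-- the branch sets of a connected graph lie in a closed set if one of them meets it -/
theorem Model.closed {H : SimpleGraph W} {G : SimpleGraph V} {X : Set V} {B : W → Set V}
    (hB : Model H Set.univ G X B) (hH : Conn H Set.univ) {P : Set V}
    (hP : ∀ a b, G.Adj a b → a ∈ P → b ∈ P) {w : W} {a : V} (ha : a ∈ B w) (haP : a ∈ P) :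
    Model H Set.univ G P B := by
  refine hB.mono (subset_refl _) fun u _ => ?_
  have h := hB.conn_union (subset_refl _) hH
  have h2 := conn_closed hP h (Set.mem_biUnion (Set.mem_univ w) ha) haP
  exact (Set.subset_biUnion_of_mem (u := B) (Set.mem_univ u)).trans h2

/-! ### Cones -/

/-- `G` with an additional vertex adjacent to all vertices -/
def cone (G : SimpleGraph V) : SimpleGraph (Option V) where
  Adj x y := (x = none ∧ y ≠ none) ∨ (y = none ∧ x ≠ none) ∨
    ∃ a b, x = some a ∧ y = some b ∧ G.Adj a b
  symm := ⟨by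
    rintro x y (h | h | ⟨a, b, h1, h2, h3⟩)
    · exact Or.inr (Or.inl h)
    · exact Or.inl h
    · exact Or.inr (Or.inr ⟨b, a, h2, h1, h3.symm⟩)⟩
  loopless := ⟨by
    rintro x (⟨h1, h2⟩ | ⟨h1, h2⟩ | ⟨a, b, h1, h2, h3⟩)
    · exact h2 h1
    · exact h2 h1
    · rw [h1, Option.some.injEq] at h2
      subst h2
      exact G.loopless.irrefl _ h3⟩

theorem cone_adj_none (G : SimpleGraph V) (a : V) : (cone G).Adj none (some a) :=
  Or.inl ⟨rfl, Option.some_ne_none a⟩

theorem cone_adj_some (G : SimpleGraph V) (a b : V) : (cone G).Adj (some a) (some b) ↔ G.Adj a b := by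
  constructor
  · rintro (⟨h1, _⟩ | ⟨h1, _⟩ | ⟨a', b', h1, h2, h3⟩)
    · exact absurd h1 (Option.some_ne_none a)
    · exact absurd h1 (Option.some_ne_none b)
    · rw [Option.some.injEq] at h1 h2
      rw [h1, h2]
      exact h3
  · intro h
    exact Or.inr (Or.inr ⟨a, b, rfl, rfl, h⟩)

theorem conn_cone (G : SimpleGraph V) : Conn (cone G) Set.univ := by
  have h : ∀ x, ReflTransGen (R (cone G) Set.univ) none x := by
    intro x
    cases x with
    | none => exact ReflTransGen.refl
    | some a => exact ReflTransGen.single ⟨trivial, trivial, cone_adj_none G a⟩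
  intro a _ b _
  exact (RTG_symm (h a)).trans (h b)

theorem cone_cancel {H : SimpleGraph W} {G : SimpleGraph V}
    (h : ∃ B, Model (cone H) Set.univ (cone G) Set.univ B) : ∃ B, Model H Set.univ G Set.univ B := by
  obtain ⟨B, hB⟩ := h
  have hr : ∀ Y : Set (Option V), none ∉ Y → Y ⊆ Set.range some := by
    intro Y hY x hx
    cases x with
    | none => exact absurd hx hY
    | some a => exact ⟨a, rfl⟩
  have hfin : ∃ A : W → Set (Option V), Model H Set.univ (cone G) (Set.range some) A := by
    classical
    by_cases h : ∃ w₀, none ∈ B (some w₀)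
    · obtain ⟨w₀, hw₀⟩ := h
      have hnn : none ∉ B none := fun h =>
        absurd (hB.disj _ trivial _ trivial _ h hw₀) (Option.some_ne_none w₀).symm
      have hns : ∀ w, w ≠ w₀ → none ∉ B (some w) := fun w hw h => by
        have := hB.disj _ trivial _ trivial _ h hw₀
        rw [Option.some.injEq] at this
        exact hw this
      set c : W → Option W := fun w => if w = w₀ then none else some w with hc
      have hcinj : ∀ w w', c w = c w' → w = w' := by
        intro w w' h
        simp only [hc] at h
        split_ifs at h with h1 h2 h2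
        · rw [h1, h2]
        · exact Option.some.inj h
      refine ⟨fun w => B (c w), ?_, ?_, ?_, ?_, ?_⟩
      · exact fun w _ => hB.ne _ trivial
      · intro w _
        refine hr _ ?_
        simp only [hc]
        split_ifs with h1
        · exact hnn
        · exact hns w h1
      · exact fun w _ => hB.conn _ trivial
      · exact fun w _ w' _ v hv hv' => hcinj w w' (hB.disj _ trivial _ trivial v hv hv')
      · intro w _ w' _ hadj
        refine hB.adj _ trivial _ trivial ?_
        simp only [hc]
        split_ifs with h1 h2 h2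
        · exact absurd (h1.trans h2.symm) hadj.ne
        · exact cone_adj_none H w'
        · exact (cone_adj_none H w).symm
        · exact (cone_adj_some H w w').2 hadj
    · push Not at h
      exact ⟨fun w => B (some w), fun w _ => hB.ne _ trivial, fun w _ => hr _ (h w),
        fun w _ => hB.conn _ trivial,
        fun w _ w' _ v hv hv' => Option.some.inj (hB.disj _ trivial _ trivial v hv hv'),
        fun w _ w' _ hadj => hB.adj _ trivial _ trivial ((cone_adj_some H w w').2 hadj)⟩
  obtain ⟨A, hA⟩ := hfin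
  exact ⟨_, hA.trans (model_comap some (Option.some_injective V) fun a b => (cone_adj_some G a b).1)⟩

/-- the components outside a finite set, for a model -/
theorem Model.comp_model {H : SimpleGraph W} {Z : Set W} {G : SimpleGraph V} {X : Set V}
    {B : W → Set V} (hB : Model H Z G X B) {T : Set W} {S : Set V}
    (hT : ∀ w ∈ Z \ T, ∀ v ∈ B w, v ∉ S) {w : W} (hw : w ∈ Z \ T) {v : V} (hv : v ∈ B w) :
    Model H (comp H (Z \ T) w) G (comp G (X \ S) v) B := by
  have hsub' : ∀ u ∈ Z \ T, B u ⊆ X \ S := fun u hu v hv => ⟨hB.sub u hu.1 hv, hT u hu v hv⟩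
  have hB' : Model H (Z \ T) G (X \ S) B := hB.mono Set.sdiff_subset hsub'
  refine hB'.mono (comp_subset H _ w) ?_
  have hconn := hB'.conn_union (comp_subset H _ w) (conn_comp H _ w)
  have hsub : (⋃ u ∈ comp H (Z \ T) w, B u) ⊆ X \ S :=
    Set.iUnion₂_subset fun u hu => hsub' u (comp_subset H _ w hu)
  have hvU : v ∈ ⋃ u ∈ comp H (Z \ T) w, B u := by
    simp only [Set.mem_iUnion]
    exact ⟨w, self_mem_comp hw, hv⟩
  have := subset_comp hconn hsub hvU (self_mem_comp (hsub' w hw hv))
  intro u hu
  exact (Set.subset_biUnion_of_mem (u := B) hu).trans this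

/-- the cone does not increase the rank -/
theorem rankLE_cone {G : SimpleGraph V} {β : Ordinal.{0}} (h : RankLE G β Set.univ) :
    RankLE (cone G) β Set.univ := by
  rw [rankLE_iff] at h ⊢
  rcases h with h | ⟨S, hS, h⟩
  · left
    have : Finite V := Set.finite_univ_iff.1 h
    exact Set.toFinite _
  · right
    refine ⟨insert none (some '' S), (hS.image some).insert none, ?_⟩
    rintro v ⟨-, hv⟩
    cases v with
    | none => exact absurd (Set.mem_insert _ _) hv
    | some a =>
      have ha : a ∉ S := fun h => hv (Set.mem_insert_of_mem _ ⟨a, h, rfl⟩)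
      obtain ⟨γ, hγ, hr⟩ := h a ⟨trivial, ha⟩
      refine ⟨γ, hγ, ?_⟩
      have hB := model_comap (H := G) (G := cone G) some (Option.some_injective V)
        fun a b => (cone_adj_some G a b).1
      have hset : (Set.univ : Set (Option V)) \ insert none (some '' S) =
          Set.range some \ (some '' S) := by
        ext x
        cases x with
        | none => simp
        | some b => simp
      rw [hset]
      refine RankLE.minor γ _ _ _ (hB.comp_model (S := S) ?_ (v := a) ⟨⟨a, rfl⟩, ?_⟩ rfl) hr
      · rintro _ ⟨⟨b, rfl⟩, hb⟩ c hc hcS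
        rw [Set.mem_preimage, Set.mem_singleton_iff] at hc
        rw [← hc] at hb
        exact hb ⟨c, hcS, rfl⟩
      · rintro ⟨b, hb, hba⟩
        rw [Option.some.inj hba] at hb
        exact ha hb

end Pool.Agent.Lib.MP_6ccddd_lc
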