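import Pool.Agent.Lib.MP_6ccddd_lc.Piece

/-!
# MP_6ccddd_lc: countably many classes
-/

set_option autoImplicit false

open Relation Ordinal

namespace Pool.Agent.Lib.MP_6ccddd_lc

/-! ### Combinatorial lemmas -/

theorem exists_basis {A : Type} (r : A → A → Prop)
    (hr : ∀ f : ℕ → A, ∃ i j, i < j ∧ r (f i) (f j)) (U : Set A) :
    ∃ F : Finset A, (∀ j ∈ F, j ∈ U) ∧ ∀ u ∈ U, ∃ j ∈ F, r j u := by
  by_contra h
  push Not at h
  obtain ⟨f, _, hf⟩ := exists_seq_of_forall_finset_exists (fun x => x ∈ U) (fun x y => ¬ r x y) h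
  obtain ⟨i, j, hij, h'⟩ := hr f
  exact hf i j hij h'

theorem exists_infinite {A : Type} (r : A → A → Prop) (ht : ∀ a b c, r a b → r b c → r a c)
    (hr : ∀ f : ℕ → A, ∃ i j, i < j ∧ r (f i) (f j)) (f : ℕ → A) :
    ∃ n₀, {n | r (f n₀) (f n)}.Infinite := by
  have : IsTrans A r := ⟨ht⟩
  obtain ⟨g, h | h⟩ := exists_increasing_or_nonincreasing_subseq r f
  · refine ⟨g 0, Set.infinite_of_injective_forall_mem (f := fun n => g (n + 1)) ?_ ?_⟩
    · intro a b hab
      have := g.injective hab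
      omega
    · intro n
      exact h 0 (n + 1) (Nat.succ_pos n)
  · obtain ⟨i, j, hij, h'⟩ := hr (fun n => f (g n))
    exact absurd h' (h i j hij)

theorem sdr {A C : Type} [Countable A] [Countable C] (X : A → Set C) (hX : ∀ a, (X a).Infinite) :
    ∃ g : A → C, Function.Injective g ∧ ∀ a, g a ∈ X a := by
  rcases isEmpty_or_nonempty A with hA | hA
  · exact ⟨fun a => hA.elim a, fun a => hA.elim a, fun a => hA.elim a⟩
  obtain ⟨s, hs⟩ := exists_surjective_nat A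
  obtain ⟨c, hc⟩ := exists_injective_nat C
  have h1 : ∀ n b : ℕ, ∃ y ∈ X (s n), b < c y := by
    intro n b
    by_contra h
    push Not at h
    have h2 : (c '' X (s n)).Infinite := (hX (s n)).image hc.injOn
    refine h2 ((Set.finite_Iic b).subset ?_)
    rintro _ ⟨y, hy, rfl⟩
    exact h y hy
  choose nx hn1 hn2 using h1
  let y : ℕ → C := fun n => Nat.rec (nx 0 0) (fun n p => nx (n + 1) (c p)) n
  have hy0 : ∀ n, y (n + 1) = nx (n + 1) (c (y n)) := fun n => rfl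
  have hmono : StrictMono (fun n => c (y n)) := strictMono_nat_of_lt_succ fun n => by
    rw [hy0]
    exact hn2 _ _
  have hy1 : ∀ n, y n ∈ X (s n) := by
    intro n
    cases n with
    | zero => exact hn1 0 0
    | succ n =>
      rw [hy0]
      exact hn1 _ _
  choose e he using hs
  refine ⟨fun a => y (e a), ?_, ?_⟩
  · intro a b hab
    have h2 := hmono.injective (congrArg c hab)
    rw [← he a, ← he b, h2]
  · intro a
    have := hy1 (e a)
    rw [he] at this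
    exact this

/-! ### The induction -/

/-- rooted well-quasi-order of the pieces -/
def HW (α : Ordinal.{0}) : Prop :=
  ∀ (k : ℕ) (P : ℕ → RG k), (∀ n, (P n).IsPc α) → ∃ i j, i < j ∧ (P i).le (P j)

theorem HW.mono {α β : Ordinal.{0}} (h : HW β) (hαβ : α ≤ β) : HW α :=
  fun k P hP => h k P fun n => (hP n).mono hαβ

/-- countably many classes of rooted graphs -/
def Cov (α : Ordinal.{0}) (k : ℕ) : Prop :=
  ∃ (ι : Type) (_ : Countable ι) (N : ι → RG k), ∀ P : RG k, P.InQ α → ∃ i, P.twin (N i)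

namespace RG

/-- forget the last roots -/
def forget {k : ℕ} (k' : ℕ) (P : RG (k + k')) : RG k where
  V := P.V
  cV := P.cV
  G := P.G
  r := fun j => P.r (Fin.castAdd k' j)
  inj := fun _ _ h => Fin.castAdd_injective _ _ (P.inj h)

theorem le.forget {k k' : ℕ} {P Q : RG (k + k')} (h : P.le Q) : (P.forget k').le (Q.forget k') := by
  obtain ⟨B, hB, hr⟩ := h
  exact ⟨B, hB, fun j => hr _⟩

/-- the additional roots of a piece of rank `β` -/
theorem IsPc.extend {k : ℕ} {P : RG k} {β : Ordinal.{0}} (h : RankLE P.G β P.nr) :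
    ∃ (k' : ℕ) (Q : RG (k + k')), Q.InQ β ∧ P.twin (Q.forget k') := by
  have h1 : ∃ S : Set P.V, S.Finite ∧ S ⊆ P.nr ∧ ∀ v ∈ P.nr \ S, ∃ γ < β,
      RankLE P.G γ (comp P.G (P.nr \ S) v) := by
    rw [rankLE_iff] at h
    rcases h with h | ⟨S, hS, h⟩
    · exact ⟨P.nr, h, subset_refl _, fun v hv => absurd hv.1 hv.2⟩
    · refine ⟨P.nr ∩ S, hS.subset Set.inter_subset_right, Set.inter_subset_left, ?_⟩
      rw [Set.sdiff_self_inter]
      exact h
  obtain ⟨S, hS, hSn, h1⟩ := h1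
  obtain ⟨n, s, hs, rfl⟩ := hS.fin_param
  have hinj : Function.Injective (Fin.append P.r s) := by
    rw [Fin.append_injective_iff]
    refine ⟨P.inj, hs, fun i j h => ?_⟩
    exact (hSn ⟨j, rfl⟩).2 ⟨i, h⟩
  have hrange : Set.range (Fin.append P.r s) = Set.range P.r ∪ Set.range s := by
    ext x
    constructor
    · rintro ⟨j, rfl⟩
      induction j using Fin.addCases with
      | left j => exact Or.inl ⟨j, (Fin.append_left _ _ _).symm⟩
      | right j => exact Or.inr ⟨j, (Fin.append_right _ _ _).symm⟩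
    · rintro (⟨j, rfl⟩ | ⟨j, rfl⟩)
      · exact ⟨_, Fin.append_left _ _ _⟩
      · exact ⟨_, Fin.append_right _ _ _⟩
  refine ⟨n, ⟨P.V, P.cV, P.G, Fin.append P.r s, hinj⟩, ?_, ?_⟩
  · have hnr : RG.nr ⟨P.V, P.cV, P.G, Fin.append P.r s, hinj⟩ = P.nr \ Set.range s := by
      rw [RG.nr, hrange, RG.nr, Set.sdiff_sdiff]
    intro v hv
    rw [hnr] at hv
    obtain ⟨γ, hγ, hr⟩ := h1 v hv
    refine ⟨γ, hγ, ?_⟩
    rw [hnr]
    exact hr
  · constructor
    · exact ⟨_, model_self P.G (subset_refl _), fun j => Fin.append_left _ _ _⟩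
    · exact ⟨_, model_self P.G (subset_refl _), fun j => (Fin.append_left _ _ _).symm⟩

end RG

/-- countably many classes of pieces -/
theorem exists_pieces {α : Ordinal.{0}} (hα : α < ω₁) (h : ∀ β < α, ∀ k, Cov β k) (k : ℕ) :
    ∃ (ι : Type) (_ : Countable ι) (N : ι → RG k), (∀ i, (N i).IsPc α) ∧
      ∀ P : RG k, P.IsPc α → ∃ i, P.twin (N i) := by
  have hc : Countable α.ToType := by
    rw [← Cardinal.mk_le_aleph0_iff, Cardinal.mk_toType]
    rw [← Cardinal.ord_aleph, Cardinal.lt_ord] at hα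
    rw [← Order.lt_succ_iff, Cardinal.succ_aleph0]
    exact hα
  have h1 : ∀ i : α.ToType, (ToType.toOrd i).1 < α := fun i => (ToType.toOrd i).2
  have h2 := fun (i : α.ToType) (k' : ℕ) => h _ (h1 i) (k + k')
  choose ι₀ hι₀ N₀ hN₀ using h2
  let J := Σ (i : α.ToType) (k' : ℕ), ι₀ i k'
  let cand : J → RG k := fun x => (N₀ x.1 x.2.1 x.2.2).forget x.2.1
  have hcand : ∀ P : RG k, P.IsPc α → ∃ x, P.twin (cand x) := by
    intro P hP
    obtain ⟨β, hβ, hr⟩ := hP.rank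
    obtain ⟨k', Q, hQ, hPQ⟩ := RG.IsPc.extend hr
    have hi : (ToType.toOrd (ToType.mk ⟨β, hβ⟩)).1 = β := by
      rw [ToType.toOrd, OrderIso.symm_apply_apply]
    obtain ⟨i, hi'⟩ := hN₀ (ToType.mk ⟨β, hβ⟩) k' Q (by rw [hi]; exact hQ)
    exact ⟨⟨ToType.mk ⟨β, hβ⟩, k', i⟩, hPQ.trans ⟨hi'.1.forget, hi'.2.forget⟩⟩
  let ι := {x : J // ∃ P : RG k, P.IsPc α ∧ P.twin (cand x)}
  choose N hN1 hN2 using fun x : ι => x.2
  refine ⟨ι, inferInstance, N, hN1, fun P hP => ?_⟩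
  obtain ⟨x, hx⟩ := hcand P hP
  exact ⟨⟨x, P, hP, hx⟩, hx.trans (hN2 ⟨x, P, hP, hx⟩).symm⟩

section Data

variable {k : ℕ} {ι : Type} (N : ι → RG k)

/-- the down-set with excluded elements `F` -/
def LF (F : Finset ι) : Set ι := {i | ∀ j ∈ F, ¬ (N j).le (N i)}

/-- the data of a rooted graph -/
structure HasData (P : RG k) (E : Fin k → Fin k → Prop) (F : Finset ι) (m : ℕ) (t : Fin m → ι) :
    Prop where
  root : ∀ i j, P.G.Adj (P.r i) (P.r j) ↔ E i j
  exc : ∃ x : Fin m → P.Cmp, Function.Injective x ∧ (∀ a, (P.pc (x a).1).twin (N (t a))) ∧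
    ∀ D ∉ Set.range x, ∃ i ∈ LF N F, (P.pc D.1).le (N i)
  inf : ∀ i ∈ LF N F, {D : P.Cmp | (N i).le (P.pc D.1)}.Infinite

variable {N}

theorem exists_data {α : Ordinal.{0}} (hw : HW α) (hN : ∀ i, (N i).IsPc α)
    (hcov : ∀ P : RG k, P.IsPc α → ∃ i, P.twin (N i)) {P : RG k} (hP : P.InQ α) :
    ∃ E F m t, HasData N P E F m t := by
  have hwι : ∀ f : ℕ → ι, ∃ i j, i < j ∧ (N (f i)).le (N (f j)) := fun f =>
    hw k (fun n => N (f n)) fun n => hN _
  choose τ hτ using fun D : P.Cmp => hcov (P.pc D.1) (RG.isPc_pc hP D)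
  obtain ⟨F, hF1, hF2⟩ := exists_basis (fun i j => (N i).le (N j)) hwι
    {i | ¬ {D : P.Cmp | (N i).le (P.pc D.1)}.Infinite}
  have hLF : ∀ i, i ∈ LF N F ↔ {D : P.Cmp | (N i).le (P.pc D.1)}.Infinite := by
    intro i
    constructor
    · intro hi
      by_contra h
      obtain ⟨j, hj, hji⟩ := hF2 i h
      exact hi j hj hji
    · intro hi j hj hji
      refine hF1 j hj (hi.mono fun D hD => ?_)
      exact hji.trans hD
  have hfin : {D : P.Cmp | τ D ∉ LF N F}.Finite := by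
    by_contra hinf
    have hinf : {D : P.Cmp | τ D ∉ LF N F}.Infinite := hinf
    have g := Set.Infinite.natEmbedding _ hinf
    obtain ⟨n₀, hn₀⟩ := exists_infinite (fun i j => (N i).le (N j)) (fun _ _ _ => RG.le.trans) hwι
      (fun n => τ (g n).1)
    have h1 : τ (g n₀).1 ∉ LF N F := (g n₀).2
    refine h1 ((hLF _).2 ?_)
    have h2 : Function.Injective (fun n => (g n).1) := fun a b hab =>
      g.injective (Subtype.ext hab)
    refine (hn₀.image h2.injOn).mono ?_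
    rintro _ ⟨n, hn, rfl⟩
    exact hn.trans (hτ _).2
  obtain ⟨m, x, hx, hxr⟩ := hfin.fin_param
  refine ⟨fun i j => P.G.Adj (P.r i) (P.r j), F, m, fun a => τ (x a), fun _ _ => Iff.rfl,
    ⟨x, hx, fun a => hτ _, fun D hD => ?_⟩, fun i hi => (hLF i).1 hi⟩
  rw [hxr] at hD
  exact ⟨τ D, not_not.1 hD, (hτ D).1⟩

theorem HasData.le {P Q : RG k} {E : Fin k → Fin k → Prop} {F : Finset ι} {m : ℕ} {t : Fin m → ι}
    (hP : HasData N P E F m t) (hQ : HasData N Q E F m t) : P.le Q := by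
  classical
  obtain ⟨x, hx, hxt, hxe⟩ := hP.exc
  obtain ⟨y, hy, hyt, -⟩ := hQ.exc
  choose i hi1 hi2 using fun D : {D : P.Cmp // D ∉ Set.range x} => hxe D.1 D.2
  obtain ⟨g, hg1, hg2⟩ := sdr (fun D : {D : P.Cmp // D ∉ Set.range x} =>
    {D' : Q.Cmp | (N (i D)).le (Q.pc D'.1)} \ Set.range y)
    (fun D => (hQ.inf _ (hi1 D)).sdiff (Set.finite_range y))
  refine RG.glue_le (fun i j h => (hQ.root i j).2 ((hP.root i j).1 h))
    (fun D => if h : D ∈ Set.range x then y h.choose else g ⟨D, h⟩) ?_ ?_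
  · intro D D' h
    by_cases hD : D ∈ Set.range x
    · by_cases hD' : D' ∈ Set.range x
      · simp only [hD, hD', dif_pos] at h
        rw [← hD.choose_spec, ← hD'.choose_spec, hy h]
      · simp only [hD, hD', dif_pos, dif_neg, not_false_eq_true] at h
        exact absurd ⟨_, h⟩ (hg2 ⟨D', hD'⟩).2
    · by_cases hD' : D' ∈ Set.range x
      · simp only [hD, hD', dif_pos, dif_neg, not_false_eq_true] at h
        exact absurd ⟨_, h.symm⟩ (hg2 ⟨D, hD⟩).2
      · simp only [hD, hD', dif_neg, not_false_eq_true] at h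
        exact congrArg Subtype.val (hg1 h)
  · intro D
    by_cases hD : D ∈ Set.range x
    · simp only [hD, dif_pos]
      have h1 := (hxt hD.choose).1
      rw [hD.choose_spec] at h1
      exact h1.trans (hyt _).2
    · simp only [hD, dif_neg, not_false_eq_true]
      exact (hi2 ⟨D, hD⟩).trans (hg2 ⟨D, hD⟩).1

end Data

/-- Countably many classes of rooted graphs. -/
theorem cov (α : Ordinal.{0}) : α < ω₁ → HW α → ∀ k, Cov α k := by
  induction α using WellFoundedLT.induction with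
  | ind α ih =>
  intro hα hw k
  obtain ⟨ι, hι, N, hN, hcov⟩ := exists_pieces hα
    (fun β hβ k => ih β hβ (hβ.trans hα) (hw.mono hβ.le) k) k
  let Δ := {d : (Fin k → Fin k → Prop) × Finset ι × (Σ m, Fin m → ι) //
    ∃ P : RG k, HasData N P d.1 d.2.1 d.2.2.1 d.2.2.2}
  choose M hM using fun d : Δ => d.2
  refine ⟨Δ, inferInstance, M, fun P hP => ?_⟩
  obtain ⟨E, F, m, t, hd⟩ := exists_data hw hN hcov hP
  have hd' := hM ⟨⟨E, F, m, t⟩, P, hd⟩
  exact ⟨⟨⟨E, F, m, t⟩, P, hd⟩, hd.le hd', hd'.le hd⟩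

/-- Countably many classes of graphs of rank at most `α`. -/
theorem cov_rank {α : Ordinal.{0}} (hα : α < ω₁) (hw : HW α) :
    ∃ (ι : Type) (_ : Countable ι) (V : ι → Type) (_ : ∀ i, Countable (V i))
      (N : ∀ i, SimpleGraph (V i)), ∀ (W : Type) (_ : Countable W) (G : SimpleGraph W),
        RankLE G α Set.univ → ∃ i, Mi G (N i) ∧ Mi (N i) G := by
  choose ι hι N hN using cov α hα hw
  refine ⟨Σ k, ι k, inferInstance, fun x => (N x.1 x.2).V, fun x => (N x.1 x.2).cV,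
    fun x => (N x.1 x.2).G, fun W hW G hG => ?_⟩
  have h1 : ∃ S : Set W, S.Finite ∧ ∀ v ∈ Set.univ \ S, ∃ γ < α,
      RankLE G γ (comp G (Set.univ \ S) v) := by
    rw [rankLE_iff] at hG
    rcases hG with hG | ⟨S, hS, hG⟩
    · exact ⟨Set.univ, hG, fun v hv => absurd trivial hv.2⟩
    · exact ⟨S, hS, hG⟩
  obtain ⟨S, hS, h1⟩ := h1
  obtain ⟨k, s, hs, rfl⟩ := hS.fin_param
  obtain ⟨i, hi⟩ := hN k ⟨W, hW, G, s, hs⟩ h1
  obtain ⟨⟨B, hB, _⟩, ⟨B', hB', _⟩⟩ := hi
  exact ⟨⟨k, i⟩, ⟨B, hB⟩, ⟨B', hB'⟩⟩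

end Pool.Agent.Lib.MP_6ccddd_lc
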