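import Mathlib

/-!
# MP_6ccddd_lc: definitions
-/

set_option autoImplicit false

open Ordinal

namespace Pool.Agent.Lib.MP_6ccddd_lc

/-- `H` is a minor of `G`: there are pairwise disjoint connected vertex sets `B w` of `G`, one for each
vertex `w` of `H`, such that for every edge of `H` some edge of `G` joins the two sets. -/
def IsMinor {W V : Type} (H : SimpleGraph W) (G : SimpleGraph V) : Prop :=
  ∃ B : W → Set V, (∀ w, (G.induce (B w)).Connected) ∧ (∀ w w', w ≠ w' → Disjoint (B w) (B w')) ∧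
    ∀ w w', H.Adj w w' → ∃ v ∈ B w, ∃ v' ∈ B w', G.Adj v v'

/-- `G` contains no ray. -/
def Rayless {V : Type} (G : SimpleGraph V) : Prop :=
  ¬ ∃ f : ℕ → V, Function.Injective f ∧ ∀ n, G.Adj (f n) (f (n + 1))

/-- the vertex set of the component of `v` in `G[Y]` -/
def comp {V : Type} (G : SimpleGraph V) (Y : Set V) (v : V) : Set V :=
  {u | ∃ (hv : v ∈ Y) (hu : u ∈ Y), (G.induce Y).Reachable ⟨v, hv⟩ ⟨u, hu⟩}

/-- `G[X]` has rank at most `α`: it is finite, or there is a finite set `S` such that every component of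
`G[X] - S` has rank less than `α`. -/
def RankLE {V : Type} (G : SimpleGraph V) (α : Ordinal.{0}) (X : Set V) : Prop :=
  X.Finite ∨ ∃ S : Set V, S.Finite ∧ ∀ v ∈ X \ S, ∃ β, ∃ _ : β < α, RankLE G β (comp G (X \ S) v)
termination_by α

/-- The edge-indicator function of a graph on `ℕ`. -/
noncomputable def ind (G : SimpleGraph ℕ) : ℕ × ℕ → Bool :=
  fun p => @decide (G.Adj p.1 p.2) (Classical.propDecidable _)

/-- The topology on the set of graphs on `ℕ` inherited from the product topology of
`{0,1} ^ (ℕ × ℕ)`. -/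
@[reducible] noncomputable def graphTop : TopologicalSpace (SimpleGraph ℕ) :=
  TopologicalSpace.induced ind inferInstance

/-- Borel sets of graphs on `ℕ`. -/
def IsBorel (C : Set (SimpleGraph ℕ)) : Prop :=
  @MeasurableSet (SimpleGraph ℕ) (@borel (SimpleGraph ℕ) graphTop) C

/-- `C` is a family of rayless graphs on `ℕ`, closed under minors, of rank at most `α`. -/
def Family (α : Ordinal.{0}) (C : Set (SimpleGraph ℕ)) : Prop :=
  (∀ G ∈ C, Rayless G) ∧ (∀ G ∈ C, ∀ H : SimpleGraph ℕ, IsMinor H G → H ∈ C) ∧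
    ∀ G ∈ C, RankLE G α Set.univ

/-- The countable graphs of rank at most `β` are well-quasi-ordered by the minor relation. -/
def Wqo (β : Ordinal.{0}) : Prop :=
  ∀ (V : ℕ → Type) (_ : ∀ n, Countable (V n)) (G : ∀ n, SimpleGraph (V n)),
    (∀ n, RankLE (G n) β Set.univ) → ∃ i j, i < j ∧ IsMinor (G i) (G j)

/-- The countable rayless graphs are well-quasi-ordered by the minor relation. -/
def WqoRayless : Prop :=
  ∀ (V : ℕ → Type) (_ : ∀ n, Countable (V n)) (G : ∀ n, SimpleGraph (V n)),
    (∀ n, Rayless (G n)) → ∃ i j, i < j ∧ IsMinor (G i) (G j)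

/-- Some minor-closed family of rayless graphs of rank at most `α` is not Borel. -/
def NonBorel (α : Ordinal.{0}) : Prop := ∃ C : Set (SimpleGraph ℕ), Family α C ∧ ¬ IsBorel C

/-- Every set of 0-1 sequences is the preimage, under one continuous map, of a minor-closed family of
rayless graphs of rank at most `α`. -/
def Universal (α : Ordinal.{0}) : Prop :=
  ∃ φ : (ℕ → Bool) → SimpleGraph ℕ,
    @Continuous (ℕ → Bool) (SimpleGraph ℕ) inferInstance graphTop φ ∧
      ∀ X : Set (ℕ → Bool), ∃ C : Set (SimpleGraph ℕ), Family α C ∧ φ ⁻¹' C = X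

/-- There is a continuous antichain of graphs of rank at most `α`, indexed by the 0-1 sequences. -/
def ContAntichain (α : Ordinal.{0}) : Prop :=
  ∃ φ : (ℕ → Bool) → SimpleGraph ℕ,
    @Continuous (ℕ → Bool) (SimpleGraph ℕ) inferInstance graphTop φ ∧
      (∀ x, RankLE (φ x) α Set.univ) ∧ ∀ x y, IsMinor (φ x) (φ y) → x = y

/-- Up to mutual minor relation there are only countably many graphs on `ℕ` of rank at most `α`. -/
def CountablyMany (α : Ordinal.{0}) : Prop :=
  ∃ D : Set (SimpleGraph ℕ), D.Countable ∧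
    ∀ G : SimpleGraph ℕ, RankLE G α Set.univ → ∃ H ∈ D, IsMinor G H ∧ IsMinor H G

/-- `(H, s)` is a rooted minor of `(G, t)`: there are branch sets as for minors, and the branch set of
the root `s j` contains the root `t j`. -/
def IsRootedMinor {k : ℕ} {W V : Type} (H : SimpleGraph W) (s : Fin k → W) (G : SimpleGraph V)
    (t : Fin k → V) : Prop :=
  ∃ B : W → Set V, (∀ w, (G.induce (B w)).Connected) ∧ (∀ w w', w ≠ w' → Disjoint (B w) (B w')) ∧
    (∀ w w', H.Adj w w' → ∃ v ∈ B w, ∃ v' ∈ B w', G.Adj v v') ∧ ∀ j, t j ∈ B (s j)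

/-- `G` is a graph with `k` different pairwise non-adjacent roots `r j` such that the other vertices
induce a connected graph of rank less than `α`. -/
def IsPiece {k : ℕ} {V : Type} (α : Ordinal.{0}) (G : SimpleGraph V) (r : Fin k → V) : Prop :=
  Function.Injective r ∧ (∀ i j, ¬ G.Adj (r i) (r j)) ∧ (G.induce (Set.range r)ᶜ).Connected ∧
    ∃ β < α, RankLE G β (Set.range r)ᶜ

/-- For every `k`, the countable graphs `G` with `k` roots as in `IsPiece` are well-quasi-ordered by
the rooted minor relation. -/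
def RootedWqo (α : Ordinal.{0}) : Prop :=
  ∀ (k : ℕ) (V : ℕ → Type) (_ : ∀ n, Countable (V n)) (G : ∀ n, SimpleGraph (V n))
    (r : ∀ n, Fin k → V n), (∀ n, IsPiece α (G n) (r n)) →
      ∃ i j, i < j ∧ IsRootedMinor (G i) (r i) (G j) (r j)

end Pool.Agent.Lib.MP_6ccddd_lc
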