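import Pool.Agent.Lib.MP_6ccddd_lc.RCode

/-!
# MP_6ccddd_lc: the equivalences
-/

set_option autoImplicit false

open Relation Ordinal

namespace Pool.Agent.Lib.MP_6ccddd_lc

theorem rootedWqo_iff (α : Ordinal.{0}) : RootedWqo α ↔ HW α := by
  have hle : ∀ {k : ℕ} (P Q : RG k), P.le Q ↔ IsRootedMinor P.G P.r Q.G Q.r := by
    intro k P Q
    constructor
    · rintro ⟨B, hB, hr⟩
      refine ⟨B, fun w => (connected_iff _ _).2 ⟨hB.ne w trivial, hB.conn w trivial⟩, ?_,
        fun w w' h => hB.adj w trivial w' trivial h, hr⟩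
      intro w w' hne
      rw [Set.disjoint_left]
      intro v hv hv'
      exact hne (hB.disj w trivial w' trivial v hv hv')
    · rintro ⟨B, h1, h2, h3, h4⟩
      refine ⟨B, ⟨fun w _ => ((connected_iff _ _).1 (h1 w)).1, fun w _ => Set.subset_univ _,
        fun w _ => ((connected_iff _ _).1 (h1 w)).2, ?_, fun w _ w' _ h => h3 w w' h⟩, h4⟩
      intro w _ w' _ v hv hv'
      by_contra hne
      exact Set.disjoint_left.1 (h2 w w' hne) hv hv'
  constructor
  · intro h k P hP
    obtain ⟨i, j, hij, h'⟩ := h k (fun n => (P n).V) (fun n => (P n).cV) (fun n => (P n).G)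
      (fun n => (P n).r) (fun n => by
        refine ⟨(P n).inj, (hP n).ind, ?_, ?_⟩
        · rw [Set.compl_eq_univ_sdiff]
          exact (connected_iff _ _).2 ⟨(hP n).ne, (hP n).conn⟩
        · rw [Set.compl_eq_univ_sdiff]
          exact (hP n).rank)
    exact ⟨i, j, hij, (hle _ _).2 h'⟩
  · intro h k V hV G r hP
    obtain ⟨i, j, hij, h'⟩ := h k (fun n => ⟨V n, hV n, G n, r n, (hP n).1⟩) (fun n => by
      obtain ⟨h1, h2, h3, h4⟩ := hP n
      rw [Set.compl_eq_univ_sdiff] at h3 h4
      exact ⟨h2, ((connected_iff _ _).1 h3).1, ((connected_iff _ _).1 h3).2, h4⟩)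
    exact ⟨i, j, hij, (hle _ _).1 h'⟩

theorem countablyMany_of_hw {α : Ordinal.{0}} (hα : α < ω₁) (hw : HW α) : CountablyMany α := by
  obtain ⟨ι, hι, V, hV, N, hN⟩ := cov_rank hα hw
  let J := {i : ι // ∃ G : SimpleGraph ℕ, Mi G (N i) ∧ Mi (N i) G}
  choose M hM1 hM2 using fun i : J => i.2
  refine ⟨Set.range M, Set.countable_range M, fun G hG => ?_⟩
  obtain ⟨i, h1, h2⟩ := hN ℕ inferInstance G hG
  refine ⟨M ⟨i, G, h1, h2⟩, ⟨_, rfl⟩, ?_, ?_⟩
  · exact (isMinor_iff _ _).2 (h1.trans (hM2 ⟨i, G, h1, h2⟩))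
  · exact (isMinor_iff _ _).2 ((hM1 ⟨i, G, h1, h2⟩).trans h2)

theorem not_countable_cantor : ¬ Countable (ℕ → Bool) := by
  have h2 : Cardinal.mk (ℕ → Bool) = Cardinal.continuum := by simp
  intro hc
  have h1 := Cardinal.mk_le_aleph0_iff.2 hc
  rw [h2] at h1
  exact absurd h1 (not_le.2 Cardinal.aleph0_lt_continuum)

theorem not_antichain_of_countablyMany {α : Ordinal.{0}} (h : CountablyMany α) :
    ¬ ContAntichain α := by
  rintro ⟨φ, _, hr, ha⟩
  obtain ⟨D, hD, h⟩ := h
  choose ψ hψ hψ1 hψ2 using fun x => h (φ x) (hr x)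
  have := hD.to_subtype
  have hc : Countable (ℕ → Bool) := by
    refine Function.Injective.countable (f := fun x => (⟨ψ x, hψ x⟩ : D)) ?_
    intro x y hxy
    have hxy' : ψ x = ψ y := congrArg Subtype.val hxy
    refine ha x y ((hψ1 x).trans' ?_)
    rw [hxy']
    exact hψ2 y
  exact not_countable_cantor hc

theorem antichain_of_not_hw {α : Ordinal.{0}} (hα : α < ω₁) (h : ¬ HW α) : ContAntichain α :=
  exists_phi hα h

theorem universal_of_antichain {α : Ordinal.{0}} (h : ContAntichain α) : Universal α := by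
  obtain ⟨φ, h1, h2, h3⟩ := h
  exact universal_of_phi h1 h2 h3

/-- The level-wise equivalences. -/
theorem tfae {α : Ordinal.{0}} (hα : α < ω₁) :
    List.TFAE [∀ C : Set (SimpleGraph ℕ), Family α C → IsBorel C, ¬ Universal α,
      ¬ ContAntichain α, CountablyMany α, RootedWqo α] := by
  tfae_have 1 → 2 := by
    intro h h'
    obtain ⟨C, hC, hC'⟩ := nonBorel_of_universal h'
    exact hC' (h C hC)
  tfae_have 2 → 3 := fun h h' => h (universal_of_antichain h')
  tfae_have 3 → 5 := by
    intro h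
    rw [rootedWqo_iff]
    by_contra h'
    exact h (antichain_of_not_hw hα h')
  tfae_have 5 → 4 := by
    intro h
    exact countablyMany_of_hw hα ((rootedWqo_iff α).1 h)
  tfae_have 4 → 3 := not_antichain_of_countablyMany
  tfae_have 5 → 1 := by
    intro h C hC
    exact borel_of_hw hα ((rootedWqo_iff α).1 h) C hC
  tfae_finish

theorem hw_of_wqo {α : Ordinal.{0}} (hα : α < ω₁) (h : Wqo α) : HW α := by
  by_contra hn
  obtain ⟨φ, _, hr, ha⟩ := exists_phi hα hn
  obtain ⟨i, j, hij, hm⟩ := h (fun _ => ℕ) (fun _ => inferInstance)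
    (fun n => φ fun i => decide (i = n)) fun n => hr _
  have h1 := congrFun (ha _ _ hm) i
  have h2 : i ≠ j := hij.ne
  simp [h2] at h1

theorem wqo_of_hw {α β : Ordinal.{0}} (hβ : β < α) (h : HW α) : Wqo β := by
  intro V hV G hG
  by_contra hn
  push Not at hn
  have hne : ∀ n, Nonempty (V n) := by
    intro n
    by_contra h
    rw [not_nonempty_iff] at h
    exact hn n (n + 1) (Nat.lt_succ_self n)
      ⟨fun v => h.elim v, fun v => h.elim v, fun v => h.elim v, fun v => h.elim v⟩
  obtain ⟨i, j, hij, B, hB, _⟩ := h 0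
    (fun n => ⟨Option (V n), inferInstance, cone (G n), Fin.elim0, fun a => a.elim0⟩) (fun n => by
      have hnr : RG.nr ⟨Option (V n), inferInstance, cone (G n), Fin.elim0, fun a => a.elim0⟩ =
          (Set.univ : Set (Option (V n))) := by
        ext x
        refine ⟨fun _ => trivial, fun _ => ⟨trivial, ?_⟩⟩
        rintro ⟨j, _⟩
        exact j.elim0
      refine ⟨fun a => a.elim0, ?_, ?_, β, hβ, ?_⟩
      · rw [hnr]
        exact ⟨none, trivial⟩
      · rw [hnr]
        exact conn_cone _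
      · rw [hnr]
        exact rankLE_cone (hG n))
  exact hn i j hij ((isMinor_iff _ _).2 (cone_cancel ⟨B, hB⟩))

/-- Q1 has a positive answer if and only if the countable rayless graphs are not
well-quasi-ordered. -/
theorem thomas : (∃ α < ω₁, NonBorel α) ↔ ¬ WqoRayless := by
  constructor
  · rintro ⟨α, hα, C, hC, hC'⟩ h
    have hn : ¬ HW α := fun hw => hC' (borel_of_hw hα hw C hC)
    obtain ⟨φ, _, hr, ha⟩ := exists_phi hα hn
    obtain ⟨i, j, hij, hm⟩ := h (fun _ => ℕ) (fun _ => inferInstance)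
      (fun n => φ fun i => decide (i = n)) fun n => Rayless.of_rankLE (hr _)
    have h1 := congrFun (ha _ _ hm) i
    have h2 : i ≠ j := hij.ne
    simp [h2] at h1
  · intro h
    rw [WqoRayless] at h
    push Not at h
    obtain ⟨V, hV, G, hG, hbad⟩ := h
    choose f hf1 hf2 using fun n => small_of_rayless (hG n)
    obtain ⟨β, hβ, hb⟩ := exists_bound f hf1
    refine ⟨β + 1, (Cardinal.isSuccLimit_omega 1).add_one_lt hβ, ?_⟩
    by_contra hn
    have hall : ∀ C : Set (SimpleGraph ℕ), Family (β + 1) C → IsBorel C := by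
      intro C hC
      by_contra h
      exact hn ⟨C, hC, h⟩
    have hw := (level ((Cardinal.isSuccLimit_omega 1).add_one_lt hβ)).1 hall
    obtain ⟨i, j, hij, hm⟩ := wqo_of_hw (lt_add_one β) hw V hV G fun n => (hf2 n).mono (hb n).le
    exact hbad i j hij hm

end Pool.Agent.Lib.MP_6ccddd_lc
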