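import Pool.Agent.Lib.MP_6ccddd_lc.Seq

/-!
# MP_6ccddd_lc: rooted graphs, their pieces, and the gluing lemma
-/

set_option autoImplicit false

open Relation Ordinal

namespace Pool.Agent.Lib.MP_6ccddd_lc

/-- a countable graph with `k` different roots -/
structure RG (k : ℕ) where
  V : Type
  cV : Countable V
  G : SimpleGraph V
  r : Fin k → V
  inj : Function.Injective r

namespace RG

variable {k : ℕ}

instance (P : RG k) : Countable P.V := P.cV

/-- rooted minor -/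
def le (P Q : RG k) : Prop :=
  ∃ B, Model P.G Set.univ Q.G Set.univ B ∧ ∀ j, Q.r j ∈ B (P.r j)

theorem le_refl (P : RG k) : P.le P := ⟨_, model_self P.G (subset_refl _), fun _ => rfl⟩

theorem le.trans {P Q S : RG k} (h : P.le Q) (h' : Q.le S) : P.le S := by
  obtain ⟨A, hA, hA'⟩ := h
  obtain ⟨B, hB, hB'⟩ := h'
  exact ⟨_, hA.trans hB, fun j => Set.mem_biUnion (hA' j) (hB' j)⟩

/-- rooted equivalence -/
def twin (P Q : RG k) : Prop := P.le Q ∧ Q.le P

theorem twin.symm {P Q : RG k} (h : P.twin Q) : Q.twin P := ⟨h.2, h.1⟩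

theorem twin.trans {P Q S : RG k} (h : P.twin Q) (h' : Q.twin S) : P.twin S :=
  ⟨h.1.trans h'.1, h'.2.trans h.2⟩

/-- the vertices which are not roots -/
def nr (P : RG k) : Set P.V := Set.univ \ Set.range P.r

/-- the piece of `P` given by a set `D` of vertices which are not roots: the graph induced by the roots
and `D`, without the edges between roots -/
def pc (P : RG k) (D : Set P.V) : RG k where
  V := Fin k ⊕ D
  cV := inferInstance
  G :=
    { Adj := fun x y => P.G.Adj (Sum.elim P.r Subtype.val x) (Sum.elim P.r Subtype.val y) ∧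
        ¬ (x.isLeft = true ∧ y.isLeft = true)
      symm := ⟨fun _ _ h => ⟨h.1.symm, fun h' => h.2 ⟨h'.2, h'.1⟩⟩⟩
      loopless := ⟨fun _ h => P.G.loopless.irrefl _ h.1⟩ }
  r := Sum.inl
  inj := Sum.inl_injective

/-- the vertex of `P` given by a vertex of a piece -/
def emb (P : RG k) {D : Set P.V} (x : Fin k ⊕ D) : P.V := Sum.elim P.r Subtype.val x

theorem emb_inj (P : RG k) {D : Set P.V} (hD : D ⊆ P.nr) :
    Function.Injective (P.emb : Fin k ⊕ D → P.V) := by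
  rintro (j | x) (j' | x') h
  · exact congrArg Sum.inl (P.inj h)
  · have h' : P.r j = x'.1 := h
    exact absurd ⟨j, h'⟩ (hD x'.2).2
  · have h' : x.1 = P.r j' := h
    exact absurd ⟨j', h'.symm⟩ (hD x.2).2
  · have h' : x.1 = x'.1 := h
    exact congrArg Sum.inr (Subtype.ext h')

theorem pc_adj (P : RG k) {D : Set P.V} {x y : Fin k ⊕ D} (h : (P.pc D).G.Adj x y) :
    P.G.Adj (P.emb x) (P.emb y) := h.1

theorem pc_adj_of (P : RG k) {D : Set P.V} {x y : Fin k ⊕ D} (h : P.G.Adj (P.emb x) (P.emb y))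
    (h' : ¬ (x.isLeft = true ∧ y.isLeft = true)) : (P.pc D).G.Adj x y := ⟨h, h'⟩

theorem pc_nr (P : RG k) (D : Set P.V) : (P.pc D).nr = Set.range (Sum.inr : D → Fin k ⊕ D) := by
  ext x
  constructor
  · rintro ⟨_, hx⟩
    cases x with
    | inl j => exact absurd ⟨j, rfl⟩ hx
    | inr x => exact ⟨x, rfl⟩
  · rintro ⟨x, rfl⟩
    refine ⟨trivial, ?_⟩
    rintro ⟨j, hj⟩
    exact absurd hj Sum.inl_ne_inr

/-- `P` is a graph with independent roots such that the other vertices induce a connected graph of rank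
less than `α` -/
structure IsPc (α : Ordinal.{0}) (P : RG k) : Prop where
  ind : ∀ i j, ¬ P.G.Adj (P.r i) (P.r j)
  ne : P.nr.Nonempty
  conn : Conn P.G P.nr
  rank : ∃ β < α, RankLE P.G β P.nr

/-- all components outside the roots have rank less than `α` -/
def InQ (α : Ordinal.{0}) (P : RG k) : Prop :=
  ∀ v ∈ P.nr, ∃ β < α, RankLE P.G β (comp P.G P.nr v)

theorem IsPc.mono {α β : Ordinal.{0}} {P : RG k} (h : P.IsPc α) (hαβ : α ≤ β) : P.IsPc β := by
  obtain ⟨γ, hγ, hr⟩ := h.rank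
  exact ⟨h.ind, h.ne, h.conn, γ, hγ.trans_le hαβ, hr⟩

/-- the components outside the roots -/
def Cmp (P : RG k) : Type := {D : Set P.V // ∃ v ∈ P.nr, D = comp P.G P.nr v}

instance (P : RG k) : Countable P.Cmp := by
  have : Function.Surjective (fun v : P.nr => (⟨comp P.G P.nr v.1, v.1, v.2, rfl⟩ : P.Cmp)) := by
    rintro ⟨D, v, hv, rfl⟩
    exact ⟨⟨v, hv⟩, rfl⟩
  exact this.countable

theorem Cmp.sub {P : RG k} (D : P.Cmp) : D.1 ⊆ P.nr := by
  obtain ⟨D, v, hv, rfl⟩ := D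
  exact comp_subset _ _ _

/-- the component of a vertex -/
def cmp (P : RG k) {v : P.V} (hv : v ∈ P.nr) : P.Cmp := ⟨comp P.G P.nr v, v, hv, rfl⟩

theorem mem_cmp (P : RG k) {v : P.V} (hv : v ∈ P.nr) : v ∈ (P.cmp hv).1 := self_mem_comp hv

theorem Cmp.eq_of_mem {P : RG k} {D E : P.Cmp} {v : P.V} (hD : v ∈ D.1) (hE : v ∈ E.1) : D = E := by
  obtain ⟨D, u, hu, rfl⟩ := D
  obtain ⟨E, w, hw, rfl⟩ := E
  refine Subtype.ext (Set.Subset.antisymm ?_ ?_)
  · exact subset_comp (conn_comp _ _ _) (comp_subset _ _ _) hD hE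
  · exact subset_comp (conn_comp _ _ _) (comp_subset _ _ _) hE hD

theorem Cmp.closed {P : RG k} (D : P.Cmp) {v w : P.V} (hv : v ∈ D.1) (hw : w ∈ P.nr)
    (h : P.G.Adj v w) : w ∈ D.1 := by
  have hv' := D.sub hv
  obtain ⟨D, u, hu, rfl⟩ := D
  obtain ⟨_, h1⟩ := mem_comp.1 hv
  exact mem_comp.2 ⟨hu, h1.tail ⟨hv', hw, h⟩⟩

theorem isPc_pc {α : Ordinal.{0}} {P : RG k} (h : P.InQ α) (D : P.Cmp) : (P.pc D.1).IsPc α := by
  have hsub := D.sub
  obtain ⟨D, v, hv, rfl⟩ := D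
  simp only at hsub ⊢
  obtain ⟨β, hβ, hr⟩ := h v hv
  refine ⟨?_, ?_, ?_, β, hβ, ?_⟩
  · intro i j h
    exact h.2 ⟨rfl, rfl⟩
  · rw [pc_nr]
    exact ⟨_, ⟨v, self_mem_comp hv⟩, rfl⟩
  · have hm : Model P.G (comp P.G P.nr v) (P.pc (comp P.G P.nr v)).G
        (P.pc (comp P.G P.nr v)).nr (fun u => {x | P.emb x = u ∧ x ∈ (P.pc (comp P.G P.nr v)).nr}) := by
      refine ⟨?_, ?_, ?_, ?_, ?_⟩
      · intro u hu
        refine ⟨Sum.inr ⟨u, hu⟩, rfl, ?_⟩
        rw [pc_nr]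
        exact ⟨_, rfl⟩
      · rintro u _ x ⟨_, hx⟩
        exact hx
      · intro u _
        refine conn_of_subsingleton _ ?_
        rintro x ⟨hx, _⟩ y ⟨hy, _⟩
        exact P.emb_inj hsub (hx.trans hy.symm)
      · rintro u _ w _ x ⟨hx, _⟩ ⟨hx', _⟩
        exact hx.symm.trans hx'
      · intro u hu w hw hadj
        refine ⟨Sum.inr ⟨u, hu⟩, ⟨rfl, ?_⟩, Sum.inr ⟨w, hw⟩, ⟨rfl, ?_⟩, hadj, ?_⟩
        · rw [pc_nr]
          exact ⟨_, rfl⟩
        · rw [pc_nr]
          exact ⟨_, rfl⟩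
        · rintro ⟨h1, _⟩
          exact absurd h1 (by simp)
    have h1 := hm.conn_union (subset_refl _) (conn_comp _ _ _)
    have h2 : ∀ Y, Y = (P.pc (comp P.G P.nr v)).nr → Conn (P.pc (comp P.G P.nr v)).G Y →
        Conn (P.pc (comp P.G P.nr v)).G (P.pc (comp P.G P.nr v)).nr := fun Y e h => e ▸ h
    refine h2 _ ?_ h1
    refine Set.Subset.antisymm ?_ ?_
    · refine Set.iUnion₂_subset ?_
      rintro u _ x ⟨_, hx⟩
      exact hx
    · intro x hx
      have hx' := hx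
      rw [pc_nr] at hx'
      obtain ⟨y, rfl⟩ := hx'
      exact Set.mem_biUnion y.2 ⟨rfl, hx⟩
  · have hm : Model (P.pc (comp P.G P.nr v)).G (P.pc (comp P.G P.nr v)).nr P.G
        (comp P.G P.nr v) (fun x => {P.emb x}) := by
      refine ⟨fun x _ => Set.singleton_nonempty _, ?_, fun x _ => conn_singleton _ _, ?_, ?_⟩
      · intro x hx
        rw [pc_nr] at hx
        obtain ⟨y, rfl⟩ := hx
        exact Set.singleton_subset_iff.2 y.2
      · intro x _ y _ u hu hu'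
        rw [Set.mem_singleton_iff] at hu hu'
        exact P.emb_inj hsub (hu.symm.trans hu')
      · intro x _ y _ hadj
        exact ⟨_, rfl, _, rfl, hadj.1⟩
    exact RankLE.minor β _ _ _ hm hr

theorem conn_image {U W : Type} {H : SimpleGraph U} {G : SimpleGraph W} {f : U → W}
    (hf : ∀ a b, H.Adj a b → G.Adj (f a) (f b)) {Y : Set U} (hY : Conn H Y) : Conn G (f '' Y) := by
  rintro _ ⟨a, ha, rfl⟩ _ ⟨b, hb, rfl⟩
  have := hY a ha b hb
  clear hb
  induction this with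
  | refl => exact ReflTransGen.refl
  | tail _ h2 ih => exact ih.tail ⟨⟨_, h2.1, rfl⟩, ⟨_, h2.2.1, rfl⟩, hf _ _ h2.2.2⟩

/-- The gluing lemma. -/
theorem glue_le {P Q : RG k} (hroot : ∀ i j, P.G.Adj (P.r i) (P.r j) → Q.G.Adj (Q.r i) (Q.r j))
    (f : P.Cmp → Q.Cmp) (hf : Function.Injective f)
    (h : ∀ D : P.Cmp, (P.pc D.1).le (Q.pc (f D).1)) : P.le Q := by
  choose B hB hr using h
  have hB' : ∀ (D : P.Cmp) (a : Fin k ⊕ D.1) (j : Fin k),
      (Sum.inl j : Fin k ⊕ (f D).1) ∈ B D a → a = Sum.inl j := fun D a j h =>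
    (hB D).disj _ trivial _ trivial _ h (hr D j)
  refine ⟨fun v => {x | (∃ j, v = P.r j ∧ x = Q.r j) ∨ ∃ (D : P.Cmp) (a : Fin k ⊕ D.1),
    P.emb a = v ∧ ∃ b ∈ B D a, Q.emb b = x}, ⟨?_, ?_, ?_, ?_, ?_⟩, ?_⟩
  · -- nonempty
    intro v _
    by_cases hv : v ∈ P.nr
    · obtain ⟨b, hb⟩ := (hB (P.cmp hv)).ne (Sum.inr ⟨v, P.mem_cmp hv⟩) trivial
      exact ⟨_, Or.inr ⟨P.cmp hv, Sum.inr ⟨v, P.mem_cmp hv⟩, rfl, b, hb, rfl⟩⟩
    · have : v ∈ Set.range P.r := by
        by_contra h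
        exact hv ⟨trivial, h⟩
      obtain ⟨j, rfl⟩ := this
      exact ⟨_, Or.inl ⟨j, rfl, rfl⟩⟩
  · exact fun _ _ => Set.subset_univ _
  · -- connected
    intro v _
    have him : ∀ (D : P.Cmp) (a : Fin k ⊕ D.1), P.emb a = v → ∀ b ∈ B D a, ∀ b' ∈ B D a,
        ReflTransGen (R Q.G {x | (∃ j, v = P.r j ∧ x = Q.r j) ∨ ∃ (D : P.Cmp) (a : Fin k ⊕ D.1),
          P.emb a = v ∧ ∃ b ∈ B D a, Q.emb b = x}) (Q.emb b) (Q.emb b') := by
      intro D a ha b hb b' hb'
      refine RTG_mono ?_ (conn_image (fun x y => Q.pc_adj) ((hB D).conn a trivial) _ ⟨b, hb, rfl⟩ _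
        ⟨b', hb', rfl⟩)
      rintro _ ⟨c, hc, rfl⟩
      exact Or.inr ⟨D, a, ha, c, hc, rfl⟩
    by_cases hv : ∃ j, v = P.r j
    · obtain ⟨j, rfl⟩ := hv
      have key : ∀ x ∈ {x | (∃ j', P.r j = P.r j' ∧ x = Q.r j') ∨ ∃ (D : P.Cmp) (a : Fin k ⊕ D.1),
          P.emb a = P.r j ∧ ∃ b ∈ B D a, Q.emb b = x},
          ReflTransGen (R Q.G {x | (∃ j', P.r j = P.r j' ∧ x = Q.r j') ∨
          ∃ (D : P.Cmp) (a : Fin k ⊕ D.1), P.emb a = P.r j ∧ ∃ b ∈ B D a, Q.emb b = x}) (Q.r j) x := by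
        rintro x (⟨j', hj, rfl⟩ | ⟨D, a, ha, b, hb, rfl⟩)
        · rw [P.inj hj]
        · have ha' : a = Sum.inl j := P.emb_inj D.sub ha
          subst ha'
          exact him D _ ha (Sum.inl j) (hr D j) b hb
      intro x hx y hy
      exact (RTG_symm (key x hx)).trans (key y hy)
    · rintro x (⟨j, hj, rfl⟩ | ⟨D, a, ha, b, hb, rfl⟩)
      · exact absurd ⟨j, hj⟩ hv
      · rintro y (⟨j, hj, rfl⟩ | ⟨D', a', ha', b', hb', rfl⟩)
        · exact absurd ⟨j, hj⟩ hv
        · cases a with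
          | inl j => exact absurd ⟨j, ha.symm⟩ hv
          | inr a =>
            cases a' with
            | inl j => exact absurd ⟨j, ha'.symm⟩ hv
            | inr a' =>
              have e1 : a.1 = v := ha
              have e2 : a'.1 = v := ha'
              have hDD : D = D' := Cmp.eq_of_mem (v := v) (by rw [← e1]; exact a.2)
                (by rw [← e2]; exact a'.2)
              subst hDD
              have haa : a = a' := Subtype.ext (e1.trans e2.symm)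
              subst haa
              exact him D _ ha b hb b' hb'
  · -- disjoint
    intro v _ w _ x hx hx'
    rcases hx with ⟨j, rfl, rfl⟩ | ⟨D, a, rfl, b, hb, rfl⟩
    · rcases hx' with ⟨j', rfl, hj⟩ | ⟨D', a', rfl, b', hb', hx'⟩
      · rw [Q.inj hj]
      · have hb'' : b' = Sum.inl j := Q.emb_inj (f D').sub hx'
        subst hb''
        rw [hB' D' a' j hb']
        rfl
    · rcases hx' with ⟨j', rfl, hj⟩ | ⟨D', a', rfl, b', hb', hx'⟩
      · have hb'' : b = Sum.inl j' := Q.emb_inj (f D).sub hj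
        subst hb''
        rw [hB' D a j' hb]
        rfl
      · cases b with
        | inl j =>
          have hb'' : b' = Sum.inl j := Q.emb_inj (f D').sub hx'
          subst hb''
          rw [hB' D a j hb, hB' D' a' j hb']
          rfl
        | inr b =>
          cases b' with
          | inl j =>
            have e1 : Q.r j = b.1 := hx'
            exact absurd ⟨j, e1⟩ ((f D).sub b.2).2
          | inr b' =>
            have e1 : b'.1 = b.1 := hx'
            have hff : f D = f D' := Cmp.eq_of_mem (v := b.1) b.2 (by rw [← e1]; exact b'.2)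
            have hDD := hf hff
            subst hDD
            have hbb : b' = b := Subtype.ext e1
            subst hbb
            rw [(hB D).disj _ trivial _ trivial _ hb hb']
  · -- adjacent
    have key : ∀ (D : P.Cmp) (a a' : Fin k ⊕ D.1), (P.pc D.1).G.Adj a a' →
        ∃ x ∈ {x | (∃ j, P.emb a = P.r j ∧ x = Q.r j) ∨ ∃ (D : P.Cmp) (a₀ : Fin k ⊕ D.1),
          P.emb a₀ = P.emb a ∧ ∃ b ∈ B D a₀, Q.emb b = x},
        ∃ y ∈ {x | (∃ j, P.emb a' = P.r j ∧ x = Q.r j) ∨ ∃ (D : P.Cmp) (a₀ : Fin k ⊕ D.1),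
          P.emb a₀ = P.emb a' ∧ ∃ b ∈ B D a₀, Q.emb b = x}, Q.G.Adj x y := by
      intro D a a' hadj
      obtain ⟨b, hb, b', hb', h⟩ := (hB D).adj a trivial a' trivial hadj
      exact ⟨Q.emb b, Or.inr ⟨D, a, rfl, b, hb, rfl⟩, Q.emb b', Or.inr ⟨D, a', rfl, b', hb', rfl⟩,
        Q.pc_adj h⟩
    intro v _ w _ hadj
    by_cases hv : v ∈ P.nr
    · by_cases hw : w ∈ P.nr
      · have hw' := Cmp.closed (P.cmp hv) (P.mem_cmp hv) hw hadj
        exact key (P.cmp hv) (Sum.inr ⟨v, P.mem_cmp hv⟩) (Sum.inr ⟨w, hw'⟩)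
          (P.pc_adj_of hadj (by simp))
      · have : w ∈ Set.range P.r := by
          by_contra h
          exact hw ⟨trivial, h⟩
        obtain ⟨j, rfl⟩ := this
        exact key (P.cmp hv) (Sum.inr ⟨v, P.mem_cmp hv⟩) (Sum.inl j) (P.pc_adj_of hadj (by simp))
    · have : v ∈ Set.range P.r := by
        by_contra h
        exact hv ⟨trivial, h⟩
      obtain ⟨i, rfl⟩ := this
      by_cases hw : w ∈ P.nr
      · exact key (P.cmp hw) (Sum.inl i) (Sum.inr ⟨w, P.mem_cmp hw⟩) (P.pc_adj_of hadj (by simp))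
      · have : w ∈ Set.range P.r := by
          by_contra h
          exact hw ⟨trivial, h⟩
        obtain ⟨j, rfl⟩ := this
        exact ⟨Q.r i, Or.inl ⟨i, rfl, rfl⟩, Q.r j, Or.inl ⟨j, rfl, rfl⟩, hroot i j hadj⟩
  · exact fun j => Or.inl ⟨j, rfl, rfl⟩

end RG

end Pool.Agent.Lib.MP_6ccddd_lc
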