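import Pool.Agent.Lib.MP_6ccddd_lc.RSeq
import Pool.Agent.Lib.MP_6ccddd_lc.Ana

/-!
# MP_6ccddd_lc: a continuous antichain from a bad sequence of rooted graphs
-/

set_option autoImplicit false

open Relation Ordinal

namespace Pool.Agent.Lib.MP_6ccddd_lc

section

variable {K : Type} {ι : Type} {T : ι → Type} {P : ∀ i, SimpleGraph (K ⊕ T i)} {act : ι → Prop}

theorem rga_iff (hind : ∀ i a b, ¬ (P i).Adj (Sum.inl a) (Sum.inl b)) {i : ι} {p q : K ⊕ T i}
    (h : (P i).Adj p q) : (rga P act).Adj (em i p) (em i q) ↔ act i := by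
  constructor
  · intro h'
    cases p with
    | inr t => exact (rga_out h').1
    | inl r =>
      cases q with
      | inr t => exact (rga_out h'.symm).1
      | inl r' => exact absurd h (hind i r r')
  · exact fun hi => rga_adj hi h

end

/-- a continuous antichain -/
theorem exists_phi {α : Ordinal.{0}} (hα : α < ω₁) (h : ¬ HW α) :
    ∃ φ : (ℕ → Bool) → SimpleGraph ℕ,
      @Continuous (ℕ → Bool) (SimpleGraph ℕ) inferInstance graphTop φ ∧
      (∀ x, RankLE (φ x) α Set.univ) ∧ ∀ x y, IsMinor (φ x) (φ y) → x = y := by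
  rw [HW] at h
  push Not at h
  obtain ⟨k, p, hp, hbad⟩ := h
  obtain ⟨T, hT, P, hS⟩ := exists_suit2 p hp hbad
  obtain ⟨β, hβ, _⟩ := (hp 0).rank
  obtain ⟨γ, hγ1, hγ2⟩ := exists_cofinal hα (lt_of_le_of_lt zero_le hβ)
  choose X hX Q q hQ using fun i => exists_exact (γ i) ((hγ1 i).trans hα)
  have hind : ∀ i a b, ¬ (PP (K := Fin k ⊕ Bool) T P X Q q i).Adj (Sum.inl a) (Sum.inl b) := by
    intro i
    cases i with
    | inl n => exact hS.ind n
    | inr p => exact gd_ind
  have hrank : ∀ i, ∃ β < α, RankLE (PP (K := Fin k ⊕ Bool) T P X Q q i) β (Set.range Sum.inr) := by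
    intro i
    cases i with
    | inl n => exact hS.rank n
    | inr p => exact ⟨γ p.2, hγ1 _, gd_rank (hQ p.2).rank⟩
  have hinf : Infinite ((Fin k ⊕ Bool) ⊕ (Σ i, TT (K := Fin k ⊕ Bool) T X i)) := by
    refine Infinite.of_injective (fun n : ℕ => Sum.inr ⟨Sum.inr (Sum.inr true, n), q n⟩) ?_
    intro a b hab
    have h1 := congrArg Sigma.fst (Sum.inr.inj hab)
    exact (Prod.mk.inj (Sum.inr.inj h1)).2
  obtain ⟨e⟩ := nonempty_equiv_of_countable
    (α := (Fin k ⊕ Bool) ⊕ (Σ i, TT (K := Fin k ⊕ Bool) T X i)) (β := ℕ)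
  let φ : (ℕ → Bool) → SimpleGraph ℕ := fun x =>
    (rga (PP (K := Fin k ⊕ Bool) T P X Q q) (ac (code (dbl x)))).comap e.symm
  have hm1 : ∀ x, Model (φ x) Set.univ (rga (PP (K := Fin k ⊕ Bool) T P X Q q) (ac (code (dbl x))))
      (Set.range e.symm) (fun a => {e.symm a}) := fun x =>
    model_map e.symm e.symm.injective fun _ _ h => h
  have hm2 : ∀ x, Mi (rga (PP (K := Fin k ⊕ Bool) T P X Q q) (ac (code (dbl x)))) (φ x) := by
    intro x
    refine ⟨_, (model_map e e.injective fun a b h => ?_).mono (subset_refl _)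
      (fun _ _ => Set.subset_univ _)⟩
    have h1 : (rga (PP (K := Fin k ⊕ Bool) T P X Q q) (ac (code (dbl x)))).Adj (e.symm (e a))
        (e.symm (e b)) := by
      rw [e.symm_apply_apply, e.symm_apply_apply]
      exact h
    exact h1
  refine ⟨φ, ?_, ?_, ?_⟩
  · rw [graphTop, continuous_induced_rng, continuous_pi_iff]
    rintro ⟨u, v⟩
    by_cases h : ∃ i, ∃ s t, (PP (K := Fin k ⊕ Bool) T P X Q q i).Adj s t ∧ e.symm u = em i s ∧
        e.symm v = em i t
    · obtain ⟨i, s, t, hst, hu, hv⟩ := h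
      have h1 : ∀ x, (φ x).Adj u v ↔ ac (K := Fin k ⊕ Bool) (code (dbl x)) i := by
        intro x
        have h2 : (φ x).Adj u v ↔ (rga (PP (K := Fin k ⊕ Bool) T P X Q q)
            (ac (code (dbl x)))).Adj (e.symm u) (e.symm v) := Iff.rfl
        rw [h2, hu, hv]
        exact rga_iff hind hst
      cases i with
      | inl n =>
        have h3 : (fun x : ℕ → Bool => (ind ∘ φ) x (u, v)) =
            (fun c : Bool => decide (c = decide (n % 2 = 1))) ∘ fun x => dbl x (n / 2) := by
          funext x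
          simp only [Function.comp_apply, ind]
          rw [decide_eq_decide, h1]
          exact Iff.rfl
        rw [h3]
        exact continuous_of_discreteTopology.comp (continuous_pi_iff.1 continuous_dbl _)
      | inr p =>
        have h3 : (fun x : ℕ → Bool => (ind ∘ φ) x (u, v)) = fun _ => true := by
          funext x
          exact @decide_eq_true _ (Classical.propDecidable _) ((h1 x).2 trivial)
        rw [h3]
        exact continuous_const
    · have h3 : (fun x : ℕ → Bool => (ind ∘ φ) x (u, v)) = fun _ => false := by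
        funext x
        simp only [Function.comp_apply, ind]
        rw [decide_eq_false_iff_not]
        rintro ⟨i, s, t, _, hst, hu, hv⟩
        exact h ⟨i, s, t, hst, hu, hv⟩
      rw [h3]
      exact continuous_const
  · intro x
    exact RankLE.minor α _ _ _ (hm1 x) ((rank_rga hrank).subset (Set.subset_univ _))
  · intro x y hxy
    have h1 : Mi (rga (PP (K := Fin k ⊕ Bool) T P X Q q) (ac (code (dbl x))))
        (rga (PP (K := Fin k ⊕ Bool) T P X Q q) (ac (code (dbl y)))) :=
      ((hm2 x).trans ((isMinor_iff _ _).1 hxy)).trans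
        ⟨_, (hm1 y).mono (subset_refl _) fun _ _ => Set.subset_univ _⟩
    obtain ⟨m, hm1, hm2⟩ := coding hS hγ1 hγ2 hQ h1
    exact eq_of_el_le fun i => el_le hm1 hm2 i

/-- every set is the preimage of a family -/
theorem universal_of_phi {α : Ordinal.{0}} {φ : (ℕ → Bool) → SimpleGraph ℕ}
    (hφ : @Continuous (ℕ → Bool) (SimpleGraph ℕ) inferInstance graphTop φ)
    (hr : ∀ x, RankLE (φ x) α Set.univ) (ha : ∀ x y, IsMinor (φ x) (φ y) → x = y) :
    Universal α := by
  refine ⟨φ, hφ, fun X => ⟨{G | ∃ x ∈ X, IsMinor G (φ x)}, ⟨?_, ?_, ?_⟩, ?_⟩⟩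
  · rintro G ⟨x, _, h⟩
    exact Rayless.of_rankLE (rankLE_of_isMinor h (hr x))
  · rintro G ⟨x, hx, h⟩ H hH
    exact ⟨x, hx, hH.trans' h⟩
  · rintro G ⟨x, _, h⟩
    exact rankLE_of_isMinor h (hr x)
  · ext x
    constructor
    · rintro ⟨y, hy, h⟩
      rw [ha x y h]
      exact hy
    · intro hx
      exact ⟨x, hx, IsMinor.refl' _⟩

theorem nonBorel_of_universal {α : Ordinal.{0}} (h : Universal α) : NonBorel α := by
  obtain ⟨φ, hφ, hU⟩ := h
  obtain ⟨X, hX⟩ := exists_not_borel
  obtain ⟨C, hC, hCX⟩ := hU X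
  exact ⟨C, hC, not_isBorel hφ hX hCX⟩

/-- The level-wise equivalence. -/
theorem level {α : Ordinal.{0}} (hα : α < ω₁) :
    (∀ C : Set (SimpleGraph ℕ), Family α C → IsBorel C) ↔ HW α := by
  constructor
  · intro h
    by_contra hn
    obtain ⟨φ, h1, h2, h3⟩ := exists_phi hα hn
    obtain ⟨C, hC, hC'⟩ := nonBorel_of_universal (universal_of_phi h1 h2 h3)
    exact hC' (h C hC)
  · exact fun h C hC => borel_of_hw hα h C hC

end Pool.Agent.Lib.MP_6ccddd_lc
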