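import Pool.Agent.Lib.MP_6ccddd_lc.Seq

/-!
# MP_6ccddd_lc: graphs glued along common roots
-/

set_option autoImplicit false

open Relation Ordinal

namespace Pool.Agent.Lib.MP_6ccddd_lc

variable {K : Type} {ι : Type} {T : ι → Type}

/-- the inclusion of a block together with the roots -/
def em (i : ι) (x : K ⊕ T i) : K ⊕ (Σ i, T i) := Sum.map id (Sigma.mk i) x

theorem em_inj (i : ι) : Function.Injective (em i : K ⊕ T i → K ⊕ (Σ i, T i)) := by
  rintro (a | a) (b | b) h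
  · exact congrArg Sum.inl (Sum.inl.inj h)
  · exact absurd h Sum.inl_ne_inr
  · exact absurd h Sum.inr_ne_inl
  · have h1 := Sum.inr.inj h
    rw [Sigma.mk.injEq] at h1
    exact congrArg Sum.inr (eq_of_heq h1.2)

theorem em_eq {i j : ι} {t : T i} {y : K ⊕ T j}
    (h : (Sum.inr ⟨i, t⟩ : K ⊕ (Σ i, T i)) = em j y) : ∃ h : i = j, y = Sum.inr (h ▸ t) := by
  cases y with
  | inl y => exact absurd h Sum.inr_ne_inl
  | inr y =>
    have h1 := Sum.inr.inj h
    rw [Sigma.mk.injEq] at h1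
    obtain ⟨rfl, h1⟩ := h1
    exact ⟨rfl, congrArg Sum.inr (eq_of_heq h1).symm⟩

theorem em_eq_inl {i : ι} {y : K ⊕ T i} {r : K} (h : (Sum.inl r : K ⊕ (Σ i, T i)) = em i y) :
    y = Sum.inl r := by
  cases y with
  | inl y => exact congrArg Sum.inl (Sum.inl.inj h).symm
  | inr y => exact absurd h Sum.inl_ne_inr

/-- the graphs `P i` with `act i`, glued along the roots -/
def rga (P : ∀ i, SimpleGraph (K ⊕ T i)) (act : ι → Prop) : SimpleGraph (K ⊕ (Σ i, T i)) where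
  Adj x y := ∃ i p q, act i ∧ (P i).Adj p q ∧ x = em i p ∧ y = em i q
  symm := ⟨by
    rintro x y ⟨i, p, q, h1, h2, h3, h4⟩
    exact ⟨i, q, p, h1, h2.symm, h4, h3⟩⟩
  loopless := ⟨by
    rintro x ⟨i, p, q, h1, h2, h3, h4⟩
    rw [em_inj i (h3.symm.trans h4)] at h2
    exact (P i).loopless.irrefl _ h2⟩

/-- the vertices of a block which are not roots -/
def bk (i : ι) : Set (K ⊕ (Σ i, T i)) := Set.range fun t : T i => Sum.inr ⟨i, t⟩

variable {P : ∀ i, SimpleGraph (K ⊕ T i)} {act act' : ι → Prop}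

theorem rga_out {i : ι} {t : T i} {y : K ⊕ (Σ i, T i)}
    (h : (rga P act).Adj (Sum.inr ⟨i, t⟩) y) :
    act i ∧ ∃ q, (P i).Adj (Sum.inr t) q ∧ y = em i q := by
  obtain ⟨j, p, q, h1, h2, h3, h4⟩ := h
  obtain ⟨rfl, h⟩ := em_eq h3
  rw [h] at h2
  exact ⟨h1, q, h2, h4⟩

theorem rga_adj {i : ι} (hi : act i) {p q : K ⊕ T i} (h : (P i).Adj p q) :
    (rga P act).Adj (em i p) (em i q) := ⟨i, p, q, hi, h, rfl, rfl⟩

/-- adjacency inside a block -/
theorem rga_em {i : ι} {t : T i} {q : K ⊕ T i} (h : (rga P act).Adj (Sum.inr ⟨i, t⟩) (em i q)) :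
    (P i).Adj (Sum.inr t) q := by
  obtain ⟨_, q', h1, h2⟩ := rga_out h
  rw [em_inj i h2]
  exact h1

/-- a connected set without roots which meets a block lies in it -/
theorem sub_bk {Y : Set (K ⊕ (Σ i, T i))} (hY : Conn (rga P act) Y)
    (hr : ∀ r, Sum.inl r ∉ Y) {i : ι} {x : K ⊕ (Σ i, T i)} (hx : x ∈ Y) (hxi : x ∈ bk i) :
    Y ⊆ bk i := by
  intro y hy
  have h := hY x hx y hy
  clear hy
  induction h with
  | refl => exact hxi
  | @tail u v _ h2 ih =>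
    obtain ⟨t, rfl⟩ := ih
    obtain ⟨_, q, _, rfl⟩ := rga_out h2.2.2
    cases q with
    | inl r => exact absurd h2.2.1 (hr r)
    | inr q => exact ⟨q, rfl⟩

theorem mem_bk_of_adj {i : ι} {x y : K ⊕ (Σ i, T i)} (hx : x ∈ bk i) (h : (rga P act).Adj x y)
    (hy : ∀ r, y ≠ Sum.inl r) : y ∈ bk i := by
  obtain ⟨t, rfl⟩ := hx
  obtain ⟨_, q, _, rfl⟩ := rga_out h
  cases q with
  | inl r => exact absurd rfl (hy r)
  | inr q => exact ⟨q, rfl⟩

/-- the model of the block in the glued graph -/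
theorem model_bk {i : ι} (hi : act i) :
    Model (P i) (Set.range Sum.inr) (rga P act) (bk i) (fun p => {em i p}) := by
  refine ⟨fun _ _ => Set.singleton_nonempty _, ?_, fun _ _ => conn_singleton _ _, ?_, ?_⟩
  · rintro _ ⟨t, rfl⟩
    exact Set.singleton_subset_iff.2 ⟨t, rfl⟩
  · intro p _ q _ x hx hx'
    rw [Set.mem_singleton_iff] at hx hx'
    exact em_inj i (hx.symm.trans hx')
  · intro p _ q _ h
    exact ⟨_, rfl, _, rfl, rga_adj hi h⟩

/-- the model of the glued block in the block -/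
theorem model_bk' (i : ι) :
    Model (rga P act) (bk i) (P i) (Set.range Sum.inr)
      (fun x => {p | em i p = x ∧ p ∈ Set.range (Sum.inr : T i → K ⊕ T i)}) := by
  refine ⟨?_, ?_, ?_, ?_, ?_⟩
  · rintro _ ⟨t, rfl⟩
    exact ⟨Sum.inr t, rfl, t, rfl⟩
  · rintro x _ p ⟨_, hp⟩
    exact hp
  · intro x _
    refine conn_of_subsingleton _ ?_
    rintro p ⟨hp, _⟩ q ⟨hq, _⟩
    exact em_inj i (hp.trans hq.symm)
  · rintro x _ y _ p ⟨hp, _⟩ ⟨hq, _⟩
    exact hp.symm.trans hq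
  · rintro _ ⟨t, rfl⟩ _ ⟨u, rfl⟩ h
    exact ⟨Sum.inr t, ⟨rfl, t, rfl⟩, Sum.inr u, ⟨rfl, u, rfl⟩, rga_em (q := Sum.inr u) h⟩

theorem rank_bk {i : ι} {β : Ordinal.{0}} (h : RankLE (P i) β (Set.range Sum.inr)) :
    RankLE (rga P act) β (bk i) := RankLE.minor β _ _ _ (model_bk' i) h

theorem conn_bk {i : ι} (hi : act i) (h : Conn (P i) (Set.range Sum.inr)) :
    Conn (rga P act) (bk i) := by
  have h1 := (model_bk (P := P) hi).conn_union (subset_refl _) h
  have h2 : (⋃ p ∈ Set.range (Sum.inr : T i → K ⊕ T i), {em i p}) = bk i := by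
    ext x
    simp only [Set.mem_iUnion, Set.mem_range, exists_prop, Set.mem_singleton_iff, bk]
    constructor
    · rintro ⟨_, ⟨t, rfl⟩, rfl⟩
      exact ⟨t, rfl⟩
    · rintro ⟨t, rfl⟩
      exact ⟨_, ⟨t, rfl⟩, rfl⟩
  rw [h2] at h1
  exact h1

theorem rank_rga [Finite K] {α : Ordinal.{0}}
    (h : ∀ i, ∃ β < α, RankLE (P i) β (Set.range Sum.inr)) :
    RankLE (rga P act) α Set.univ := by
  rw [rankLE_iff]
  refine Or.inr ⟨Set.range Sum.inl, Set.finite_range _, fun v hv => ?_⟩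
  cases v with
  | inl r => exact absurd ⟨r, rfl⟩ hv.2
  | inr s =>
    obtain ⟨i, t⟩ := s
    obtain ⟨β, hβ, hr⟩ := h i
    refine ⟨β, hβ, (rank_bk hr).subset ?_⟩
    refine sub_bk (conn_comp _ _ _) ?_ (self_mem_comp hv) ⟨t, rfl⟩
    intro r hr
    exact (comp_subset _ _ _ hr).2 ⟨r, rfl⟩

/-- for a sequence of disjoint sets only finitely many meet a finite set -/
theorem finite_meet {A : Type} {W : ℕ → Set A} (hd : ∀ i j x, x ∈ W i → x ∈ W j → i = j)
    {S : Set A} (hS : S.Finite) : {i | (W i ∩ S).Nonempty}.Finite := by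
  have h1 : ∀ i : {i | (W i ∩ S).Nonempty}, ∃ s : S, s.1 ∈ W i.1 := fun i => by
    obtain ⟨s, hs⟩ := i.2
    exact ⟨⟨s, hs.2⟩, hs.1⟩
  choose g hg using h1
  have := hS.to_subtype
  have : Finite {i | (W i ∩ S).Nonempty} := by
    refine Finite.of_injective g fun i j he => Subtype.ext ?_
    refine hd i.1 j.1 (g i).1 (hg i) ?_
    rw [he]
    exact hg j
  exact Set.toFinite _

/-- Each root of the first graph is mapped to a branch set containing a root of the second graph, if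
infinitely many disjoint connected sets of large rank are attached to it. -/
theorem root_mem [Finite K] {α : Ordinal.{0}} (hrank : ∀ i, ∃ β < α, RankLE (P i) β (Set.range Sum.inr))
    {γ : ℕ → Ordinal.{0}} (hγ : ∀ β < α, ∃ i₀, ∀ i, i₀ ≤ i → β ≤ γ i)
    {W : Type} {H : SimpleGraph W} {B : W → Set (K ⊕ (Σ i, T i))}
    (hB : Model H Set.univ (rga P act') Set.univ B) {r : W} {U : ℕ → Set W}
    (hU1 : ∀ i, Conn H (U i)) (hU2 : ∀ i j x, x ∈ U i → x ∈ U j → i = j)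
    (hU3 : ∀ i, ∀ δ < γ i, ¬ RankLE H δ (U i)) (hU4 : ∀ i, ∃ u ∈ U i, H.Adj r u) :
    ∃ l, Sum.inl l ∈ B r := by
  by_contra hno
  push Not at hno
  -- the images of the sets `U i`
  set Y : ℕ → Set (K ⊕ (Σ i, T i)) := fun i => ⋃ u ∈ U i, B u with hY
  have hYc : ∀ i, Conn (rga P act') (Y i) := fun i => hB.conn_union (Set.subset_univ _) (hU1 i)
  have hYd : ∀ i j x, x ∈ Y i → x ∈ Y j → i = j := by
    intro i j x hx hx'
    simp only [hY, Set.mem_iUnion] at hx hx'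
    obtain ⟨u, hu, hx⟩ := hx
    obtain ⟨u', hu', hx'⟩ := hx'
    have := hB.disj u trivial u' trivial x hx hx'
    subst this
    exact hU2 i j u hu hu'
  have hfin := finite_meet hYd (Set.finite_range (Sum.inl : K → K ⊕ (Σ i, T i)))
  -- the block of `B r`
  obtain ⟨x, hx⟩ := hB.ne r trivial
  have hm : ∃ m, x ∈ bk (K := K) (T := T) m := by
    cases x with
    | inl l => exact absurd hx (hno l)
    | inr s => exact ⟨s.1, s.2, rfl⟩
  obtain ⟨m, hm⟩ := hm
  have hBr := sub_bk (hB.conn r trivial) hno hx hm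
  have hYm : ∀ i, (∀ l, Sum.inl l ∉ Y i) → Y i ⊆ bk m := by
    intro i hi
    obtain ⟨u, hu, hadj⟩ := hU4 i
    obtain ⟨v, hv, v', hv', h⟩ := hB.adj r trivial u trivial hadj
    have h1 : v' ∈ Y i := Set.mem_biUnion hu hv'
    refine sub_bk (hYc i) hi h1 (mem_bk_of_adj (hBr hv) h ?_)
    intro l hl
    rw [hl] at h1
    exact hi l h1
  obtain ⟨β, hβ, hr⟩ := hrank m
  have hr' := rank_bk (act := act') hr
  rw [rankLE_iff] at hr'
  -- choose a good index
  have hgood : ∀ S : Set (K ⊕ (Σ i, T i)), S.Finite → ∃ i, β ≤ γ i ∧ (∀ l, Sum.inl l ∉ Y i) ∧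
      ∀ y ∈ Y i, y ∉ S := by
    intro S hS
    obtain ⟨i₀, hi₀⟩ := hγ β hβ
    have h1 := (hfin.union (finite_meet hYd hS)).union (Set.finite_lt_nat i₀)
    obtain ⟨i, hi⟩ := h1.exists_notMem
    refine ⟨i, hi₀ i ?_, ?_, ?_⟩
    · by_contra h
      exact hi (Or.inr (not_le.1 h))
    · intro l hl
      exact hi (Or.inl (Or.inl ⟨_, hl, l, rfl⟩))
    · intro y hy hyS
      exact hi (Or.inl (Or.inr ⟨y, hy, hyS⟩))
  have hne : ∀ i, ∃ y, y ∈ Y i := by
    intro i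
    obtain ⟨u, hu, hadj⟩ := hU4 i
    obtain ⟨v, hv⟩ := hB.ne u trivial
    exact ⟨v, Set.mem_biUnion hu hv⟩
  rcases hr' with hr' | ⟨S, hS, hr'⟩
  · obtain ⟨i, _, h1, h2⟩ := hgood _ hr'
    obtain ⟨y, hy⟩ := hne i
    exact h2 y hy (hYm i h1 hy)
  · obtain ⟨i, h0, h1, h2⟩ := hgood S hS
    obtain ⟨y, hy⟩ := hne i
    have hsub : Y i ⊆ bk m \ S := fun z hz => ⟨hYm i h1 hz, h2 z hz⟩
    obtain ⟨δ, hδ, hr''⟩ := hr' y (hsub hy)
    have h3 : RankLE (rga P act') δ (Y i) :=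
      hr''.subset (subset_comp (hYc i) hsub hy (self_mem_comp (hsub hy)))
    refine hU3 i δ (hδ.trans_le h0) (RankLE.minor δ _ _ B ?_ h3)
    exact hB.mono (Set.subset_univ _) fun w hw => Set.subset_biUnion_of_mem (u := B) hw

end Pool.Agent.Lib.MP_6ccddd_lc
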