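import Pool.Agent.Lib.MP_6ccddd_lc.Blk
import Pool.Agent.Lib.MP_6ccddd_lc.Piece

/-!
# MP_6ccddd_lc: from a bad sequence of rooted graphs to a suitable sequence
-/

set_option autoImplicit false

open Relation Ordinal

namespace Pool.Agent.Lib.MP_6ccddd_lc

section Twisted

variable {K : Type} {S S' S'' : Type} {P : SimpleGraph (K ⊕ S)} {Q : SimpleGraph (K ⊕ S')}
  {O : SimpleGraph (K ⊕ S'')}

theorem TR.trans {f g : K → K} (h : TR f P Q) (h' : TR g Q O) : TR (g ∘ f) P O := by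
  obtain ⟨A, hA, hA'⟩ := h
  obtain ⟨B, hB, hB'⟩ := h'
  exact ⟨_, hA.trans hB, fun r => Set.mem_biUnion (hA' r) (hB' (f r))⟩

theorem TR.refl (P : SimpleGraph (K ⊕ S)) : TR id P P :=
  ⟨_, model_self P (subset_refl _), fun _ => rfl⟩

theorem tr_inj {f : K → K} {B : K ⊕ S → Set (K ⊕ S')} (hB : Model P Set.univ Q Set.univ B)
    (hf : ∀ r, Sum.inl (f r) ∈ B (Sum.inl r)) : Function.Injective f := by
  intro r r' h
  refine Sum.inl.inj (hB.disj _ trivial _ trivial _ (hf r) ?_)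
  rw [h]
  exact hf r'

theorem no_root [Finite K] {f : K → K} {B : K ⊕ S → Set (K ⊕ S')}
    (hB : Model P Set.univ Q Set.univ B) (hf : ∀ r, Sum.inl (f r) ∈ B (Sum.inl r)) (t : S) (l : K) :
    Sum.inl l ∉ B (Sum.inr t) := by
  intro h
  obtain ⟨r, rfl⟩ := Finite.injective_iff_surjective.1 (tr_inj hB hf) l
  exact Sum.inr_ne_inl (hB.disj _ trivial _ trivial _ h (hf r))

/-- the graph induced by the vertices which are not roots -/
def dg (P : SimpleGraph (K ⊕ S)) : SimpleGraph S := P.comap Sum.inr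

theorem model_dg [Finite K] {f : K → K} {B : K ⊕ S → Set (K ⊕ S')}
    (hB : Model P Set.univ Q Set.univ B) (hf : ∀ r, Sum.inl (f r) ∈ B (Sum.inl r)) :
    Model (dg P) Set.univ (dg Q) Set.univ (fun t => {u | Sum.inr u ∈ B (Sum.inr t)}) := by
  have hr : ∀ (t : S) x, x ∈ B (Sum.inr t) → ∃ u, x = Sum.inr u := by
    intro t x hx
    cases x with
    | inl l => exact absurd hx (no_root hB hf t l)
    | inr u => exact ⟨u, rfl⟩
  refine ⟨?_, fun _ _ => Set.subset_univ _, ?_, ?_, ?_⟩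
  · intro t _
    obtain ⟨x, hx⟩ := hB.ne (Sum.inr t) trivial
    obtain ⟨u, rfl⟩ := hr t x hx
    exact ⟨u, hx⟩
  · intro t _ a ha b hb
    have key : ∀ y, ReflTransGen (R Q (B (Sum.inr t))) (Sum.inr a) y →
        ∃ c, y = Sum.inr c ∧ ReflTransGen (R (dg Q) {u | Sum.inr u ∈ B (Sum.inr t)}) a c := by
      intro y hy
      induction hy with
      | refl => exact ⟨a, rfl, ReflTransGen.refl⟩
      | @tail x y _ h2 ih =>
        obtain ⟨c, rfl, ih⟩ := ih
        obtain ⟨d, rfl⟩ := hr t y h2.2.1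
        exact ⟨d, rfl, ih.tail ⟨h2.1, h2.2.1, h2.2.2⟩⟩
    obtain ⟨c, hc, h⟩ := key _ (hB.conn (Sum.inr t) trivial _ ha _ hb)
    rw [Sum.inr.inj hc]
    exact h
  · intro t _ t' _ u hu hu'
    exact Sum.inr.inj (hB.disj _ trivial _ trivial _ hu hu')
  · intro t _ t' _ hadj
    obtain ⟨x, hx, y, hy, h⟩ := hB.adj (Sum.inr t) trivial (Sum.inr t') trivial hadj
    obtain ⟨u, rfl⟩ := hr t x hx
    obtain ⟨v, rfl⟩ := hr t' y hy
    exact ⟨u, hx, v, hy, h⟩

theorem TR.mi [Finite K] {f : K → K} (h : TR f P Q) : Mi (dg P) (dg Q) := by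
  obtain ⟨B, hB, hf⟩ := h
  exact ⟨_, model_dg hB hf⟩

theorem rank_dg {β : Ordinal.{0}} (h : RankLE P β (Set.range Sum.inr)) :
    RankLE (dg P) β Set.univ :=
  RankLE.minor β _ _ _ (model_map (H := dg P) Sum.inr Sum.inr_injective fun _ _ h => h) h

theorem conn_dg (h : Conn P (Set.range Sum.inr)) : Conn (dg P) Set.univ := by
  intro a _ b _
  have key : ∀ y, ReflTransGen (R P (Set.range Sum.inr)) (Sum.inr a) y →
      ∃ c, y = Sum.inr c ∧ ReflTransGen (R (dg P) Set.univ) a c := by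
    intro y hy
    induction hy with
    | refl => exact ⟨a, rfl, ReflTransGen.refl⟩
    | @tail x y _ h2 ih =>
      obtain ⟨c, rfl, ih⟩ := ih
      obtain ⟨d, rfl⟩ := h2.2.1
      exact ⟨d, rfl, ih.tail ⟨trivial, trivial, h2.2.2⟩⟩
  obtain ⟨c, hc, h⟩ := key _ (h _ ⟨a, rfl⟩ _ ⟨b, rfl⟩)
  rw [Sum.inr.inj hc]
  exact h

/-- an infinite chain of twisted rooted minors contains an untwisted one -/
theorem exists_id [Finite K] {T : ℕ → Type} (P : ∀ n, SimpleGraph (K ⊕ T n))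
    (h : ∀ n, ∃ f, TR f (P n) (P (n + 1))) : ∃ i j, i < j ∧ TR id (P i) (P j) := by
  choose f hf using h
  let π : ℕ → K → K := fun n => Nat.rec id (fun n p => f n ∘ p) n
  have hπ : ∀ n, π (n + 1) = f n ∘ π n := fun n => rfl
  have h0 : ∀ n, TR (π n) (P 0) (P n) := by
    intro n
    induction n with
    | zero => exact TR.refl _
    | succ n ih =>
      rw [hπ]
      exact ih.trans (hf n)
  have h1 : ∀ i n, ∃ ρ : K → K, TR ρ (P i) (P (i + n)) ∧ π (i + n) = ρ ∘ π i := by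
    intro i n
    induction n with
    | zero => exact ⟨id, TR.refl _, rfl⟩
    | succ n ih =>
      obtain ⟨ρ, h2, h3⟩ := ih
      refine ⟨f (i + n) ∘ ρ, h2.trans (hf (i + n)), ?_⟩
      have : π (i + (n + 1)) = f (i + n) ∘ π (i + n) := hπ (i + n)
      rw [this, h3]
      rfl
  have key : ∀ i j, i < j → π i = π j → TR id (P i) (P j) := by
    intro i j hij heq
    obtain ⟨n, rfl⟩ := Nat.exists_eq_add_of_lt hij
    obtain ⟨ρ, h2, h3⟩ := h1 i (n + 1)
    obtain ⟨B, hB, hB'⟩ := h0 i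
    have hs := Finite.injective_iff_surjective.1 (tr_inj hB hB')
    have hρ : ρ = id := by
      funext x
      obtain ⟨y, rfl⟩ := hs x
      have h4 : π (i + (n + 1)) y = ρ (π i y) := congrFun h3 y
      rw [← h4, id]
      exact (congrFun heq y).symm
    rw [hρ] at h2
    exact h2
  obtain ⟨i, j, hne, heq⟩ := Finite.exists_ne_map_eq_of_infinite π
  rcases lt_or_gt_of_ne hne with hij | hij
  · exact ⟨i, j, hij, key i j hij heq⟩
  · exact ⟨j, i, hij, key j i hij heq.symm⟩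

end Twisted

/-- in a descending sequence of connected graphs, late members do not contain two of each other -/
theorem exists_tail {T : ℕ → Type} (D : ∀ n, SimpleGraph (T n)) (hne : ∀ n, Nonempty (T n))
    (hc : ∀ n, Conn (D n) Set.univ) (hr : ∃ β, RankLE (D 0) β Set.univ)
    (hd : ∀ m n, m ≤ n → Mi (D n) (D m)) :
    ∃ n₁, ∀ i j m, n₁ ≤ i → n₁ ≤ j → n₁ ≤ m → ¬ Two (D i) (D j) (D m) := by
  obtain ⟨β, hβ⟩ := hr
  obtain ⟨β', ⟨n₀, h0⟩, hmin⟩ := wellFounded_lt.has_min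
    {α : Ordinal.{0} | ∃ n, RankLE (D n) α Set.univ} ⟨β, 0, hβ⟩
  have hex : ∃ m, ∃ n, n₀ ≤ n ∧ Ker (D n) β' m := by
    obtain ⟨m, hm⟩ := exists_ker h0
    exact ⟨m, n₀, le_rfl, hm⟩
  classical
  obtain ⟨n₁, hn₁, hk⟩ := Nat.find_spec hex
  have hlow : ∀ n m, n₀ ≤ n → Ker (D n) β' m → Nat.find hex ≤ m :=
    fun n m hn h => Nat.find_min' hex ⟨n, hn, h⟩
  refine ⟨n₁, fun i j m hi hj hm h => ?_⟩
  obtain ⟨a, b, hab, ha, hb⟩ := h.ker (hk.minor (hd _ _ hm))
  have h2 := hlow _ a (hn₁.trans hi) ha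
  have h3 := hlow _ b (hn₁.trans hj) hb
  have h4 : Nat.find hex = 0 := by omega
  rw [h4] at hk
  obtain ⟨v⟩ := hne n₁
  refine not_ker_zero (hc n₁) v (fun γ hγ h => ?_) hk
  exact hmin γ ⟨_, h⟩ hγ

/-! ### The double cone over a rooted graph -/

section Cone

variable {k : ℕ}

/-- the vertex of `p` given by a vertex of the double cone -/
def cv (p : RG k) : (Fin k ⊕ Bool) ⊕ p.nr → Option p.V
  | Sum.inl (Sum.inl j) => some (p.r j)
  | Sum.inl (Sum.inr _) => none
  | Sum.inr t => some t.1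

/-- the rooted graph `p` with two additional roots joined to all vertices which are not roots -/
def cn (p : RG k) : SimpleGraph ((Fin k ⊕ Bool) ⊕ p.nr) where
  Adj a b := ¬ (a.isLeft = true ∧ b.isLeft = true) ∧
    ∀ x y, cv p a = some x → cv p b = some y → p.G.Adj x y
  symm := ⟨fun _ _ h => ⟨fun h' => h.1 ⟨h'.2, h'.1⟩, fun x y hx hy => (h.2 y x hy hx).symm⟩⟩
  loopless := ⟨by
    rintro (a | t) ⟨h1, h2⟩
    · exact h1 ⟨rfl, rfl⟩
    · exact p.G.loopless.irrefl _ (h2 t.1 t.1 rfl rfl)⟩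

theorem cv_inj (p : RG k) {a b : (Fin k ⊕ Bool) ⊕ p.nr} {v : p.V} (ha : cv p a = some v)
    (hb : cv p b = some v) : a = b := by
  rcases a with (j | c) | t
  · have ha' : p.r j = v := Option.some.inj ha
    rcases b with (j' | c') | t'
    · have hb' : p.r j' = v := Option.some.inj hb
      rw [p.inj (ha'.trans hb'.symm)]
    · exact absurd hb (by simp [cv])
    · have hb' : t'.1 = v := Option.some.inj hb
      exact absurd ⟨j, ha'.trans hb'.symm⟩ t'.2.2
  · exact absurd ha (by simp [cv])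
  · have ha' : t.1 = v := Option.some.inj ha
    rcases b with (j' | c') | t'
    · have hb' : p.r j' = v := Option.some.inj hb
      exact absurd ⟨j', hb'.trans ha'.symm⟩ t.2.2
    · exact absurd hb (by simp [cv])
    · have hb' : t'.1 = v := Option.some.inj hb
      rw [Subtype.ext (ha'.trans hb'.symm)]

/-- the vertices which are not cone vertices -/
def nc (p : RG k) : Set ((Fin k ⊕ Bool) ⊕ p.nr) := {a | ∀ c, a ≠ Sum.inl (Sum.inr c)}

theorem exists_cv (p : RG k) (v : p.V) : ∃ a ∈ nc p, cv p a = some v := by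
  by_cases hv : v ∈ p.nr
  · exact ⟨Sum.inr ⟨v, hv⟩, fun c h => Sum.inr_ne_inl h, rfl⟩
  · have : v ∈ Set.range p.r := by
      by_contra h
      exact hv ⟨trivial, h⟩
    obtain ⟨j, rfl⟩ := this
    exact ⟨Sum.inl (Sum.inl j), fun c h => Sum.inl_ne_inr (Sum.inl.inj h), rfl⟩

theorem cv_of_nc (p : RG k) {a : (Fin k ⊕ Bool) ⊕ p.nr} (ha : a ∈ nc p) : ∃ v, cv p a = some v := by
  rcases a with (j | c) | t
  · exact ⟨_, rfl⟩
  · exact absurd rfl (ha c)
  · exact ⟨_, rfl⟩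

theorem model_cn (p : RG k) (hp : ∀ i j, ¬ p.G.Adj (p.r i) (p.r j)) :
    Model p.G Set.univ (cn p) (nc p) (fun v => {a | cv p a = some v}) := by
  refine ⟨?_, ?_, ?_, ?_, ?_⟩
  · intro v _
    obtain ⟨a, _, ha⟩ := exists_cv p v
    exact ⟨a, ha⟩
  · rintro v _ a ha c rfl
    exact absurd (Set.mem_ofPred_eq.mp ha) (by simp [cv])
  · exact fun v _ => conn_of_subsingleton _ fun a ha b hb => cv_inj p ha hb
  · intro v _ w _ a ha hb
    exact Option.some.inj (Eq.trans (Eq.symm ha) hb)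
  · intro v _ w _ hadj
    obtain ⟨a, ha', ha⟩ := exists_cv p v
    obtain ⟨b, hb', hb⟩ := exists_cv p w
    refine ⟨a, ha, b, hb, ?_, ?_⟩
    · rintro ⟨h1, h2⟩
      rcases a with (j | c) | t
      · rcases b with (j' | c') | t'
        · have ha'' : p.r j = v := Option.some.inj ha
          have hb'' : p.r j' = w := Option.some.inj hb
          rw [← ha'', ← hb''] at hadj
          exact hp j j' hadj
        · exact hb' c' rfl
        · exact absurd h2 (by simp)
      · exact ha' c rfl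
      · exact absurd h1 (by simp)
    · intro x y hx hy
      rw [← Option.some.inj (ha.symm.trans hx), ← Option.some.inj (hb.symm.trans hy)]
      exact hadj

theorem model_cn' (p : RG k) :
    Model (cn p) (nc p) p.G Set.univ (fun a => {v | cv p a = some v}) := by
  refine ⟨?_, fun _ _ => Set.subset_univ _, ?_, ?_, ?_⟩
  · intro a ha
    exact cv_of_nc p ha
  · exact fun a _ => conn_of_subsingleton _ fun v hv w hw =>
      Option.some.inj (Eq.trans (Eq.symm hv) hw)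
  · exact fun a _ b _ v hv hw => cv_inj p hv hw
  · intro a ha b hb hadj
    obtain ⟨v, hv⟩ := cv_of_nc p ha
    obtain ⟨w, hw⟩ := cv_of_nc p hb
    exact ⟨v, hv, w, hw, hadj.2 v w hv hw⟩

theorem range_inr_nc (p : RG k) : Set.range Sum.inr ⊆ nc p := by
  rintro _ ⟨t, rfl⟩ c h
  exact Sum.inr_ne_inl h

theorem rank_cn {p : RG k} {β : Ordinal.{0}} (h : RankLE p.G β p.nr) :
    RankLE (cn p) β (Set.range Sum.inr) := by
  refine RankLE.minor β _ _ _ ((model_cn' p).mono (range_inr_nc p) (X' := p.nr) ?_) h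
  rintro _ ⟨t, rfl⟩ v hv
  rw [← Option.some.inj (Set.mem_ofPred_eq.mp hv)]
  exact t.2

theorem conn_cn {p : RG k} (hp : ∀ i j, ¬ p.G.Adj (p.r i) (p.r j)) (h : Conn p.G p.nr) :
    Conn (cn p) (Set.range Sum.inr) := by
  have h1 := (model_cn p hp).conn_union (Set.subset_univ _) h
  have h2 : (⋃ v ∈ p.nr, {a | cv p a = some v}) = Set.range Sum.inr := by
    ext a
    simp only [Set.mem_iUnion, exists_prop, Set.mem_range]
    constructor
    · rintro ⟨v, hv, ha⟩
      exact ⟨⟨v, hv⟩, cv_inj p (v := v) rfl ha⟩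
    · rintro ⟨t, rfl⟩
      exact ⟨t.1, t.2, rfl⟩
  rw [h2] at h1
  exact h1

theorem le_of_tr {p q : RG k} (hp : ∀ i j, ¬ p.G.Adj (p.r i) (p.r j)) (h : TR id (cn p) (cn q)) :
    p.le q := by
  obtain ⟨B, hB, hr⟩ := h
  have h1 : Model (cn p) (nc p) (cn q) (nc q) B := by
    refine hB.mono (Set.subset_univ _) fun a ha b hb c hc => ?_
    rw [hc] at hb
    exact ha c (hB.disj _ trivial _ trivial _ hb (hr (Sum.inr c)))
  refine ⟨_, ((model_cn p hp).trans h1).trans (model_cn' q), fun j => ?_⟩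
  simp only [Set.mem_iUnion, exists_prop]
  exact ⟨Sum.inl (Sum.inl j), ⟨Sum.inl (Sum.inl j), rfl, hr (Sum.inl j)⟩, rfl⟩

end Cone

theorem exists_suit2 {k : ℕ} {α : Ordinal.{0}} (p : ℕ → RG k) (hp : ∀ n, (p n).IsPc α)
    (hbad : ∀ i j, i < j → ¬ (p i).le (p j)) :
    ∃ (T : ℕ → Type) (_ : ∀ n, Countable (T n)) (P : ∀ n, SimpleGraph ((Fin k ⊕ Bool) ⊕ T n)),
      Suit2 α T P (Sum.inr true) (Sum.inr false) := by
  -- the twisted order
  have ht : ∀ a b c : ℕ, (∃ f, TR f (cn (p a)) (cn (p b))) → (∃ f, TR f (cn (p b)) (cn (p c))) →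
      ∃ f, TR f (cn (p a)) (cn (p c)) := by
    rintro a b c ⟨f, hf⟩ ⟨g, hg⟩
    exact ⟨_, hf.trans hg⟩
  -- a subsequence which is bad for the twisted order
  have h1 : ∃ g : ℕ ↪o ℕ, ∀ i j, i < j → ¬ ∃ f, TR f (cn (p (g i))) (cn (p (g j))) := by
    have : IsTrans ℕ (fun a b => ∃ f, TR f (cn (p a)) (cn (p b))) := ⟨ht⟩
    obtain ⟨g, h | h⟩ := exists_increasing_or_nonincreasing_subseq
      (fun a b => ∃ f, TR f (cn (p a)) (cn (p b))) (fun n : ℕ => n)
    · exfalso
      obtain ⟨i, j, hij, h'⟩ := exists_id (fun n => cn (p (g n))) fun n => h n (n + 1) (Nat.lt_succ_self n)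
      exact hbad _ _ (g.lt_iff_lt.2 hij) (le_of_tr (hp _).ind h')
    · exact ⟨g, h⟩
  obtain ⟨g, hg⟩ := h1
  have hg' : ∀ i j, (∃ f, TR f (cn (p (g i))) (cn (p (g j)))) → j ≤ i := by
    intro i j h
    by_contra hij
    exact hg i j (not_le.1 hij) h
  have hne : ∀ n, Nonempty (p n).nr := fun n => (hp n).ne.to_subtype
  have htr : IsTrans ℕ (fun a b => ∃ f, TR f (cn (p (g b))) (cn (p (g a)))) :=
    ⟨fun a b c h h' => ht _ _ _ h' h⟩
  obtain ⟨g', hdesc | hanti⟩ := exists_increasing_or_nonincreasing_subseq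
    (fun a b => ∃ f, TR f (cn (p (g b))) (cn (p (g a)))) (fun n : ℕ => n)
  · -- a descending sequence
    have hd : ∀ m n, m ≤ n → Mi (dg (cn (p (g (g' n))))) (dg (cn (p (g (g' m))))) := by
      intro m n hmn
      rcases hmn.eq_or_lt with rfl | h
      · exact Mi.refl _
      · obtain ⟨f, hf⟩ := hdesc m n h
        exact hf.mi
    obtain ⟨β, _, hr⟩ := (hp (g (g' 0))).rank
    obtain ⟨n₁, hn₁⟩ := exists_tail (fun n => dg (cn (p (g (g' n))))) (fun n => hne _)
      (fun n => conn_dg (conn_cn (hp _).ind (hp _).conn)) ⟨β, rank_dg (rank_cn hr)⟩ hd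
    refine ⟨fun n => (p (g (g' (n₁ + n)))).nr, fun n => inferInstance,
      fun n => cn (p (g (g' (n₁ + n)))), fun n => hne _, ?_, ?_, ?_, ?_, ?_, ?_, ?_, ?_⟩
    · exact fun n a b h => h.1 ⟨rfl, rfl⟩
    · exact fun n => conn_cn (hp _).ind (hp _).conn
    · intro n
      obtain ⟨β, hβ, hr⟩ := (hp (g (g' (n₁ + n)))).rank
      exact ⟨β, hβ, rank_cn hr⟩
    · simp
    · exact fun n t => ⟨fun h => absurd h.1 (by simp), fun x y _ hy => absurd hy (by simp [cv])⟩
    · exact fun n t => ⟨fun h => absurd h.1 (by simp), fun x y _ hy => absurd hy (by simp [cv])⟩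
    · intro n m f h
      have := g'.le_iff_le.1 (hg' _ _ ⟨f, h⟩)
      omega
    · intro i j m _ f f' B B' hB hf hB' hf' hd'
      refine hn₁ (n₁ + i) (n₁ + j) (n₁ + m) (Nat.le_add_right _ _) (Nat.le_add_right _ _)
        (Nat.le_add_right _ _) ⟨_, _, model_dg hB hf, model_dg hB' hf', ?_⟩
      intro w w' v hv hv'
      exact hd' w w' _ hv hv'
  · -- an antichain
    have heq : ∀ n m, (∃ f, TR f (cn (p (g (g' n)))) (cn (p (g (g' m))))) → n = m := by
      intro n m h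
      have h1 := g'.le_iff_le.1 (hg' _ _ h)
      rcases h1.eq_or_lt with h2 | h2
      · exact h2.symm
      · exact absurd h (hanti m n h2)
    refine ⟨fun n => (p (g (g' n))).nr, fun n => inferInstance,
      fun n => cn (p (g (g' n))), fun n => hne _, ?_, ?_, ?_, ?_, ?_, ?_, ?_, ?_⟩
    · exact fun n a b h => h.1 ⟨rfl, rfl⟩
    · exact fun n => conn_cn (hp _).ind (hp _).conn
    · intro n
      obtain ⟨β, hβ, hr⟩ := (hp (g (g' n))).rank
      exact ⟨β, hβ, rank_cn hr⟩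
    · simp
    · exact fun n t => ⟨fun h => absurd h.1 (by simp), fun x y _ hy => absurd hy (by simp [cv])⟩
    · exact fun n t => ⟨fun h => absurd h.1 (by simp), fun x y _ hy => absurd hy (by simp [cv])⟩
    · exact fun n m f h => (heq n m ⟨f, h⟩).symm.le
    · intro i j m hij f f' B B' hB hf hB' hf' _
      exact hij ((heq i m ⟨f, B, hB, hf⟩).trans (heq j m ⟨f', B', hB', hf'⟩).symm)

end Pool.Agent.Lib.MP_6ccddd_lc
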