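import Pool.Agent.Lib.MP_6ccddd_lc.Cone

/-!
# MP_6ccddd_lc: from a bad sequence to a good coding sequence
-/

set_option autoImplicit false

open Relation Ordinal

namespace Pool.Agent.Lib.MP_6ccddd_lc

variable {U V W : Type}

/-- `H` is a minor of `G`, in terms of models -/
def Mi (H : SimpleGraph W) (G : SimpleGraph V) : Prop := ∃ B, Model H Set.univ G Set.univ B

theorem Mi.trans {F : SimpleGraph U} {H : SimpleGraph W} {G : SimpleGraph V} (h1 : Mi F H)
    (h2 : Mi H G) : Mi F G := by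
  obtain ⟨A, hA⟩ := h1
  obtain ⟨B, hB⟩ := h2
  exact ⟨_, hA.trans hB⟩

theorem Mi.refl (G : SimpleGraph V) : Mi G G := ⟨_, model_self G (subset_refl _)⟩

/-- `H` and `H'` have disjoint models in `G` -/
def Two (H : SimpleGraph W) (H' : SimpleGraph U) (G : SimpleGraph V) : Prop :=
  ∃ B B', Model H Set.univ G Set.univ B ∧ Model H' Set.univ G Set.univ B' ∧
    ∀ w w' v, v ∈ B w → v ∉ B' w'

/-- removing at most `m` vertices leaves only components of rank less than `β` -/
def Ker (G : SimpleGraph V) (β : Ordinal.{0}) (m : ℕ) : Prop :=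
  ∃ S : Finset V, S.card ≤ m ∧
    ∀ v, v ∉ S → ∃ γ < β, RankLE G γ (comp G (Set.univ \ (S : Set V)) v)

theorem exists_ker {G : SimpleGraph V} {β : Ordinal.{0}} (h : RankLE G β Set.univ) :
    ∃ m, Ker G β m := by
  rw [rankLE_iff] at h
  rcases h with h | ⟨S, hS, h⟩
  · exact ⟨_, h.toFinset, le_rfl, fun v hv => absurd (h.mem_toFinset.2 trivial) hv⟩
  · refine ⟨_, hS.toFinset, le_rfl, fun v hv => ?_⟩
    rw [Set.Finite.coe_toFinset]
    exact h v ⟨trivial, fun h => hv (hS.mem_toFinset.2 h)⟩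

theorem ker_model {H : SimpleGraph W} {G : SimpleGraph V} {B : W → Set V}
    (hB : Model H Set.univ G Set.univ B) {β : Ordinal.{0}} (S : Finset V)
    (hS : ∀ v, v ∉ S → ∃ γ < β, RankLE G γ (comp G (Set.univ \ (S : Set V)) v)) :
    ∃ (T : Finset W) (g : W → V), Function.Injective g ∧ (∀ w, g w ∈ B w) ∧ (∀ w ∈ T, g w ∈ S) ∧
      ∀ w, w ∉ T → ∃ γ < β, RankLE H γ (comp H (Set.univ \ (T : Set W)) w) := by
  have h1 : ∀ w, ∃ v, v ∈ B w ∧ ∀ u ∈ B w, u ∈ S → v ∈ S := by
    intro w
    by_cases h : ∃ u ∈ B w, u ∈ S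
    · obtain ⟨u, hu, huS⟩ := h
      exact ⟨u, hu, fun _ _ _ => huS⟩
    · obtain ⟨v, hv⟩ := hB.ne w trivial
      exact ⟨v, hv, fun u hu huS => absurd ⟨u, hu, huS⟩ h⟩
  choose g hg1 hg2 using h1
  have hinj : Function.Injective g := by
    intro w w' h
    refine hB.disj w trivial w' trivial (g w) (hg1 w) ?_
    rw [h]
    exact hg1 w'
  have hfin : (g ⁻¹' (S : Set V)).Finite := S.finite_toSet.preimage hinj.injOn
  refine ⟨hfin.toFinset, g, hinj, hg1, fun w hw => ?_, fun w hw => ?_⟩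
  · exact hfin.mem_toFinset.1 hw
  · have hw' : g w ∉ S := fun h => hw (hfin.mem_toFinset.2 h)
    obtain ⟨γ, hγ, hr⟩ := hS (g w) hw'
    refine ⟨γ, hγ, RankLE.minor γ _ _ _ (hB.comp_model ?_ ?_ (hg1 w)) hr⟩
    · rintro u ⟨_, hu⟩ v hv hvS
      exact hu (hfin.mem_toFinset.2 (hg2 u v hv hvS))
    · exact ⟨trivial, hw⟩

theorem Ker.minor {H : SimpleGraph W} {G : SimpleGraph V} {β : Ordinal.{0}} {m : ℕ}
    (h : Ker G β m) (hH : Mi H G) : Ker H β m := by
  classical
  obtain ⟨S, hS, h⟩ := h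
  obtain ⟨B, hB⟩ := hH
  obtain ⟨T, g, hinj, -, hT, hr⟩ := ker_model hB S h
  refine ⟨T, ?_, hr⟩
  rw [← Finset.card_image_of_injective T hinj]
  refine (Finset.card_le_card fun v hv => ?_).trans hS
  obtain ⟨w, hw, rfl⟩ := Finset.mem_image.1 hv
  exact hT w hw

theorem Two.ker {H : SimpleGraph W} {H' : SimpleGraph U} {G : SimpleGraph V} {β : Ordinal.{0}}
    {m : ℕ} (h : Two H H' G) (hG : Ker G β m) : ∃ a b, a + b ≤ m ∧ Ker H β a ∧ Ker H' β b := by
  classical
  obtain ⟨S, hS, hG⟩ := hG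
  obtain ⟨B, B', hB, hB', hd⟩ := h
  obtain ⟨T, g, hinj, hg, hT, hr⟩ := ker_model hB S hG
  obtain ⟨T', g', hinj', hg', hT', hr'⟩ := ker_model hB' S hG
  refine ⟨T.card, T'.card, ?_, ⟨T, le_rfl, hr⟩, ⟨T', le_rfl, hr'⟩⟩
  rw [← Finset.card_image_of_injective T hinj, ← Finset.card_image_of_injective T' hinj',
    ← Finset.card_union_of_disjoint]
  · refine (Finset.card_le_card fun v hv => ?_).trans hS
    rcases Finset.mem_union.1 hv with hv | hv
    · obtain ⟨w, hw, rfl⟩ := Finset.mem_image.1 hv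
      exact hT w hw
    · obtain ⟨w, hw, rfl⟩ := Finset.mem_image.1 hv
      exact hT' w hw
  · rw [Finset.disjoint_left]
    intro v hv hv'
    obtain ⟨w, hw, rfl⟩ := Finset.mem_image.1 hv
    obtain ⟨w', hw', h⟩ := Finset.mem_image.1 hv'
    refine hd w w' (g w) (hg w) ?_
    rw [← h]
    exact hg' w'

/-- A connected graph is not both of exact rank `β` and without kernel. -/
theorem not_ker_zero {G : SimpleGraph V} (hc : Conn G Set.univ) (v : V) {β : Ordinal.{0}}
    (h : ∀ γ < β, ¬ RankLE G γ Set.univ) : ¬ Ker G β 0 := by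
  rintro ⟨S, hS, hG⟩
  have hS' : S = ∅ := Finset.card_eq_zero.1 (Nat.le_zero.1 hS)
  subst hS'
  obtain ⟨γ, hγ, hr⟩ := hG v (Finset.notMem_empty v)
  refine h γ hγ (hr.subset ?_)
  rw [Finset.coe_empty, Set.sdiff_empty]
  exact subset_comp hc (subset_refl _) (Set.mem_univ v) (self_mem_comp trivial)

/-- A sequence suitable for the coding: the graphs are connected, a graph is not a minor of a later
one, and no graph of the sequence contains disjoint models of two different graphs of the sequence. -/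
structure Suit (β : Ordinal.{0}) (T : ℕ → Type) (K : ∀ n, SimpleGraph (T n)) (a b : ∀ n, T n) :
    Prop where
  rank : ∀ n, RankLE (K n) β Set.univ
  conn : ∀ n, Conn (K n) Set.univ
  adj : ∀ n, (K n).Adj (a n) (b n)
  le : ∀ n m, Mi (K n) (K m) → m ≤ n
  two : ∀ i j m, i ≠ j → ¬ Two (K i) (K j) (K m)

theorem exists_suit (V : ℕ → Type) (hV : ∀ n, Countable (V n)) (G : ∀ n, SimpleGraph (V n))
    {β : Ordinal.{0}} (hG : ∀ n, RankLE (G n) β Set.univ)
    (hbad : ∀ i j, i < j → ¬ IsMinor (G i) (G j)) :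
    ∃ (T : ℕ → Type) (_ : ∀ n, Countable (T n)) (K : ∀ n, SimpleGraph (T n)) (a b : ∀ n, T n),
      Suit β T K a b := by
  have hne : ∀ n, Nonempty (V n) := by
    intro n
    by_contra h
    rw [not_nonempty_iff] at h
    exact hbad n (n + 1) (Nat.lt_succ_self n)
      ⟨fun v => h.elim v, fun v => h.elim v, fun v => h.elim v, fun v => h.elim v⟩
  have v : ∀ n, V n := fun n => Classical.choice (hne n)
  have hb : ∀ i j, Mi (cone (G i)) (cone (G j)) → j ≤ i := by
    intro i j h
    by_contra hij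
    rw [not_le] at hij
    exact hbad i j hij ((isMinor_iff _ _).2 (cone_cancel h))
  have htr : IsTrans ℕ (fun m n => Mi (cone (G n)) (cone (G m))) := ⟨fun a b c h1 h2 => h2.trans h1⟩
  obtain ⟨g, hdesc | hanti⟩ := exists_increasing_or_nonincreasing_subseq
    (fun m n => Mi (cone (G n)) (cone (G m))) (fun n : ℕ => n)
  · -- a descending sequence
    have hd : ∀ m n, m ≤ n → Mi (cone (G (g n))) (cone (G (g m))) := by
      intro m n hmn
      rcases hmn.eq_or_lt with rfl | h
      · exact Mi.refl _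
      · exact hdesc m n h
    obtain ⟨β', ⟨n₀, h0⟩, hmin⟩ := wellFounded_lt.has_min
      {α : Ordinal.{0} | ∃ n, RankLE (cone (G (g n))) α Set.univ} ⟨β, 0, rankLE_cone (hG _)⟩
    have hex : ∃ m, ∃ n, n₀ ≤ n ∧ Ker (cone (G (g n))) β' m := by
      obtain ⟨m, hm⟩ := exists_ker h0
      exact ⟨m, n₀, le_rfl, hm⟩
    classical
    obtain ⟨n₁, hn₁, hk⟩ := Nat.find_spec hex
    have hlow : ∀ n m, n₀ ≤ n → Ker (cone (G (g n))) β' m → Nat.find hex ≤ m :=
      fun n m hn h => Nat.find_min' hex ⟨n, hn, h⟩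
    refine ⟨fun n => Option (V (g (n₁ + n))), fun n => inferInstance,
      fun n => cone (G (g (n₁ + n))), fun n => none, fun n => some (v _), ?_, ?_, ?_, ?_, ?_⟩
    · exact fun n => rankLE_cone (hG _)
    · exact fun n => conn_cone _
    · exact fun n => cone_adj_none _ _
    · intro n m h
      have := g.le_iff_le.1 (hb _ _ h)
      omega
    · intro i j m _ h
      have h1 : Ker (cone (G (g (n₁ + m)))) β' (Nat.find hex) :=
        hk.minor (hd _ _ (Nat.le_add_right _ _))
      obtain ⟨a, b, hab, ha, hb'⟩ := h.ker h1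
      have h2 := hlow _ a (hn₁.trans (Nat.le_add_right _ _)) ha
      have h3 := hlow _ b (hn₁.trans (Nat.le_add_right _ _)) hb'
      have h4 : Nat.find hex = 0 := by omega
      rw [h4] at hk
      refine not_ker_zero (conn_cone _) none (fun γ hγ h => ?_) hk
      exact hmin γ ⟨_, h⟩ hγ
  · -- an antichain
    have heq : ∀ n m, Mi (cone (G (g n))) (cone (G (g m))) → n = m := by
      intro n m h
      have h1 := g.le_iff_le.1 (hb _ _ h)
      rcases h1.eq_or_lt with h2 | h2
      · exact h2.symm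
      · exact absurd h (hanti m n h2)
    refine ⟨fun n => Option (V (g n)), fun n => inferInstance,
      fun n => cone (G (g n)), fun n => none, fun n => some (v _), ?_, ?_, ?_, ?_, ?_⟩
    · exact fun n => rankLE_cone (hG _)
    · exact fun n => conn_cone _
    · exact fun n => cone_adj_none _ _
    · exact fun n m h => (heq n m h).symm.le
    · rintro i j m hij ⟨B, B', hB, hB', _⟩
      exact hij ((heq i m ⟨B, hB⟩).trans (heq j m ⟨B', hB'⟩).symm)

end Pool.Agent.Lib.MP_6ccddd_lc
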